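import Pool.Agent.P8H1.SF.Defs
import Pool.Agent.N65.TK.Alg
set_option autoImplicit false

/-!
The element `xi` is a cocycle.
-/

namespace Pool.Agent.P8H1.SF

open scoped TensorProduct
open Pool.Agent.N65.TK (Pt UQ tu Five tu_mul tu_one tu_inv tu_pow tu_neg_one)

section alt

variable {V W : Type*} [AddCommGroup V] [Module ℚ V] [AddCommGroup W] [Module ℚ W]

theorem alt_key (φ : V [⋀^Fin 2]→ₗ[ℚ] W) (u w : V) :
    φ ![u, w] = (φ.curryLeft u).curryLeft w ![] := rfl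

theorem alt_add1 (φ : V [⋀^Fin 2]→ₗ[ℚ] W) (u u' w : V) :
    φ ![u + u', w] = φ ![u, w] + φ ![u', w] := by
  simp only [alt_key, map_add, AlternatingMap.add_apply, AlternatingMap.curryLeft_add,
    LinearMap.add_apply]

theorem alt_smul1 (φ : V [⋀^Fin 2]→ₗ[ℚ] W) (a : ℚ) (u w : V) :
    φ ![a • u, w] = a • φ ![u, w] := by
  simp only [alt_key, map_smul, AlternatingMap.smul_apply, AlternatingMap.curryLeft_smul,
    LinearMap.smul_apply]

theorem alt_add2 (φ : V [⋀^Fin 2]→ₗ[ℚ] W) (u w w' : V) :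
    φ ![u, w + w'] = φ ![u, w] + φ ![u, w'] := by
  simp only [alt_key, map_add, AlternatingMap.add_apply]

theorem alt_smul2 (φ : V [⋀^Fin 2]→ₗ[ℚ] W) (a : ℚ) (u w : V) :
    φ ![u, a • w] = a • φ ![u, w] := by
  simp only [alt_key, map_smul, AlternatingMap.smul_apply]

theorem alt_neg1 (φ : V [⋀^Fin 2]→ₗ[ℚ] W) (u w : V) : φ ![-u, w] = -φ ![u, w] := by
  have := alt_smul1 φ (-1) u w
  simpa using this

theorem alt_neg2 (φ : V [⋀^Fin 2]→ₗ[ℚ] W) (u w : V) : φ ![u, -w] = -φ ![u, w] := by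
  have := alt_smul2 φ (-1) u w
  simpa using this

theorem alt_self (φ : V [⋀^Fin 2]→ₗ[ℚ] W) (u : V) : φ ![u, u] = 0 :=
  φ.map_eq_zero_of_eq _ (i := 0) (j := 1) rfl (by decide)

theorem alt_swap (φ : V [⋀^Fin 2]→ₗ[ℚ] W) (u w : V) : φ ![w, u] = -φ ![u, w] := by
  have h := alt_self φ (u + w)
  rw [alt_add1, alt_add2, alt_add2, alt_self, alt_self, zero_add, add_zero] at h
  exact eq_neg_of_add_eq_zero_right h

end alt

section cl

variable {A : Type*} [CommRing A]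

theorem cl_five {x y a b c : Pt A} (h : Five x y a b c) : cl x - cl y + cl a - cl b + cl c = 0 := by
  have h1 : Submodule.Quotient.mk (p := B2Rel A) (Finsupp.single x 1 - Finsupp.single y 1 +
      Finsupp.single a 1 - Finsupp.single b 1 + Finsupp.single c 1) = 0 := by
    rw [Submodule.Quotient.mk_eq_zero]
    exact Submodule.subset_span (Or.inl (Or.inl ⟨x, y, a, b, c, h, rfl⟩))
  exact h1

theorem cl_inv {f g : Pt A} (h : (f.1 : A) * g.1 = 1) : cl g = -cl f := by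
  have h1 : Submodule.Quotient.mk (p := B2Rel A) (Finsupp.single f 1 + Finsupp.single g 1) = 0 := by
    rw [Submodule.Quotient.mk_eq_zero]
    exact Submodule.subset_span (Or.inl (Or.inr ⟨f, g, h, rfl⟩))
  have h2 : cl f + cl g = 0 := h1
  exact eq_neg_of_add_eq_zero_right h2

theorem cl_co {f g : Pt A} (h : (f.1 : A) + g.1 = 1) : cl g = -cl f := by
  have h1 : Submodule.Quotient.mk (p := B2Rel A) (Finsupp.single f 1 + Finsupp.single g 1) = 0 := by
    rw [Submodule.Quotient.mk_eq_zero]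
    exact Submodule.subset_span (Or.inr ⟨f, g, h, rfl⟩)
  have h2 : cl f + cl g = 0 := h1
  exact eq_neg_of_add_eq_zero_right h2

theorem dif_br (f : Pt A) (g : Aˣ) : dif A (br f g) = cl f ⊗ₜ[ℚ] al A ![tu f.1, tu g] := by
  unfold dif br
  rw [Finsupp.linearCombination_single, one_smul]

end cl

section main

variable {A : Type*} [CommRing A] (C : Cfg A) {a c : ℕ}

theorem Cfg.five : Five C.p1 C.p3 C.q1 C.q3 C.q2 := by
  refine ⟨?_, ?_, ?_⟩
  · show ((C.y * C.x⁻¹ : Aˣ) : A) * C.x = C.y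
    rw [Units.val_mul, mul_assoc, Units.inv_mul, mul_one]
  · show ((C.X * C.y * (C.x * C.Y)⁻¹ : Aˣ) : A) * (C.x * (C.y - 1)) = (C.x - 1) * C.y
    have h := (C.x * C.Y).inv_mul
    rw [Units.val_mul, C.hY] at h
    rw [Units.val_mul, Units.val_mul, C.hX]
    linear_combination (-((1 - (C.x : A)) * C.y)) * h
  · show ((C.X * C.Y⁻¹ : Aˣ) : A) * (1 - C.y) = 1 - C.x
    rw [← C.hY, ← C.hX, Units.val_mul, mul_assoc, Units.inv_mul, mul_one]

theorem Cfg.cl2 : cl C.p2 = -cl C.p1 := cl_co (by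
  show (C.x : A) + C.X = 1
  rw [C.hX]
  ring)

theorem Cfg.cl4 : cl C.p4 = -cl C.p3 := cl_co (by
  show (C.y : A) + C.Y = 1
  rw [C.hY]
  ring)

/-- `1 / x` -/
def Cfg.p6 : Pt A := ptOf C.x⁻¹ (-(C.X * C.x⁻¹)) (by
  have h := C.x.mul_inv
  rw [Units.val_neg, Units.val_mul, C.hX]
  linear_combination h)

theorem Cfg.cl5 : cl C.p5 = cl C.p1 := by
  have h1 : cl C.p6 = -cl C.p1 := cl_inv (by
    show (C.x : A) * ((C.x⁻¹ : Aˣ) : A) = 1
    rw [Units.mul_inv])
  have h2 : cl C.p5 = -cl C.p6 := cl_co (by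
    show ((C.x⁻¹ : Aˣ) : A) + ((-(C.X * C.x⁻¹) : Aˣ) : A) = 1
    have h := C.x.mul_inv
    rw [Units.val_neg, Units.val_mul, C.hX]
    linear_combination h)
  rw [h2, h1, neg_neg]

theorem Cfg.dif_xi (ha : 1 ≤ a) (hc : 1 ≤ c)
    (h : C.x ^ a * C.X ^ c * (C.y ^ a * C.Y ^ c) = 1) : dif A (C.xi a c) = 0 := by
  have ha0 : (a : ℚ) ≠ 0 := by
    have : a ≠ 0 := by omega
    exact_mod_cast this
  have hc0 : (c : ℚ) ≠ 0 := by
    have : c ≠ 0 := by omega
    exact_mod_cast this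
  have hac : (a : ℚ) + c ≠ 0 := by positivity
  unfold Cfg.xi
  simp only [map_add, map_sub, map_smul, dif_br]
  have e1 : tu C.p1.1 = tu C.x := rfl
  have e2 : tu C.p2.1 = tu C.X := rfl
  have e3 : tu C.p3.1 = tu C.y := rfl
  have e4 : tu C.p4.1 = tu C.Y := rfl
  have e5 : tu C.p5.1 = tu C.X - tu C.x := by
    show tu (-(C.X * C.x⁻¹)) = _
    rw [← neg_one_mul, tu_mul, tu_mul, tu_neg_one, tu_inv, zero_add, sub_eq_add_neg]
  have e6 : tu C.q1.1 = tu C.y - tu C.x := by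
    show tu (C.y * C.x⁻¹) = _
    rw [tu_mul, tu_inv, sub_eq_add_neg]
  have e7 : tu C.q2.1 = tu C.X - tu C.Y := by
    show tu (C.X * C.Y⁻¹) = _
    rw [tu_mul, tu_inv, sub_eq_add_neg]
  have e8 : tu C.q3.1 = tu C.X + tu C.y - tu C.x - tu C.Y := by
    show tu (C.X * C.y * (C.x * C.Y)⁻¹) = _
    rw [tu_mul, tu_inv, tu_mul, tu_mul]
    abel
  have e9 : tu (C.x ^ a * C.X ^ c) = (a : ℚ) • tu C.x + (c : ℚ) • tu C.X := by
    rw [tu_mul, tu_pow, tu_pow]
  have e10 : (a : ℚ) • tu C.x + (c : ℚ) • tu C.X + ((a : ℚ) • tu C.y + (c : ℚ) • tu C.Y) = 0 := by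
    rw [← tu_pow, ← tu_pow, ← tu_pow, ← tu_pow, ← tu_mul, ← tu_mul, ← tu_mul, h, tu_one]
  rw [e1, e2, e3, e4, e5, e6, e7, e8, e9, C.cl2, C.cl4, C.cl5]
  set x := tu C.x with hx
  set y := tu C.y with hy
  set X := tu C.X with hX
  set Y := tu C.Y with hY
  -- `Y` in terms of the others
  have hYe : Y = (-(a : ℚ) / c) • x + (-(a : ℚ) / c) • y + (-1 : ℚ) • X := by
    have h1 : (c : ℚ) • Y = (c : ℚ) • ((-(a : ℚ) / c) • x + (-(a : ℚ) / c) • y + (-1 : ℚ) • X) := by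
      have h2 : (c : ℚ) • Y = -((a : ℚ) • x + (c : ℚ) • X) - (a : ℚ) • y := by
        rw [← sub_eq_zero]
        rw [← e10]
        abel
      rw [h2, smul_add, smul_add, smul_smul, smul_smul, smul_smul, mul_div_cancel₀ _ hc0]
      module
    exact smul_right_injective _ hc0 h1
  have hfive := cl_five C.five
  have hw : cl C.p1 = cl C.p3 - cl C.q1 + cl C.q3 - cl C.q2 := by
    rw [← sub_eq_zero, ← hfive]
    abel
  rw [hYe, hw]
  simp only [alt_add1, alt_add2, alt_smul1, alt_smul2, alt_neg1, alt_neg2, sub_eq_add_neg, alt_self,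
    alt_swap (al A) x y, alt_swap (al A) x X, alt_swap (al A) y X, smul_zero, add_zero, zero_add]
  simp only [TensorProduct.tmul_add, TensorProduct.add_tmul, TensorProduct.tmul_smul,
    TensorProduct.neg_tmul, TensorProduct.tmul_neg, smul_add, smul_neg, TensorProduct.tmul_zero,
    smul_zero, neg_zero, add_zero, zero_add]
  match_scalars <;> field_simp <;> ring

theorem dif_xi (R : Type*) [CommRing R] (ha : 1 ≤ a) (hc : 1 ≤ c) :
    dif (Crv R a c) (xi R ha hc) = 0 := by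
  refine (cfg R ha hc).dif_xi ha hc ?_
  ext1
  have h := crd_eq R a c
  simp only [Units.val_mul, Units.val_pow_eq_pow_val, Units.val_one]
  rw [← h]
  show crd R a c 0 ^ a * (1 - crd R a c 0) ^ c * (crd R a c 1 ^ a * (1 - crd R a c 1) ^ c) = _
  rw [mul_pow, mul_pow]
  ring

end main

end Pool.Agent.P8H1.SF
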