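import Pool.Agent.P8H1.SF.Lim
set_option autoImplicit false

/-!
The coordinates of the loops on the curve `(x y)^a ((1 - x) (1 - y))^c = 1`:
`x y = S^(2 c)`, `(1 - x) (1 - y) = S^(- 2 a)`, `S = m + h cos ζ`.
-/

namespace Pool.Agent.P8H1.SF

open Real Set Filter Topology MeasureTheory
open Pool.Agent.N65.TK
open Pool.Agent.W367.KT

/-- The conditions on the real parameters. -/
structure Par (a c : ℕ) (s0 s1 : ℝ) : Prop where
  ha : 1 ≤ a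
  hc : 1 ≤ c
  p0 : 0 < s0
  p0' : s0 < 1
  p1 : 1 < s1
  e0 : s0 ^ (a + c) + s0 ^ a = 1
  e1 : s1 ^ (a + c) - s1 ^ a = 1

theorem exists_par {a c : ℕ} (ha : 1 ≤ a) (hc : 1 ≤ c) : ∃ s0 s1 : ℝ, Par a c s0 s1 := by
  have h0 : ∃ s ∈ Ioo (0 : ℝ) 1, s ^ (a + c) + s ^ a = 1 := by
    have hcont : ContinuousOn (fun s : ℝ => s ^ (a + c) + s ^ a) (Icc 0 1) := by fun_prop
    have := intermediate_value_Ioo zero_le_one hcont
    refine this ⟨?_, ?_⟩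
    · rw [zero_pow (by omega), zero_pow (by omega)]
      norm_num
    · norm_num
  have h1 : ∃ s ∈ Ioc (1 : ℝ) 2, s ^ (a + c) - s ^ a = 1 := by
    have hcont : ContinuousOn (fun s : ℝ => s ^ (a + c) - s ^ a) (Icc 1 2) := by fun_prop
    have := intermediate_value_Ioc one_le_two hcont
    refine this ⟨?_, ?_⟩
    · norm_num
    · have h2 : (1 : ℝ) ≤ 2 ^ a := one_le_pow₀ one_le_two
      have h3 : (2 : ℝ) ≤ 2 ^ c := by
        calc (2 : ℝ) = 2 ^ 1 := (pow_one _).symm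
          _ ≤ 2 ^ c := pow_le_pow_right₀ one_le_two hc
      rw [pow_add]
      nlinarith
  obtain ⟨s0, ⟨h01, h02⟩, h03⟩ := h0
  obtain ⟨s1, ⟨h11, _⟩, h13⟩ := h1
  exact ⟨s0, s1, ha, hc, h01, h02, h11, h03, h13⟩

section defs

variable (a c : ℕ) (s0 s1 : ℝ)

/-- `S^(a + c) + S^a - 1` divided by `S - s0` -/
noncomputable def w0 (S : ℂ) : ℂ :=
  ∑ i ∈ Finset.range (a + c), S ^ i * (s0 : ℂ) ^ (a + c - 1 - i) +
    ∑ i ∈ Finset.range a, S ^ i * (s0 : ℂ) ^ (a - 1 - i)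

/-- `S^(a + c) - S^a - 1` divided by `S - s1` -/
noncomputable def w1 (S : ℂ) : ℂ :=
  ∑ i ∈ Finset.range (a + c), S ^ i * (s1 : ℂ) ^ (a + c - 1 - i) -
    ∑ i ∈ Finset.range a, S ^ i * (s1 : ℂ) ^ (a - 1 - i)

/-- the function under the root -/
noncomputable def Wf (S : ℂ) : ℂ :=
  w0 a c s0 S * w1 a c s1 S * (S ^ (a + c) - S ^ a + 1) * (S ^ (a + c) + S ^ a + 1)

/-- `(s1 - s0) / 2` -/
noncomputable def hh : ℝ := (s1 - s0) / 2

/-- the function `S` -/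
noncomputable def Sg (ζ : ℂ) : ℂ := (((s0 + s1) / 2 : ℝ) : ℂ) + (hh s0 s1 : ℂ) * Complex.cos ζ

/-- the root -/
noncomputable def Eg (ζ : ℂ) : ℂ := Complex.exp (Complex.log (Wf a c s0 s1 (Sg s0 s1 ζ)) / 2)

/-- `x - y` -/
noncomputable def Zg (ζ : ℂ) : ℂ :=
  Complex.I * ((hh s0 s1 : ℂ) * Complex.sin ζ) * Eg a c s0 s1 ζ / Sg s0 s1 ζ ^ (2 * a)

/-- `x + y` -/
noncomputable def Qg (ζ : ℂ) : ℂ := 1 + Sg s0 s1 ζ ^ (2 * c) - (Sg s0 s1 ζ ^ (2 * a))⁻¹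

/-- `x` -/
noncomputable def Xg (ζ : ℂ) : ℂ := (Qg a c s0 s1 ζ + Zg a c s0 s1 ζ) / 2

/-- `y` -/
noncomputable def Yg (ζ : ℂ) : ℂ := (Qg a c s0 s1 ζ - Zg a c s0 s1 ζ) / 2

/-- the domain -/
def Om : Set ℂ := {ζ | Sg s0 s1 ζ ≠ 0 ∧ Wf a c s0 s1 (Sg s0 s1 ζ) ∈ Complex.slitPlane}

/-- the logarithmic derivative of `x` -/
noncomputable def Px (ζ : ℂ) : ℂ :=
  2 * Complex.I * (a + c * kk (Yg a c s0 s1 ζ)) / (Sg s0 s1 ζ * Eg a c s0 s1 ζ)

/-- the logarithmic derivative of `y` -/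
noncomputable def Py (ζ : ℂ) : ℂ :=
  -(2 * Complex.I * (a + c * kk (Xg a c s0 s1 ζ)) / (Sg s0 s1 ζ * Eg a c s0 s1 ζ))

end defs

section basic

variable {a c : ℕ} {s0 s1 : ℝ}

theorem Par.w0_mul (p : Par a c s0 s1) (S : ℂ) :
    w0 a c s0 S * (S - s0) = S ^ (a + c) + S ^ a - 1 := by
  have h1 := (Commute.all S (s0 : ℂ)).geom_sum₂_mul (a + c)
  have h2 := (Commute.all S (s0 : ℂ)).geom_sum₂_mul a
  have e0 : (s0 : ℂ) ^ (a + c) + (s0 : ℂ) ^ a = 1 := by exact_mod_cast p.e0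
  unfold w0
  rw [add_mul, h1, h2]
  linear_combination -e0

theorem Par.w1_mul (p : Par a c s0 s1) (S : ℂ) :
    w1 a c s1 S * (S - s1) = S ^ (a + c) - S ^ a - 1 := by
  have h1 := (Commute.all S (s1 : ℂ)).geom_sum₂_mul (a + c)
  have h2 := (Commute.all S (s1 : ℂ)).geom_sum₂_mul a
  have e1 : (s1 : ℂ) ^ (a + c) - (s1 : ℂ) ^ a = 1 := by exact_mod_cast p.e1
  unfold w1
  rw [sub_mul, h1, h2]
  linear_combination -e1

theorem Par.hh_pos (p : Par a c s0 s1) : 0 < hh s0 s1 := by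
  unfold hh
  have := p.p0'
  have := p.p1
  linarith

theorem Sg_sub (ζ : ℂ) : (Sg s0 s1 ζ - s0) * (Sg s0 s1 ζ - s1) =
    -((hh s0 s1 : ℂ) * Complex.sin ζ) ^ 2 := by
  have h := Complex.sin_sq_add_cos_sq ζ
  unfold Sg hh
  push_cast
  linear_combination (((s1 - s0 : ℂ) / 2) ^ 2) * h

/-- the discriminant -/
theorem Par.disc (p : Par a c s0 s1) (ζ : ℂ) :
    ((hh s0 s1 : ℂ) * Complex.sin ζ) ^ 2 * Wf a c s0 s1 (Sg s0 s1 ζ) =
      4 * Sg s0 s1 ζ ^ (4 * a + 2 * c) -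
        (Sg s0 s1 ζ ^ (2 * a) + Sg s0 s1 ζ ^ (2 * a + 2 * c) - 1) ^ 2 := by
  have h := Sg_sub (s0 := s0) (s1 := s1) ζ
  have h0 := p.w0_mul (Sg s0 s1 ζ)
  have h1 := p.w1_mul (Sg s0 s1 ζ)
  set S := Sg s0 s1 ζ with hS
  have e : ((hh s0 s1 : ℂ) * Complex.sin ζ) ^ 2 * Wf a c s0 s1 S =
      -((w0 a c s0 S * (S - s0)) * (w1 a c s1 S * (S - s1)) * (S ^ (a + c) - S ^ a + 1) *
        (S ^ (a + c) + S ^ a + 1)) := by
    unfold Wf
    linear_combination (w0 a c s0 S * w1 a c s1 S * (S ^ (a + c) - S ^ a + 1) *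
      (S ^ (a + c) + S ^ a + 1)) * h
  rw [e, h0, h1]
  have e1 : S ^ (a + c) = S ^ a * S ^ c := pow_add _ _ _
  have e2 : S ^ (4 * a + 2 * c) = (S ^ a) ^ 4 * (S ^ c) ^ 2 := by
    rw [pow_add, pow_mul', pow_mul']
  have e3 : S ^ (2 * a) = (S ^ a) ^ 2 := by rw [pow_mul']
  have e4 : S ^ (2 * a + 2 * c) = (S ^ a) ^ 2 * (S ^ c) ^ 2 := by
    rw [pow_add, pow_mul', pow_mul']
  rw [e1, e2, e3, e4]
  ring

theorem Eg_sq {ζ : ℂ} (h : ζ ∈ Om a c s0 s1) :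
    Eg a c s0 s1 ζ ^ 2 = Wf a c s0 s1 (Sg s0 s1 ζ) := by
  unfold Eg
  rw [← Complex.exp_nat_mul]
  have : ((2 : ℕ) : ℂ) * (Complex.log (Wf a c s0 s1 (Sg s0 s1 ζ)) / 2) =
      Complex.log (Wf a c s0 s1 (Sg s0 s1 ζ)) := by
    push_cast
    ring
  rw [this, Complex.exp_log (Complex.slitPlane_ne_zero h.2)]

theorem Eg_ne (ζ : ℂ) : Eg a c s0 s1 ζ ≠ 0 := Complex.exp_ne_zero _

theorem Par.Z_sq (p : Par a c s0 s1) {ζ : ℂ} (h : ζ ∈ Om a c s0 s1) :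
    Zg a c s0 s1 ζ ^ 2 = Qg a c s0 s1 ζ ^ 2 - 4 * Sg s0 s1 ζ ^ (2 * c) := by
  have hd := p.disc ζ
  rw [← Eg_sq h] at hd
  have hS := h.1
  unfold Zg Qg
  set S := Sg s0 s1 ζ with hSd
  have e2 : S ^ (4 * a + 2 * c) = (S ^ a) ^ 4 * (S ^ c) ^ 2 := by
    rw [pow_add, pow_mul', pow_mul']
  have e3 : S ^ (2 * a) = (S ^ a) ^ 2 := by rw [pow_mul']
  have e3' : S ^ (2 * c) = (S ^ c) ^ 2 := by rw [pow_mul']
  have e4 : S ^ (2 * a + 2 * c) = (S ^ a) ^ 2 * (S ^ c) ^ 2 := by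
    rw [pow_add, pow_mul', pow_mul']
  rw [e2, e3, e4] at hd
  rw [e3, e3']
  have hA : S ^ a ≠ 0 := pow_ne_zero _ hS
  field_simp
  have hI := Complex.I_sq
  linear_combination (hh s0 s1 * Complex.sin ζ * Eg a c s0 s1 ζ) ^ 2 * hI - hd

theorem Par.XY (p : Par a c s0 s1) {ζ : ℂ} (h : ζ ∈ Om a c s0 s1) :
    Xg a c s0 s1 ζ * Yg a c s0 s1 ζ = Sg s0 s1 ζ ^ (2 * c) := by
  have h1 := p.Z_sq h
  unfold Xg Yg
  linear_combination -(1 / 4) * h1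

theorem Par.UV (p : Par a c s0 s1) {ζ : ℂ} (h : ζ ∈ Om a c s0 s1) :
    (1 - Xg a c s0 s1 ζ) * (1 - Yg a c s0 s1 ζ) = (Sg s0 s1 ζ ^ (2 * a))⁻¹ := by
  have h1 := p.XY h
  have h2 : Xg a c s0 s1 ζ + Yg a c s0 s1 ζ = Qg a c s0 s1 ζ := by
    unfold Xg Yg
    ring
  have h3 : Qg a c s0 s1 ζ = 1 + Sg s0 s1 ζ ^ (2 * c) - (Sg s0 s1 ζ ^ (2 * a))⁻¹ := rfl
  linear_combination h1 - h2 - h3

theorem X_sub_Y (ζ : ℂ) : Xg a c s0 s1 ζ - Yg a c s0 s1 ζ = Zg a c s0 s1 ζ := by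
  unfold Xg Yg
  ring

theorem Par.curve (p : Par a c s0 s1) {ζ : ℂ} (h : ζ ∈ Om a c s0 s1) :
    (Xg a c s0 s1 ζ * Yg a c s0 s1 ζ) ^ a *
      ((1 - Xg a c s0 s1 ζ) * (1 - Yg a c s0 s1 ζ)) ^ c = 1 := by
  rw [p.XY h, p.UV h]
  have hS := h.1
  rw [inv_pow, ← pow_mul, ← pow_mul]
  have : 2 * c * a = 2 * a * c := by ring
  rw [this, mul_inv_cancel₀ (pow_ne_zero _ hS)]

theorem Par.X_ne (p : Par a c s0 s1) {ζ : ℂ} (h : ζ ∈ Om a c s0 s1) : Xg a c s0 s1 ζ ≠ 0 := by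
  intro h1
  have h2 := p.XY h
  rw [h1, zero_mul] at h2
  exact pow_ne_zero _ h.1 h2.symm

theorem Par.Y_ne (p : Par a c s0 s1) {ζ : ℂ} (h : ζ ∈ Om a c s0 s1) : Yg a c s0 s1 ζ ≠ 0 := by
  intro h1
  have h2 := p.XY h
  rw [h1, mul_zero] at h2
  exact pow_ne_zero _ h.1 h2.symm

theorem Par.X_ne_one (p : Par a c s0 s1) {ζ : ℂ} (h : ζ ∈ Om a c s0 s1) :
    Xg a c s0 s1 ζ ≠ 1 := by
  intro h1
  have h2 := p.UV h
  rw [h1, sub_self, zero_mul] at h2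
  exact inv_ne_zero (pow_ne_zero _ h.1) h2.symm

theorem Par.Y_ne_one (p : Par a c s0 s1) {ζ : ℂ} (h : ζ ∈ Om a c s0 s1) :
    Yg a c s0 s1 ζ ≠ 1 := by
  intro h1
  have h2 := p.UV h
  rw [h1, sub_self, mul_zero] at h2
  exact inv_ne_zero (pow_ne_zero _ h.1) h2.symm

theorem Par.Z_ne (p : Par a c s0 s1) {ζ : ℂ} (h : ζ ∈ Om a c s0 s1) (hs : Complex.sin ζ ≠ 0) :
    Zg a c s0 s1 ζ ≠ 0 := by
  unfold Zg
  have h1 : (hh s0 s1 : ℂ) ≠ 0 := by exact_mod_cast p.hh_pos.ne'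
  exact div_ne_zero (mul_ne_zero (mul_ne_zero Complex.I_ne_zero (mul_ne_zero h1 hs)) (Eg_ne ζ))
    (pow_ne_zero _ h.1)

end basic

section analytic

variable {a c : ℕ} {s0 s1 : ℝ}

theorem hd_Sg (ζ : ℂ) : HasDerivAt (Sg s0 s1) (-((hh s0 s1 : ℂ) * Complex.sin ζ)) ζ := by
  have h := ((Complex.hasDerivAt_cos ζ).const_mul (hh s0 s1 : ℂ)).const_add
    ((((s0 + s1) / 2 : ℝ) : ℂ))
  refine h.congr_deriv ?_
  ring

theorem diff_Sg : Differentiable ℂ (Sg s0 s1) := fun ζ => (hd_Sg ζ).differentiableAt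

theorem diff_Wf : Differentiable ℂ fun ζ => Wf a c s0 s1 (Sg s0 s1 ζ) := by
  have h := diff_Sg (s0 := s0) (s1 := s1)
  unfold Wf w0 w1
  fun_prop

theorem isOpen_Om : IsOpen (Om a c s0 s1) := by
  have h1 : IsOpen {ζ | Sg s0 s1 ζ ≠ 0} :=
    isOpen_ne.preimage diff_Sg.continuous
  have h2 : IsOpen {ζ | Wf a c s0 s1 (Sg s0 s1 ζ) ∈ Complex.slitPlane} :=
    Complex.isOpen_slitPlane.preimage (diff_Wf (a := a) (c := c)).continuous
  exact h1.inter h2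

theorem diff_Eg : DifferentiableOn ℂ (Eg a c s0 s1) (Om a c s0 s1) := by
  intro ζ h
  unfold Eg
  have h1 : DifferentiableAt ℂ (fun ζ => Wf a c s0 s1 (Sg s0 s1 ζ)) ζ := diff_Wf ζ
  exact ((h1.clog h.2).div_const 2).cexp.differentiableWithinAt

theorem diff_Zg : DifferentiableOn ℂ (Zg a c s0 s1) (Om a c s0 s1) := by
  have h1 : DifferentiableOn ℂ (fun ζ => Complex.I * ((hh s0 s1 : ℂ) * Complex.sin ζ))
      (Om a c s0 s1) := by fun_prop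
  have h2 : DifferentiableOn ℂ (fun ζ => Sg s0 s1 ζ ^ (2 * a)) (Om a c s0 s1) :=
    (diff_Sg.differentiableOn).pow _
  exact (h1.mul diff_Eg).div h2 fun ζ h => pow_ne_zero _ h.1

theorem diff_Qg : DifferentiableOn ℂ (Qg a c s0 s1) (Om a c s0 s1) := by
  have h2 : DifferentiableOn ℂ (fun ζ => Sg s0 s1 ζ ^ (2 * a)) (Om a c s0 s1) :=
    (diff_Sg.differentiableOn).pow _
  have h3 : DifferentiableOn ℂ (fun ζ => Sg s0 s1 ζ ^ (2 * c)) (Om a c s0 s1) :=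
    (diff_Sg.differentiableOn).pow _
  exact ((differentiableOn_const 1).add h3).sub (h2.inv fun ζ h => pow_ne_zero _ h.1)

theorem diff_Xg : DifferentiableOn ℂ (Xg a c s0 s1) (Om a c s0 s1) :=
  (diff_Qg.add diff_Zg).div_const 2

theorem diff_Yg : DifferentiableOn ℂ (Yg a c s0 s1) (Om a c s0 s1) :=
  (diff_Qg.sub diff_Zg).div_const 2

theorem continuousOn_kk {f : ℂ → ℂ} {s : Set ℂ} (hf : ContinuousOn f s) (h : ∀ z ∈ s, f z ≠ 1) :
    ContinuousOn (fun z => kk (f z)) s := by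
  unfold kk
  exact hf.neg.div (continuousOn_const.sub hf) fun z hz => sub_ne_zero.2 (Ne.symm (h z hz))

theorem Par.cont_Px (p : Par a c s0 s1) : ContinuousOn (Px a c s0 s1) (Om a c s0 s1) := by
  unfold Px
  have hk := continuousOn_kk (diff_Yg (a := a) (c := c) (s0 := s0) (s1 := s1)).continuousOn
    fun z hz => p.Y_ne_one hz
  exact (continuousOn_const.mul (continuousOn_const.add (continuousOn_const.mul hk))).div
    ((diff_Sg.continuous.continuousOn).mul diff_Eg.continuousOn) fun z hz =>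
      mul_ne_zero hz.1 (Eg_ne z)

theorem Par.cont_Py (p : Par a c s0 s1) : ContinuousOn (Py a c s0 s1) (Om a c s0 s1) := by
  unfold Py
  have hk := continuousOn_kk (diff_Xg (a := a) (c := c) (s0 := s0) (s1 := s1)).continuousOn
    fun z hz => p.X_ne_one hz
  exact ((continuousOn_const.mul (continuousOn_const.add (continuousOn_const.mul hk))).div
    ((diff_Sg.continuous.continuousOn).mul diff_Eg.continuousOn) fun z hz =>
      mul_ne_zero hz.1 (Eg_ne z)).neg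

/-- the linear equations for the derivatives -/
theorem Par.deriv_eqs (p : Par a c s0 s1) {ζ : ℂ} (h : ζ ∈ Om a c s0 s1) {X' Y' : ℂ}
    (hX : HasDerivAt (Xg a c s0 s1) X' ζ) (hY : HasDerivAt (Yg a c s0 s1) Y' ζ) :
    Sg s0 s1 ζ * (X' * Yg a c s0 s1 ζ + Xg a c s0 s1 ζ * Y') =
      -(2 * c * (Xg a c s0 s1 ζ * Yg a c s0 s1 ζ) * ((hh s0 s1 : ℂ) * Complex.sin ζ)) ∧
    Sg s0 s1 ζ * (X' * (1 - Yg a c s0 s1 ζ) + (1 - Xg a c s0 s1 ζ) * Y') =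
      -(2 * a * ((1 - Xg a c s0 s1 ζ) * (1 - Yg a c s0 s1 ζ)) *
        ((hh s0 s1 : ℂ) * Complex.sin ζ)) := by
  have hev : ∀ᶠ z in 𝓝 ζ, z ∈ Om a c s0 s1 := isOpen_Om.mem_nhds h
  have hS := h.1
  have ha := p.ha
  have hc := p.hc
  constructor
  · have h1 := hX.mul hY
    have h2 := (hd_Sg (s0 := s0) (s1 := s1) ζ).pow (2 * c)
    have h3 : HasDerivAt (Xg a c s0 s1 * Yg a c s0 s1) _ ζ :=
      h2.congr_of_eventuallyEq (hev.mono fun z hz => p.XY hz)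
    have h4 := h1.unique h3
    rw [h4, p.XY h]
    obtain ⟨m, rfl⟩ : ∃ m, c = m + 1 := ⟨c - 1, by omega⟩
    have e1 : 2 * (m + 1) - 1 = 2 * m + 1 := by omega
    have e2 : 2 * (m + 1) = 2 * m + 1 + 1 := by omega
    rw [e1, e2, pow_succ _ (2 * m + 1)]
    push_cast
    ring
  · have h1 := (hX.const_sub 1).mul (hY.const_sub 1)
    have h2 := ((hd_Sg (s0 := s0) (s1 := s1) ζ).pow (2 * a)).inv (pow_ne_zero _ hS)
    have h3 : HasDerivAt ((fun z => 1 - Xg a c s0 s1 z) * fun z => 1 - Yg a c s0 s1 z) _ ζ :=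
      h2.congr_of_eventuallyEq (hev.mono fun z hz => p.UV hz)
    have h4 := h1.unique h3
    have h5 := p.UV h
    rw [h5]
    obtain ⟨m, rfl⟩ : ∃ m, a = m + 1 := ⟨a - 1, by omega⟩
    have e1 : 2 * (m + 1) - 1 = 2 * m + 1 := by omega
    simp only [Pi.pow_apply] at h4
    rw [e1] at h4
    have h6 : Sg s0 s1 ζ ^ (2 * (m + 1)) = Sg s0 s1 ζ ^ (2 * m + 1) * Sg s0 s1 ζ := by
      rw [← pow_succ]
      congr 1
    rw [h6] at h4 ⊢
    have h7 : Sg s0 s1 ζ ^ (2 * m + 1) ≠ 0 := pow_ne_zero _ hS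
    have h8 : X' * (1 - Yg (m + 1) c s0 s1 ζ) + (1 - Xg (m + 1) c s0 s1 ζ) * Y' =
        -(-X' * (1 - Yg (m + 1) c s0 s1 ζ) + (1 - Xg (m + 1) c s0 s1 ζ) * -Y') := by ring
    rw [h8, h4]
    push_cast
    field_simp

theorem Par.hd_X_of_sin (p : Par a c s0 s1) {ζ : ℂ} (h : ζ ∈ Om a c s0 s1)
    (hs : Complex.sin ζ ≠ 0) :
    deriv (Xg a c s0 s1) ζ = Px a c s0 s1 ζ * Xg a c s0 s1 ζ ∧
      deriv (Yg a c s0 s1) ζ = Py a c s0 s1 ζ * Yg a c s0 s1 ζ := by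
  have hX := (diff_Xg.differentiableAt (isOpen_Om.mem_nhds h)).hasDerivAt
  have hY := (diff_Yg.differentiableAt (isOpen_Om.mem_nhds h)).hasDerivAt
  obtain ⟨q1, q2⟩ := p.deriv_eqs h hX hY
  have hZ := X_sub_Y (a := a) (c := c) (s0 := s0) (s1 := s1) ζ
  have hUV := p.UV h
  have hS := h.1
  have hE := Eg_ne (a := a) (c := c) (s0 := s0) (s1 := s1) ζ
  have hh0 : (hh s0 s1 : ℂ) ≠ 0 := by exact_mod_cast p.hh_pos.ne'
  have hX1 := sub_ne_zero.2 (Ne.symm (p.X_ne_one h))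
  have hY1 := sub_ne_zero.2 (Ne.symm (p.Y_ne_one h))
  set X := Xg a c s0 s1 ζ with hXd
  set Y := Yg a c s0 s1 ζ with hYd
  set S := Sg s0 s1 ζ with hSd
  set E := Eg a c s0 s1 ζ with hEd
  set X' := deriv (Xg a c s0 s1) ζ with hX'
  set Y' := deriv (Yg a c s0 s1) ζ with hY'
  set k := (hh s0 s1 : ℂ) * Complex.sin ζ with hk
  have hk0 : k ≠ 0 := mul_ne_zero hh0 hs
  -- `X - Y = I k E (1 - X) (1 - Y)`
  have hZ2 : X - Y = Complex.I * k * E * ((1 - X) * (1 - Y)) := by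
    rw [hZ, hUV]
    unfold Zg
    rw [← hk, ← hEd, ← hSd]
    rw [div_eq_mul_inv]
  have hI := Complex.I_sq
  have hIk : Complex.I * k ≠ 0 := mul_ne_zero Complex.I_ne_zero hk0
  constructor
  · unfold Px
    rw [← hYd, ← hSd, ← hEd]
    unfold kk
    rw [eq_comm, div_mul_eq_mul_div, div_eq_iff (mul_ne_zero hS hE)]
    have q3 : S * X' * (Y - X) = -(2 * k * (c * (X * Y) * (1 - X) - a * ((1 - X) * (1 - Y)) * X)) := by
      linear_combination (1 - X) * q1 - X * q2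
    have q4 : S * X' * (-(Complex.I * k * E * ((1 - X) * (1 - Y)))) =
        -(2 * k * (c * (X * Y) * (1 - X) - a * ((1 - X) * (1 - Y)) * X)) := by
      rw [← q3, ← hZ2]
      ring
    have q5 : S * X' * (Complex.I * E * (1 - Y)) = 2 * (c * (X * Y) - a * (1 - Y) * X) := by
      have h1 : k * (1 - X) ≠ 0 := mul_ne_zero hk0 hX1
      apply mul_left_cancel₀ h1
      linear_combination -q4
    have q6 : X' * (S * E) * (1 - Y) = -(2 * Complex.I * (c * (X * Y) - a * (1 - Y) * X)) := by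
      linear_combination (-Complex.I) * q5 + (S * X' * E * (1 - Y)) * hI
    field_simp
    linear_combination -q6
  · unfold Py
    rw [← hXd, ← hSd, ← hEd]
    unfold kk
    rw [eq_comm, neg_mul, div_mul_eq_mul_div, ← neg_div, div_eq_iff (mul_ne_zero hS hE)]
    have q3 : S * Y' * (X - Y) = -(2 * k * (c * (X * Y) * (1 - Y) - a * ((1 - X) * (1 - Y)) * Y)) := by
      linear_combination (1 - Y) * q1 - Y * q2
    have q4 : S * Y' * (Complex.I * k * E * ((1 - X) * (1 - Y))) =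
        -(2 * k * (c * (X * Y) * (1 - Y) - a * ((1 - X) * (1 - Y)) * Y)) := by
      rw [← q3, ← hZ2]
    have q5 : S * Y' * (Complex.I * E * (1 - X)) = -(2 * (c * (X * Y) - a * (1 - X) * Y)) := by
      have h1 : k * (1 - Y) ≠ 0 := mul_ne_zero hk0 hY1
      apply mul_left_cancel₀ h1
      linear_combination q4
    have q6 : Y' * (S * E) * (1 - X) = 2 * Complex.I * (c * (X * Y) - a * (1 - X) * Y) := by
      linear_combination (-Complex.I) * q5 + (S * Y' * E * (1 - X)) * hI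
    field_simp
    linear_combination -q6

theorem sin_ne_near {ζ : ℂ} (h : Complex.sin ζ = 0) : ∀ᶠ z in 𝓝[≠] ζ, Complex.sin z ≠ 0 := by
  have h1 : Complex.cos ζ ≠ 0 := by
    intro h2
    have := Complex.sin_sq_add_cos_sq ζ
    rw [h, h2] at this
    norm_num at this
  exact (Complex.hasDerivAt_sin ζ).eventually_ne h1

theorem eq_of_punctured {f g : ℂ → ℂ} {ζ : ℂ} (hf : ContinuousAt f ζ) (hg : ContinuousAt g ζ)
    (h : ∀ᶠ z in 𝓝[≠] ζ, f z = g z) : f ζ = g ζ := by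
  have h1 : Tendsto f (𝓝[≠] ζ) (𝓝 (f ζ)) := hf.tendsto.mono_left nhdsWithin_le_nhds
  have h2 : Tendsto g (𝓝[≠] ζ) (𝓝 (g ζ)) := hg.tendsto.mono_left nhdsWithin_le_nhds
  exact tendsto_nhds_unique (h1.congr' h) h2

theorem Par.hd_X (p : Par a c s0 s1) {ζ : ℂ} (h : ζ ∈ Om a c s0 s1) :
    HasDerivAt (Xg a c s0 s1) (Px a c s0 s1 ζ * Xg a c s0 s1 ζ) ζ := by
  have hX := (diff_Xg.differentiableAt (isOpen_Om.mem_nhds h)).hasDerivAt
  refine hX.congr_deriv ?_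
  by_cases hs : Complex.sin ζ = 0
  · have hev : ∀ᶠ z in 𝓝 ζ, z ∈ Om a c s0 s1 := isOpen_Om.mem_nhds h
    have c1 : ContinuousAt (deriv (Xg a c s0 s1)) ζ :=
      ((diff_Xg.deriv isOpen_Om).continuousOn).continuousAt (isOpen_Om.mem_nhds h)
    have c2 : ContinuousAt (fun z => Px a c s0 s1 z * Xg a c s0 s1 z) ζ :=
      (p.cont_Px.mul diff_Xg.continuousOn).continuousAt (isOpen_Om.mem_nhds h)
    refine eq_of_punctured c1 c2 ?_
    filter_upwards [sin_ne_near hs, hev.filter_mono nhdsWithin_le_nhds] with z hz1 hz2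
    exact (p.hd_X_of_sin hz2 hz1).1
  · exact (p.hd_X_of_sin h hs).1

theorem Par.hd_Y (p : Par a c s0 s1) {ζ : ℂ} (h : ζ ∈ Om a c s0 s1) :
    HasDerivAt (Yg a c s0 s1) (Py a c s0 s1 ζ * Yg a c s0 s1 ζ) ζ := by
  have hY := (diff_Yg.differentiableAt (isOpen_Om.mem_nhds h)).hasDerivAt
  refine hY.congr_deriv ?_
  by_cases hs : Complex.sin ζ = 0
  · have hev : ∀ᶠ z in 𝓝 ζ, z ∈ Om a c s0 s1 := isOpen_Om.mem_nhds h
    have c1 : ContinuousAt (deriv (Yg a c s0 s1)) ζ :=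
      ((diff_Yg.deriv isOpen_Om).continuousOn).continuousAt (isOpen_Om.mem_nhds h)
    have c2 : ContinuousAt (fun z => Py a c s0 s1 z * Yg a c s0 s1 z) ζ :=
      (p.cont_Py.mul diff_Yg.continuousOn).continuousAt (isOpen_Om.mem_nhds h)
    refine eq_of_punctured c1 c2 ?_
    filter_upwards [sin_ne_near hs, hev.filter_mono nhdsWithin_le_nhds] with z hz1 hz2
    exact (p.hd_X_of_sin hz2 hz1).2
  · exact (p.hd_X_of_sin h hs).2

end analytic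

end Pool.Agent.P8H1.SF
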