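import Pool.Agent.N65.TK.Defs
set_option autoImplicit false

/-!
The second cohomology of the weight four polylogarithmic complex
`B_4 → B_3 ⊗ A^* → B_2 ⊗ Λ^2 A^* → Λ^4 A^*` (Goncharov), its residues, the regulator with the
single-valued trilogarithm and the Bloch-Wigner function along closed paths of complex points, and
the curves `(x y)^a ((1 - x) (1 - y))^c = 1`.
-/

namespace Pool.Agent.P8H1.SF

open scoped TensorProduct WithZero
open Pool.Agent.N65.TK (Pt UQ tu D Five Kap red Path)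

section functions

/-- The single-valued trilogarithm
`∑_(n ≥ 1) (1 / n^3 - log |z| / n^2 + log^2 |z| / (3 n)) Re z^n` in the closed unit disk. -/
noncomputable def T0 (z : ℂ) : ℝ :=
  ∑' n : ℕ, (1 / ((n : ℝ) + 1) ^ 3 - Real.log ‖z‖ / ((n : ℝ) + 1) ^ 2 +
    Real.log ‖z‖ ^ 2 / (3 * ((n : ℝ) + 1))) * (z ^ (n + 1)).re

/-- The single-valued trilogarithm `T(z) = Re (Li_3(z) - log |z| Li_2(z) - 1/3 log^2 |z| log (1 - z))`;
`T(z) = T(1 / z)`. -/
noncomputable def T (z : ℂ) : ℝ := if ‖z‖ ≤ 1 then T0 z else T0 z⁻¹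

end functions

section complex

variable (A : Type*) [CommRing A]

/-- The five term relations, and the relations `{f} + {1 / f}` and `{f} + {1 - f}`. -/
noncomputable def B2Rel : Submodule ℚ (Pt A →₀ ℚ) := Submodule.span ℚ
  ({s | ∃ x y a b c : Pt A, Five x y a b c ∧
      s = Finsupp.single x 1 - Finsupp.single y 1 + Finsupp.single a 1 - Finsupp.single b 1 +
        Finsupp.single c 1} ∪
   {s | ∃ f g : Pt A, (f.1 : A) * g.1 = 1 ∧ s = Finsupp.single f 1 + Finsupp.single g 1} ∪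
   {s | ∃ f g : Pt A, (f.1 : A) + g.1 = 1 ∧ s = Finsupp.single f 1 + Finsupp.single g 1})

/-- The group `B_2(A) ⊗ ℚ`. -/
def B2 : Type _ := (Pt A →₀ ℚ) ⧸ B2Rel A

noncomputable instance : AddCommGroup (B2 A) := Submodule.Quotient.addCommGroup (B2Rel A)

noncomputable instance : Module ℚ (B2 A) := Submodule.Quotient.module (B2Rel A)

/-- `Λ^2 (A^* ⊗ ℚ)` -/
def L2 : Type _ := ⋀[ℚ]^2 (UQ A)

noncomputable instance : AddCommGroup (L2 A) := Submodule.addCommGroup (⋀[ℚ]^2 (UQ A))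

noncomputable instance : Module ℚ (L2 A) := Submodule.module (⋀[ℚ]^2 (UQ A))

variable {A}

/-- The element `{f}_2` of `B_2(A) ⊗ ℚ`. -/
noncomputable def cl (f : Pt A) : B2 A :=
  Submodule.Quotient.mk (p := B2Rel A) (Finsupp.single f 1)

variable (A)

/-- The map `(u, v) ↦ u ∧ v`. -/
noncomputable def al : (UQ A) [⋀^Fin 2]→ₗ[ℚ] (L2 A) := exteriorPower.ιMulti ℚ 2

/-- The formal sums `∑ r {f}_3 ⊗ g`, `r ∈ ℚ`. -/
abbrev FS : Type _ := (Pt A × Aˣ) →₀ ℚ

variable {A}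

/-- The formal sum `{f}_3 ⊗ g`. -/
noncomputable def br (f : Pt A) (g : Aˣ) : FS A := Finsupp.single (f, g) 1

/-- The image under a homomorphism. -/
noncomputable def FS.map {B : Type*} [CommRing B] (φ : A →+* B) : FS A →ₗ[ℚ] FS B :=
  Finsupp.lmapDomain ℚ ℚ fun p => (p.1.map φ, Units.map (φ : A →* B) p.2)

variable (A)

/-- The differential `{f}_3 ⊗ g ↦ {f}_2 ⊗ (f ∧ g)`, with values in `B_2(A) ⊗ Λ^2 A^* ⊗ ℚ`. -/
noncomputable def dif : FS A →ₗ[ℚ] B2 A ⊗[ℚ] L2 A :=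
  Finsupp.linearCombination ℚ fun p => cl p.1 ⊗ₜ[ℚ] al A ![tu p.1.1, tu p.2]

/-- The differential `{f}_3 ↦ {f}_2 ⊗ f`, with values in `B_2(A) ⊗ A^* ⊗ ℚ`. -/
noncomputable def dif3 : (Pt A →₀ ℚ) →ₗ[ℚ] B2 A ⊗[ℚ] UQ A :=
  Finsupp.linearCombination ℚ fun f => cl f ⊗ₜ[ℚ] tu f.1

/-- The functional equations of the trilogarithm: the formal sums `∑ r {f}_3` in the kernel of
`{f}_3 ↦ {f}_2 ⊗ f` for which `∑ r T(f) = 0` at all complex points (Zagier). The group
`B_3(A) ⊗ ℚ` is the quotient of the formal sums `∑ r {f}_3` by these. -/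
def B3Rel : Set (Pt A →₀ ℚ) :=
  {s | dif3 A s = 0 ∧ ∀ e : A →+* ℂ, (s.sum fun f r => (r : ℝ) * T (e f.1)) = 0}

/-- The relations: bilinearity in the second entry, the functional equations of the trilogarithm in
the first entry, and the elements `{f}_3 ⊗ f`, the image of `{f}_4`. The second cohomology of the
complex `B_4(A) → B_3(A) ⊗ A^* → B_2(A) ⊗ Λ^2 A^* → Λ^4 A^*`, tensored with `ℚ`, is the kernel of
`dif` modulo the relations. -/
noncomputable def Rels : Submodule ℚ (FS A) := Submodule.span ℚ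
  ({s | ∃ (f : Pt A) (g h : Aˣ), s = br f (g * h) - br f g - br f h} ∪
   {s | ∃ t ∈ B3Rel A, ∃ g : Aˣ, s = t.sum fun f r => r • br f g} ∪
   {s | ∃ f : Pt A, s = br f f.1})

end complex

section residue

variable {L : Type*} [Field L] (v : Valuation L ℤᵐ⁰)

open Classical in
/-- The class of the reduction of `f` in the free `ℚ`-vector space on the elements of the residue
field `κ(v)`; it is `0` if `f` is not a unit at `v`. -/
noncomputable def redF (f : Lˣ) : Kap v →₀ ℚ :=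
  if h : v (f : L) = 1 then Finsupp.single (red v ⟨f, h.le⟩) 1 else 0

/-- The residue `{f}_3 ⊗ g ↦ log v(g) {f}_3` at the discrete valuation `v`, `{f}_3 = 0` if `f` is
not a unit at `v`, with values in the free `ℚ`-vector space on the elements of `κ(v)` (of which
`B_3(κ(v)) ⊗ ℚ` is a quotient). -/
noncomputable def bnd : FS L →ₗ[ℚ] (Kap v →₀ ℚ) :=
  Finsupp.linearCombination ℚ fun p =>
    ((WithZero.log (v (p.2 : L)) : ℤ) : ℚ) • redF v p.1.1

end residue

section regulator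

/-- The value of `T(f) d arg g - (1/3) D(f) log |g| d log |f|` for `f = z`, `df = z'`, `g = w`,
`dg = w'`. -/
noncomputable def frm (z z' w w' : ℂ) : ℝ :=
  T z * (w' / w).im - 1 / 3 * D z * Real.log ‖w‖ * (z' / z).re

/-- The regulator: the integral of the form over the closed path. -/
noncomputable def reg {A : Type*} [CommRing A] (γ : Path A) : FS A →ₗ[ℚ] ℝ :=
  Finsupp.linearCombination ℚ fun p => ∫ t in (0 : ℝ)..1,
    frm (γ.e t p.1.1) (deriv (fun s => γ.e s p.1.1) t) (γ.e t p.2)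
      (deriv (fun s => γ.e s p.2) t)

end regulator

section element

variable {A : Type*} [CommRing A]

/-- The element `f` of `Pt A` given by units with `f + g = 1`. -/
def ptOf (f g : Aˣ) (h : (f : A) + g = 1) : Pt A := ⟨f, g, by linear_combination h⟩

/-- Units `x`, `y`, `X = 1 - x`, `Y = 1 - y`, `d = x - y` of a ring. -/
structure Cfg (A : Type*) [CommRing A] where
  /-- `x` -/
  x : Aˣ
  /-- `y` -/
  y : Aˣ
  /-- `1 - x` -/
  X : Aˣ
  /-- `1 - y` -/
  Y : Aˣ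
  /-- `x - y` -/
  d : Aˣ
  hX : (X : A) = 1 - x
  hY : (Y : A) = 1 - y
  hd : (d : A) = x - y

variable (C : Cfg A)

/-- `x` -/
def Cfg.p1 : Pt A := ptOf C.x C.X (by rw [C.hX]; ring)

/-- `1 - x` -/
def Cfg.p2 : Pt A := ptOf C.X C.x (by rw [C.hX]; ring)

/-- `y` -/
def Cfg.p3 : Pt A := ptOf C.y C.Y (by rw [C.hY]; ring)

/-- `1 - y` -/
def Cfg.p4 : Pt A := ptOf C.Y C.y (by rw [C.hY]; ring)

/-- `1 - 1 / x` -/
def Cfg.p5 : Pt A := ptOf (-(C.X * C.x⁻¹)) C.x⁻¹ (by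
  have h := C.x.mul_inv
  rw [Units.val_neg, Units.val_mul, C.hX]
  linear_combination h)

/-- `y / x` -/
def Cfg.q1 : Pt A := ptOf (C.y * C.x⁻¹) (C.d * C.x⁻¹) (by
  have h := C.x.mul_inv
  rw [Units.val_mul, Units.val_mul, C.hd]
  linear_combination h)

/-- `(1 - x) / (1 - y)` -/
def Cfg.q2 : Pt A := ptOf (C.X * C.Y⁻¹) (C.d * C.Y⁻¹) (by
  have h := C.Y.mul_inv
  have h' := C.hY
  rw [Units.val_mul, Units.val_mul, C.hd, C.hX]
  linear_combination h - (C.Y⁻¹ : Aˣ) * h')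

/-- `(1 - 1 / x) / (1 - 1 / y)` -/
def Cfg.q3 : Pt A := ptOf (C.X * C.y * (C.x * C.Y)⁻¹) (C.d * (C.x * C.Y)⁻¹) (by
  have h := (C.x * C.Y).mul_inv
  rw [Units.val_mul] at h
  rw [Units.val_mul, Units.val_mul, Units.val_mul, C.hd, C.hX]
  rw [C.hY] at h
  linear_combination h)

/-- `{x}_3 ⊗ (1 - y) + {1 - x}_3 ⊗ y - {y}_3 ⊗ (1 - x) - {1 - y}_3 ⊗ x
  + (1/c {y / x}_3 + 1/a {(1 - x) / (1 - y)}_3 + 1/(a + c) ({x}_3 + {1 - x}_3 + {1 - 1 / x}_3
  - {(1 - 1 / x) / (1 - 1 / y)}_3)) ⊗ x^a (1 - x)^c` -/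
noncomputable def Cfg.xi (a c : ℕ) : FS A :=
  br C.p1 C.Y + br C.p2 C.y - br C.p3 C.X - br C.p4 C.x +
    (1 / c : ℚ) • br C.q1 (C.x ^ a * C.X ^ c) + (1 / a : ℚ) • br C.q2 (C.x ^ a * C.X ^ c) +
    (1 / (a + c) : ℚ) • (br C.p1 (C.x ^ a * C.X ^ c) + br C.p2 (C.x ^ a * C.X ^ c) +
      br C.p5 (C.x ^ a * C.X ^ c) - br C.q3 (C.x ^ a * C.X ^ c))

end element

section curves

variable (R : Type*) [CommRing R] (a c : ℕ)

/-- The equations `(x y)^a ((1 - x) (1 - y))^c = 1` and `(x - y) z = 1`. -/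
noncomputable def idl : Ideal (MvPolynomial (Fin 3) R) := Ideal.span
  {(MvPolynomial.X 0 * MvPolynomial.X 1) ^ a *
      ((1 - MvPolynomial.X 0) * (1 - MvPolynomial.X 1)) ^ c - 1,
    (MvPolynomial.X 0 - MvPolynomial.X 1) * MvPolynomial.X 2 - 1}

/-- The coordinate ring of the open part `x ≠ y` of the curve `(x y)^a ((1 - x) (1 - y))^c = 1`
over `R`. -/
def Crv : Type _ := MvPolynomial (Fin 3) R ⧸ idl R a c

noncomputable instance : CommRing (Crv R a c) := Ideal.Quotient.commRing (idl R a c)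

/-- The restriction of functions to the curve. -/
noncomputable def proj : MvPolynomial (Fin 3) R →+* Crv R a c := Ideal.Quotient.mk (idl R a c)

/-- The constants. -/
noncomputable def cst : R →+* Crv R a c := (proj R a c).comp MvPolynomial.C

/-- The functions `x`, `y` and `1 / (x - y)` on the curve. -/
noncomputable def crd (i : Fin 3) : Crv R a c := proj R a c (MvPolynomial.X i)

theorem crd_eq : (crd R a c 0 * crd R a c 1) ^ a * ((1 - crd R a c 0) * (1 - crd R a c 1)) ^ c = 1 := by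
  have h : proj R a c ((MvPolynomial.X 0 * MvPolynomial.X 1) ^ a *
      ((1 - MvPolynomial.X 0) * (1 - MvPolynomial.X 1)) ^ c - 1) = 0 :=
    Ideal.Quotient.eq_zero_iff_mem.2 (Ideal.subset_span (Or.inl rfl))
  rw [map_sub, map_mul, map_pow, map_pow, map_mul, map_mul, map_sub, map_sub, map_one,
    sub_eq_zero] at h
  exact h

theorem crd_sub : (crd R a c 0 - crd R a c 1) * crd R a c 2 = 1 := by
  have h : proj R a c ((MvPolynomial.X 0 - MvPolynomial.X 1) * MvPolynomial.X 2 - 1) = 0 :=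
    Ideal.Quotient.eq_zero_iff_mem.2 (Ideal.subset_span (Or.inr rfl))
  rw [map_sub, map_mul, map_sub, map_one, sub_eq_zero] at h
  exact h

variable {a c}

theorem isUnits (ha : 1 ≤ a) (hc : 1 ≤ c) :
    IsUnit (crd R a c 0) ∧ IsUnit (crd R a c 1) ∧ IsUnit (1 - crd R a c 0) ∧
      IsUnit (1 - crd R a c 1) := by
  have h := IsUnit.of_mul_eq_one _ (crd_eq R a c)
  have h' := IsUnit.of_mul_eq_one _ ((mul_comm _ _).trans (crd_eq R a c))
  rw [isUnit_pow_iff (by omega)] at h h'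
  exact ⟨isUnit_of_mul_isUnit_left h, isUnit_of_mul_isUnit_right h,
    isUnit_of_mul_isUnit_left h', isUnit_of_mul_isUnit_right h'⟩

/-- The units `x`, `y`, `1 - x`, `1 - y` and `x - y` on the curve. -/
noncomputable def cfg (ha : 1 ≤ a) (hc : 1 ≤ c) : Cfg (Crv R a c) where
  x := (isUnits R ha hc).1.unit
  y := (isUnits R ha hc).2.1.unit
  X := (isUnits R ha hc).2.2.1.unit
  Y := (isUnits R ha hc).2.2.2.unit
  d := ⟨crd R a c 0 - crd R a c 1, crd R a c 2, crd_sub R a c, by rw [mul_comm, crd_sub]⟩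
  hX := rfl
  hY := rfl
  hd := rfl

/-- The element
`{x}_3 ⊗ (1 - y) + {1 - x}_3 ⊗ y - {y}_3 ⊗ (1 - x) - {1 - y}_3 ⊗ x
  + (1/c {y / x}_3 + 1/a {(1 - x) / (1 - y)}_3 + 1/(a + c) ({x}_3 + {1 - x}_3 + {1 - 1 / x}_3
  - {(1 - 1 / x) / (1 - 1 / y)}_3)) ⊗ x^a (1 - x)^c`
on the curve. -/
noncomputable def xi (ha : 1 ≤ a) (hc : 1 ≤ c) : FS (Crv R a c) := (cfg R ha hc).xi a c

end curves

end Pool.Agent.P8H1.SF
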