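import Pool.Agent.P8H1.SF.Defs
import Pool.Agent.N65.TK.Res
set_option autoImplicit false

/-!
The residues of `xi` vanish.
-/

namespace Pool.Agent.P8H1.SF

open scoped WithZero
open Pool.Agent.N65.TK (Pt Kap red)

section val

variable {L : Type*} [Field L] (v : Valuation L ℤᵐ⁰)

/-- the logarithm of the absolute value -/
noncomputable def lg (g : Lˣ) : ℤ := WithZero.log (v (g : L))

theorem v_ne (g : Lˣ) : v (g : L) ≠ 0 := (Valuation.ne_zero_iff v).2 g.ne_zero

theorem v_eq (g : Lˣ) : v (g : L) = WithZero.exp (lg v g) := (WithZero.exp_log (v_ne v g)).symm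

theorem lg_mul (g h : Lˣ) : lg v (g * h) = lg v g + lg v h := by
  unfold lg
  rw [Units.val_mul, map_mul, WithZero.log_mul (v_ne v g) (v_ne v h)]

theorem lg_one : lg v 1 = 0 := by
  have h := lg_mul v 1 1
  rw [mul_one] at h
  omega

theorem lg_inv (g : Lˣ) : lg v g⁻¹ = -lg v g := by
  have h := lg_mul v g g⁻¹
  rw [mul_inv_cancel, lg_one] at h
  omega

theorem lg_pow (g : Lˣ) (n : ℕ) : lg v (g ^ n) = n * lg v g := by
  induction n with
  | zero => rw [pow_zero, lg_one]; simp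
  | succ n ih => rw [pow_succ, lg_mul, ih]; push_cast; ring

theorem lg_neg (g : Lˣ) : lg v (-g) = lg v g := by
  unfold lg
  rw [Units.val_neg, Valuation.map_neg]

theorem lg_eq_zero {g : Lˣ} : lg v g = 0 ↔ v (g : L) = 1 := by
  rw [v_eq, ← WithZero.exp_zero, WithZero.exp_inj]

theorem lg_neg_iff {g : Lˣ} : lg v g < 0 ↔ v (g : L) < 1 := by
  rw [v_eq, ← WithZero.exp_zero, WithZero.exp_lt_exp]

theorem lg_pos_iff {g : Lˣ} : 0 < lg v g ↔ 1 < v (g : L) := by
  rw [v_eq, ← WithZero.exp_zero, WithZero.exp_lt_exp]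

theorem redF_ne {f : Lˣ} (h : lg v f ≠ 0) : redF v f = 0 := by
  unfold redF
  rw [dif_neg]
  intro h1
  exact h ((lg_eq_zero v).2 h1)

theorem redF_one {f g : Lˣ} (h : (f : L) + g = 1) (hg : lg v g < 0) :
    redF v f = Finsupp.single 1 1 := by
  have hg' := (lg_neg_iff v).1 hg
  have hf : (f : L) = 1 - g := by linear_combination h
  have hv : v (f : L) = 1 := by
    rw [hf]
    exact Valuation.map_one_sub_of_lt _ hg'
  unfold redF
  rw [dif_pos hv]
  congr 1
  have h1 : (⟨(f : L), hv.le⟩ : v.valuationSubring) = 1 - ⟨(g : L), hg'.le⟩ := by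
    apply Subtype.ext
    exact hf
  rw [h1]
  unfold red
  rw [map_sub, map_one]
  have h2 : IsLocalRing.residue v.valuationSubring ⟨(g : L), hg'.le⟩ = 0 := by
    rw [IsLocalRing.residue_eq_zero_iff, IsLocalRing.mem_maximalIdeal, mem_nonunits_iff]
    intro hu
    obtain ⟨w, hw⟩ := hu
    have h3 : v ((w : v.valuationSubring) : L) ≤ 1 :=
      (v.mem_valuationSubring_iff _).1 (w : v.valuationSubring).2
    have h4 : v (((w⁻¹ : (v.valuationSubring)ˣ) : v.valuationSubring) : L) ≤ 1 :=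
      (v.mem_valuationSubring_iff _).1 ((w⁻¹ : (v.valuationSubring)ˣ) : v.valuationSubring).2
    have h5 : v ((w : v.valuationSubring) : L) *
        v (((w⁻¹ : (v.valuationSubring)ˣ) : v.valuationSubring) : L) = 1 := by
      rw [← map_mul, ← v.map_one]
      congr 1
      have := congrArg (Subtype.val) (w.mul_inv)
      exact this
    rw [hw] at h5 h3
    have h6 : v (g : L) * v (((w⁻¹ : (v.valuationSubring)ˣ) : v.valuationSubring) : L) < 1 :=
      mul_lt_one_of_nonneg_of_lt_one_left zero_le' hg' h4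
    exact absurd h5 h6.ne
  rw [h2, sub_zero]
  rfl

/-- the ultrametric inequality for `f + g = 1` -/
theorem lg_cases {f g : Lˣ} (h : (f : L) + g = 1) :
    (lg v f < 0 ∧ lg v g = 0) ∨ (lg v f = 0 ∧ lg v g < 0) ∨ (lg v f = 0 ∧ lg v g = 0) ∨
      (0 < lg v f ∧ lg v g = lg v f) := by
  have hf : (f : L) = 1 - g := by linear_combination h
  have hg : (g : L) = 1 - f := by linear_combination h
  rcases lt_trichotomy (lg v f) 0 with h1 | h1 | h1
  · left
    refine ⟨h1, ?_⟩
    rw [lg_eq_zero, hg]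
    exact Valuation.map_one_sub_of_lt _ ((lg_neg_iff v).1 h1)
  · right
    rcases lt_trichotomy (lg v g) 0 with h2 | h2 | h2
    · exact Or.inl ⟨h1, h2⟩
    · exact Or.inr (Or.inl ⟨h1, h2⟩)
    · exfalso
      have h3 : v (f : L) = v (g : L) := by
        rw [hf]
        exact Valuation.map_sub_eq_of_lt_right _ (by rw [map_one]; exact (lg_pos_iff v).1 h2)
      have h4 : lg v f = lg v g := by
        unfold lg
        rw [h3]
      omega
  · right; right; right
    refine ⟨h1, ?_⟩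
    have h3 : v (g : L) = v (f : L) := by
      rw [hg]
      exact Valuation.map_sub_eq_of_lt_right _ (by rw [map_one]; exact (lg_pos_iff v).1 h1)
    unfold lg
    rw [h3]

end val

section curve

theorem bnd_br {A L : Type*} [CommRing A] [Field L] (φ : A →+* L) (v : Valuation L ℤᵐ⁰)
    (f : Pt A) (g : Aˣ) : bnd v (FS.map φ (br f g)) =
      (lg v (Units.map (φ : A →* L) g) : ℚ) • redF v (Units.map (φ : A →* L) f.1) := by
  unfold br FS.map bnd
  rw [Finsupp.lmapDomain_apply, Finsupp.mapDomain_single, Finsupp.linearCombination_single, one_smul]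
  rfl

theorem Cfg.bnd_xi {A L : Type*} [CommRing A] [Field L] (C : Cfg A) {a c : ℕ} (ha : 1 ≤ a)
    (hc : 1 ≤ c) (h : C.x ^ a * C.X ^ c * (C.y ^ a * C.Y ^ c) = 1) (φ : A →+* L)
    (v : Valuation L ℤᵐ⁰) : bnd v (FS.map φ (C.xi a c)) = 0 := by
  have ha0 : (0 : ℤ) < a := by exact_mod_cast ha
  have hc0 : (0 : ℤ) < c := by exact_mod_cast hc
  have ha1 : (a : ℚ) ≠ 0 := by
    have : a ≠ 0 := by omega
    exact_mod_cast this
  have hc1 : (c : ℚ) ≠ 0 := by
    have : c ≠ 0 := by omega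
    exact_mod_cast this
  have hac : (a : ℚ) + c ≠ 0 := by positivity
  unfold Cfg.xi
  simp only [map_add, map_sub, map_smul, bnd_br]
  set ψ : Aˣ →* Lˣ := Units.map (φ : A →* L) with hψ
  have e1 : ψ C.p1.1 = ψ C.x := rfl
  have e2 : ψ C.p2.1 = ψ C.X := rfl
  have e3 : ψ C.p3.1 = ψ C.y := rfl
  have e4 : ψ C.p4.1 = ψ C.Y := rfl
  rw [e1, e2, e3, e4]
  have hx : (ψ C.x : L) + ψ C.X = 1 := by
    show φ C.x + φ C.X = 1
    rw [← map_add, C.hX, add_sub_cancel, map_one]
  have hy : (ψ C.y : L) + ψ C.Y = 1 := by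
    show φ C.y + φ C.Y = 1
    rw [← map_add, C.hY, add_sub_cancel, map_one]
  have hx' : (ψ C.X : L) + ψ C.x = 1 := by rw [add_comm, hx]
  have hy' : (ψ C.Y : L) + ψ C.y = 1 := by rw [add_comm, hy]
  have hw : (ψ C.p5.1 : L) + ψ C.x⁻¹ = 1 := by
    show φ ((-(C.X * C.x⁻¹) : Aˣ) : A) + φ ((C.x⁻¹ : Aˣ) : A) = 1
    rw [← map_add, ← map_one φ]
    congr 1
    have h := C.x.mul_inv
    rw [Units.val_neg, Units.val_mul, C.hX]
    linear_combination h
  set lx := lg v (ψ C.x) with hlx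
  set ly := lg v (ψ C.y) with hly
  set lX := lg v (ψ C.X) with hlX
  set lY := lg v (ψ C.Y) with hlY
  have l5 : lg v (ψ C.p5.1) = lX - lx := by
    have : ψ C.p5.1 = -(ψ C.X * (ψ C.x)⁻¹) := by
      ext1
      show φ ((-(C.X * C.x⁻¹) : Aˣ) : A) = _
      rw [Units.val_neg, map_neg, Units.val_neg, ← map_inv, ← map_mul]
      rfl
    rw [this, lg_neg, lg_mul, lg_inv]
    ring
  have l6 : lg v (ψ C.q1.1) = ly - lx := by
    show lg v (ψ (C.y * C.x⁻¹)) = _
    rw [map_mul, map_inv, lg_mul, lg_inv]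
    ring
  have l7 : lg v (ψ C.q2.1) = lX - lY := by
    show lg v (ψ (C.X * C.Y⁻¹)) = _
    rw [map_mul, map_inv, lg_mul, lg_inv]
    ring
  have l8 : lg v (ψ C.q3.1) = lX + ly - lx - lY := by
    show lg v (ψ (C.X * C.y * (C.x * C.Y)⁻¹)) = _
    rw [map_mul, map_mul, map_inv, map_mul, lg_mul, lg_mul, lg_inv, lg_mul]
    ring
  have l9 : lg v (ψ (C.x ^ a * C.X ^ c)) = a * lx + c * lX := by
    rw [map_mul, map_pow, map_pow, lg_mul, lg_pow, lg_pow]
  have l10 : lg v (ψ C.x⁻¹) = -lx := by rw [map_inv, lg_inv]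
  have hE : a * lx + c * lX + (a * ly + c * lY) = 0 := by
    have h1 := congrArg (fun u => lg v (ψ u)) h
    simp only [map_mul, map_pow, map_one, lg_mul, lg_pow, lg_one] at h1
    exact h1
  have hEQ : (a : ℚ) * lx + c * lX + (a * ly + c * lY) = 0 := by exact_mod_cast hE
  rw [l9]
  set o : Kap v →₀ ℚ := Finsupp.single 1 1 with ho
  have cx := lg_cases v hx
  have cy := lg_cases v hy
  rw [← hlx, ← hlX] at cx
  rw [← hly, ← hlY] at cy
  have pc : ∀ l m : ℤ, ((l < 0 ∧ m = 0) ∨ (l = 0 ∧ m < 0) ∨ (l = 0 ∧ m = 0) ∨ (0 < l ∧ m = l)) →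
      ((l < 0 ∧ m = 0 ∧ a * l + c * m < 0) ∨ (l = 0 ∧ m < 0 ∧ a * l + c * m < 0) ∨
        (l = 0 ∧ m = 0 ∧ a * l + c * m = 0) ∨ (0 < l ∧ m = l ∧ 0 < a * l + c * m)) := by
    rintro l m (⟨h1, h2⟩ | ⟨h1, h2⟩ | ⟨h1, h2⟩ | ⟨h1, h2⟩)
    · left
      refine ⟨h1, h2, ?_⟩
      rw [h2]
      nlinarith
    · right; left
      refine ⟨h1, h2, ?_⟩
      rw [h1]
      nlinarith
    · right; right; left
      refine ⟨h1, h2, ?_⟩
      rw [h1, h2]
      ring
    · right; right; right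
      refine ⟨h1, h2, ?_⟩
      rw [h2]
      positivity
  have cx' := pc lx lX cx
  have cy' := pc ly lY cy
  clear cx cy pc
  have hP : ((a * lx + c * lX : ℤ) : ℚ) = a * lx + c * lX := by push_cast; ring
  rw [hP]
  rcases cx' with ⟨h1, h2, h3⟩ | ⟨h1, h2, h3⟩ | ⟨h1, h2, h3⟩ | ⟨h1, h2, h3⟩ <;>
  rcases cy' with ⟨h4, h5, h6⟩ | ⟨h4, h5, h6⟩ | ⟨h4, h5, h6⟩ | ⟨h4, h5, h6⟩ <;>
  try (exfalso; linarith)
  · -- `x → 0`, `y → ∞`
    rw [redF_ne v (f := ψ C.x) (by omega), redF_one v hx' (by omega),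
      redF_ne v (f := ψ C.y) (by omega), redF_ne v (f := ψ C.Y) (by omega),
      redF_ne v (f := ψ C.q1.1) (by omega), redF_ne v (f := ψ C.q2.1) (by omega),
      redF_ne v (f := ψ C.p5.1) (by omega), redF_ne v (f := ψ C.q3.1) (by omega)]
    rw [h2, h5] at hEQ
    rw [h2]
    simp only [smul_zero, add_zero, zero_add, sub_zero, Int.cast_zero, mul_zero] at hEQ ⊢
    rw [← ho]
    match_scalars
    field_simp
    linear_combination hEQ
  · -- `x → 1`, `y → ∞`
    rw [redF_one v hx (by omega), redF_ne v (f := ψ C.X) (by omega),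
      redF_ne v (f := ψ C.y) (by omega), redF_ne v (f := ψ C.Y) (by omega),
      redF_ne v (f := ψ C.q1.1) (by omega), redF_ne v (f := ψ C.q2.1) (by omega),
      redF_ne v (f := ψ C.p5.1) (by omega), redF_ne v (f := ψ C.q3.1) (by omega)]
    rw [h1, h5] at hEQ
    rw [h1, h5]
    simp only [smul_zero, add_zero, zero_add, sub_zero, Int.cast_zero, mul_zero] at hEQ ⊢
    rw [← ho]
    match_scalars
    field_simp
    linear_combination hEQ
  · -- units
    rw [h1, h2, h4, h5]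
    simp
  · -- `x → ∞`, `y → 0`
    rw [redF_ne v (f := ψ C.x) (by omega), redF_ne v (f := ψ C.X) (by omega),
      redF_ne v (f := ψ C.y) (by omega), redF_one v hy' (by omega),
      redF_ne v (f := ψ C.q1.1) (by omega), redF_ne v (f := ψ C.q2.1) (by omega),
      redF_one v hw (by omega), redF_ne v (f := ψ C.q3.1) (by omega)]
    rw [h2]
    simp only [smul_zero, add_zero, zero_add, sub_zero]
    rw [← ho]
    match_scalars
    field_simp
    ring
  · -- `x → ∞`, `y → 1`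
    rw [redF_ne v (f := ψ C.x) (by omega), redF_ne v (f := ψ C.X) (by omega),
      redF_one v hy (by omega), redF_ne v (f := ψ C.Y) (by omega),
      redF_ne v (f := ψ C.q1.1) (by omega), redF_ne v (f := ψ C.q2.1) (by omega),
      redF_one v hw (by omega), redF_ne v (f := ψ C.q3.1) (by omega)]
    rw [h2]
    simp only [smul_zero, add_zero, zero_add, sub_zero]
    rw [← ho]
    match_scalars
    field_simp
    ring

/-- The residues of the element `xi` vanish. -/
theorem bnd_xi (R : Type*) [CommRing R] {a c : ℕ} (ha : 1 ≤ a) (hc : 1 ≤ c) {L : Type*} [Field L]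
    (φ : Crv R a c →+* L) (v : Valuation L ℤᵐ⁰) : bnd v (FS.map φ (xi R ha hc)) = 0 := by
  refine (cfg R ha hc).bnd_xi ha hc ?_ φ v
  ext1
  have h := crd_eq R a c
  simp only [Units.val_mul, Units.val_pow_eq_pow_val, Units.val_one]
  rw [← h]
  show crd R a c 0 ^ a * (1 - crd R a c 0) ^ c * (crd R a c 1 ^ a * (1 - crd R a c 1) ^ c) = _
  rw [mul_pow, mul_pow]
  ring

end curve

end Pool.Agent.P8H1.SF
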