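import Pool.Agent.P8H1.SF.Main
import Pool.Agent.P8H1.SF.Alg
import Pool.Agent.P8H1.SF.Res
set_option autoImplicit false

/-!
The closed paths on the curve, and the sign of the regulator.
-/

namespace Pool.Agent.P8H1.SF

open Real Set Filter Topology MeasureTheory
open Pool.Agent.N65.TK (Pt UQ tu D Five Path)
open Pool.Agent.W367.KT

section eval

variable {R : Type*} [CommRing R] (σ : R →+* ℂ) {a c : ℕ}

/-- The value at the point `v`. -/
noncomputable def ev (v : Fin 3 → ℂ) : MvPolynomial (Fin 3) R →+* ℂ :=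
  MvPolynomial.eval₂Hom σ v

theorem ev_X (v : Fin 3 → ℂ) (i : Fin 3) : ev σ v (MvPolynomial.X i) = v i :=
  MvPolynomial.eval₂Hom_X' σ v i

theorem ev_C (v : Fin 3 → ℂ) (r : R) : ev σ v (MvPolynomial.C r) = σ r :=
  MvPolynomial.eval₂Hom_C σ v r

theorem ev_zero {v : Fin 3 → ℂ} (h1 : (v 0 * v 1) ^ a * ((1 - v 0) * (1 - v 1)) ^ c = 1)
    (h2 : (v 0 - v 1) * v 2 = 1) (P : MvPolynomial (Fin 3) R) (hP : P ∈ idl R a c) :
    ev σ v P = 0 := by
  have h : idl R a c ≤ RingHom.ker (ev σ v) := by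
    unfold idl
    rw [Ideal.span_le]
    rintro Q (rfl | rfl)
    · show ev σ v _ = 0
      simp only [map_sub, map_mul, map_pow, map_one, ev_X]
      rw [h1, sub_self]
    · show ev σ v _ = 0
      simp only [map_sub, map_mul, map_one, ev_X]
      rw [h2, sub_self]
  exact h hP

theorem ev_smooth {v : ℝ → Fin 3 → ℂ} (hs : ∀ i, ContDiff ℝ 2 fun t => v t i)
    (P : MvPolynomial (Fin 3) R) : ContDiff ℝ 2 fun t => ev σ (v t) P := by
  induction P using MvPolynomial.induction_on with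
  | C r =>
    simp only [ev_C]
    exact contDiff_const
  | add p q hp hq =>
    simp only [map_add]
    exact hp.add hq
  | mul_X p i hp =>
    simp only [map_mul, ev_X]
    exact hp.mul (hs i)

/-- The closed path given by the coordinates. -/
noncomputable def mkPath (v : ℝ → Fin 3 → ℂ)
    (h1 : ∀ t, (v t 0 * v t 1) ^ a * ((1 - v t 0) * (1 - v t 1)) ^ c = 1)
    (h2 : ∀ t, (v t 0 - v t 1) * v t 2 = 1) (hs : ∀ i, ContDiff ℝ 2 fun t => v t i)
    (hp : ∀ t, v (t + 1) = v t) : Path (Crv R a c) where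
  e t := Ideal.Quotient.lift (idl R a c) (ev σ (v t)) (ev_zero σ (h1 t) (h2 t))
  smooth h := by
    obtain ⟨P, rfl⟩ := Ideal.Quotient.mk_surjective h
    exact ev_smooth σ hs P
  periodic t := by
    have h := hp t
    simp only [h] <;> rfl

theorem mkPath_crd (v : ℝ → Fin 3 → ℂ)
    (h1 : ∀ t, (v t 0 * v t 1) ^ a * ((1 - v t 0) * (1 - v t 1)) ^ c = 1)
    (h2 : ∀ t, (v t 0 - v t 1) * v t 2 = 1) (hs : ∀ i, ContDiff ℝ 2 fun t => v t i)
    (hp : ∀ t, v (t + 1) = v t) (t : ℝ) (i : Fin 3) :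
    (mkPath σ v h1 h2 hs hp).e t (crd R a c i) = v t i := ev_X σ (v t) i

theorem mkPath_cst (v : ℝ → Fin 3 → ℂ)
    (h1 : ∀ t, (v t 0 * v t 1) ^ a * ((1 - v t 0) * (1 - v t 1)) ^ c = 1)
    (h2 : ∀ t, (v t 0 - v t 1) * v t 2 = 1) (hs : ∀ i, ContDiff ℝ 2 fun t => v t i)
    (hp : ∀ t, v (t + 1) = v t) (t : ℝ) (r : R) :
    (mkPath σ v h1 h2 hs hp).e t (cst R a c r) = σ r := ev_C σ (v t) r

end eval

section path

variable {a c : ℕ} {s0 s1 : ℝ}

theorem sin_zt_ne {ε : ℝ} (hε : 0 < ε) (t : ℝ) : Complex.sin (zt ε t) ≠ 0 := by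
  intro h
  rw [Complex.sin_eq_zero_iff] at h
  obtain ⟨k, hk⟩ := h
  have h1 := congrArg Complex.im hk
  unfold zt at h1
  simp at h1
  have h2 : ((k : ℂ) * (π : ℂ)).im = 0 := by
    have : (k : ℂ) * (π : ℂ) = ((k * π : ℝ) : ℂ) := by push_cast; rfl
    rw [this, Complex.ofReal_im]
  linarith

/-- the coordinates of the loop -/
noncomputable def vc (a c : ℕ) (s0 s1 ε t : ℝ) : Fin 3 → ℂ :=
  ![Xg a c s0 s1 (zt ε t), Yg a c s0 s1 (zt ε t), (Zg a c s0 s1 (zt ε t))⁻¹]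

theorem smooth_comp {f : ℂ → ℂ} (hf : DifferentiableOn ℂ f (Om a c s0 s1)) {ε : ℝ}
    (h : ∀ t, zt ε t ∈ Om a c s0 s1) : ContDiff ℝ 2 fun t => f (zt ε t) := by
  rw [contDiff_iff_contDiffAt]
  intro t
  have h1 : ContDiffAt ℂ 2 f (zt ε t) :=
    (hf.contDiffOn isOpen_Om).contDiffAt (isOpen_Om.mem_nhds (h t))
  have h2 : ContDiff ℝ 2 (zt ε) := by
    unfold zt
    have : ContDiff ℝ 2 fun t : ℝ => ((2 * π * t : ℝ) : ℂ) :=
      Complex.ofRealCLM.contDiff.comp (contDiff_const.mul contDiff_id)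
    exact this.sub contDiff_const
  exact (h1.restrict_scalars ℝ).comp t h2.contDiffAt

variable {R : Type*} [CommRing R] (σ : R →+* ℂ)

/-- The loop. -/
noncomputable def Par.pth (p : Par a c s0 s1) {ε : ℝ} (hε : 0 < ε)
    (h : ∀ t, zt ε t ∈ Om a c s0 s1) : Path (Crv R a c) :=
  mkPath σ (vc a c s0 s1 ε) (fun t => p.curve (h t))
    (fun t => by
      show (Xg a c s0 s1 (zt ε t) - Yg a c s0 s1 (zt ε t)) * (Zg a c s0 s1 (zt ε t))⁻¹ = 1
      rw [X_sub_Y, mul_inv_cancel₀ (p.Z_ne (h t) (sin_zt_ne hε t))])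
    (fun i => by
      fin_cases i
      · exact smooth_comp diff_Xg h
      · exact smooth_comp diff_Yg h
      · exact (smooth_comp diff_Zg h).inv fun t => p.Z_ne (h t) (sin_zt_ne hε t))
    (fun t => by
      unfold vc
      rw [zt_add_one, Xg_per, Yg_per, Zg_per])

variable (p : Par a c s0 s1) {ε : ℝ} (hε : 0 < ε) (h : ∀ t, zt ε t ∈ Om a c s0 s1)

theorem Par.pth_cst (t : ℝ) (r : R) : (p.pth σ hε h).e t (cst R a c r) = σ r :=
  mkPath_cst σ _ _ _ _ _ t r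

theorem Par.pth_x (t : ℝ) : (p.pth σ hε h).e t (crd R a c 0) = Xg a c s0 s1 (zt ε t) :=
  mkPath_crd σ _ _ _ _ _ t 0

theorem Par.pth_y (t : ℝ) : (p.pth σ hε h).e t (crd R a c 1) = Yg a c s0 s1 (zt ε t) :=
  mkPath_crd σ _ _ _ _ _ t 1

/-- The regulator along the loop. -/
theorem Par.reg_eq : reg (p.pth σ hε h) (xi R p.ha p.hc) =
    ∫ t in (0 : ℝ)..1, Kf a c (Xg a c s0 s1 (zt ε t)) (Yg a c s0 s1 (zt ε t))
      (2 * π * Px a c s0 s1 (zt ε t)) (2 * π * Py a c s0 s1 (zt ε t)) := by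
  unfold xi
  rw [Cfg.reg_xi]
  refine intervalIntegral.integral_congr fun t _ => ?_
  have ex : ((cfg R p.ha p.hc).x : Crv R a c) = crd R a c 0 := rfl
  have ey : ((cfg R p.ha p.hc).y : Crv R a c) = crd R a c 1 := rfl
  have h1 : (p.pth σ hε h).ld (cfg R p.ha p.hc).x t = 2 * π * Px a c s0 s1 (zt ε t) := by
    unfold Path.ld
    rw [ex]
    have e1 : (fun s => (p.pth σ hε h).e s (crd R a c 0)) = fun s => Xg a c s0 s1 (zt ε s) :=
      funext fun s => p.pth_x σ hε h s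
    rw [e1, p.pth_x, (p.hd_X_zt (h t)).deriv, mul_div_cancel_right₀ _ (p.X_ne (h t))]
  have h2 : (p.pth σ hε h).ld (cfg R p.ha p.hc).y t = 2 * π * Py a c s0 s1 (zt ε t) := by
    unfold Path.ld
    rw [ey]
    have e1 : (fun s => (p.pth σ hε h).e s (crd R a c 1)) = fun s => Yg a c s0 s1 (zt ε s) :=
      funext fun s => p.pth_y σ hε h s
    rw [e1, p.pth_y, (p.hd_Y_zt (h t)).deriv, mul_div_cancel_right₀ _ (p.Y_ne (h t))]
  rw [h1, h2, ex, ey, p.pth_x, p.pth_y]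

end path

section limit

variable {a c : ℕ} {s0 s1 : ℝ} (p : Par a c s0 s1)

include p

/-- on the real loop -/
theorem Par.log_eq (θ : ℝ) : (a : ℝ) * Real.log ‖Xg a c s0 s1 (θ : ℂ)‖ +
    c * Real.log ‖1 - Xg a c s0 s1 (θ : ℂ)‖ = 0 := by
  obtain ⟨r, hr, -, -, -, hY⟩ := p.coords θ
  have h1 := p.curve (p.mem_Om θ)
  have hX := p.X_ne (p.mem_Om θ)
  have hX1 := sub_ne_zero.2 (Ne.symm (p.X_ne_one (p.mem_Om θ)))
  set X := Xg a c s0 s1 (θ : ℂ) with hXd
  rw [hY] at h1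
  have h2 := congrArg (fun z => ‖z‖) h1
  have h3 : ‖1 - (starRingEnd ℂ) X‖ = ‖1 - X‖ := by rw [← Complex.norm_conj (1 - X), map_sub, map_one]
  rw [norm_mul, norm_pow, norm_pow, norm_mul, norm_mul, h3, Complex.norm_conj, norm_one] at h2
  have n1 : ‖X‖ ≠ 0 := norm_ne_zero_iff.2 hX
  have n2 : ‖1 - X‖ ≠ 0 := norm_ne_zero_iff.2 hX1
  have h4 := congrArg Real.log h2
  rw [Real.log_mul (pow_ne_zero _ (mul_ne_zero n1 n1)) (pow_ne_zero _ (mul_ne_zero n2 n2)),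
    Real.log_pow, Real.log_pow, Real.log_mul n1 n1, Real.log_mul n2 n2, Real.log_one] at h4
  linarith

theorem Par.reg_zero : (∫ t in (0 : ℝ)..1, Kf a c (Xg a c s0 s1 (zt 0 t)) (Yg a c s0 s1 (zt 0 t))
      (2 * π * Px a c s0 s1 (zt 0 t)) (2 * π * Py a c s0 s1 (zt 0 t))) < 0 := by
  have h1 : (0 : ℝ) < a := by exact_mod_cast p.ha
  have h2 : (0 : ℝ) < c := by exact_mod_cast p.hc
  have h3 := p.lp.U_neg h1 h2
  refine lt_of_eq_of_lt ?_ h3
  unfold Lp.U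
  refine intervalIntegral.integral_congr fun t _ => ?_
  have e1 : p.lp.X 0 t = Xg a c s0 s1 (zt 0 t) := by
    unfold Lp.X
    rw [Real.exp_zero, Complex.ofReal_one, one_mul]
    rfl
  have e2 : p.lp.P t = 2 * π * Px a c s0 s1 (zt 0 t) := rfl
  rw [e1, e2, zt_zero]
  obtain ⟨r, hr, -, -, -, hY⟩ := p.coords (2 * π * t)
  rw [hY, p.Py_real]
  have e3 : (2 * π * (starRingEnd ℂ) (Px a c s0 s1 ((2 * π * t : ℝ) : ℂ)) : ℂ) =
      (starRingEnd ℂ) (2 * π * Px a c s0 s1 ((2 * π * t : ℝ) : ℂ)) := by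
    rw [map_mul, map_mul, Complex.conj_ofReal, map_ofNat]
  rw [e3]
  exact Kf_real (p.log_eq _)

/-- The regulator is negative along the loops near the loop `y = x̄`. -/
theorem Par.reg_neg : ∃ δ > 0, (∀ ε ∈ Ioo (0 : ℝ) δ, ∀ t, zt ε t ∈ Om a c s0 s1) ∧
    ∀ ε ∈ Ioo (0 : ℝ) δ,
      (∫ t in (0 : ℝ)..1, Kf a c (Xg a c s0 s1 (zt ε t)) (Yg a c s0 s1 (zt ε t))
      (2 * π * Px a c s0 s1 (zt ε t)) (2 * π * Py a c s0 s1 (zt ε t))) < 0 := by
  obtain ⟨δ, hδ, h⟩ := p.tube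
  set cl : ℝ → ℝ := fun ε => max 0 (min ε δ) with hcl
  have hcl1 : ∀ ε, cl ε ∈ Icc 0 δ := fun ε =>
    ⟨le_max_left _ _, max_le hδ.le (min_le_right _ _)⟩
  have hcl2 : Continuous cl := by
    rw [hcl]
    fun_prop
  have hz : Continuous fun q : ℝ × ℝ => zt (cl q.1) q.2 :=
    cont_zt.comp ((hcl2.comp continuous_fst).prodMk continuous_snd)
  have hm : ∀ q : ℝ × ℝ, zt (cl q.1) q.2 ∈ Om a c s0 s1 := fun q => h _ (hcl1 q.1) _
  have hK := cont_Kf (E := ℝ × ℝ) a c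
    ((diff_Xg (a := a) (c := c) (s0 := s0) (s1 := s1)).continuousOn.comp_continuous hz hm)
    ((diff_Yg (a := a) (c := c) (s0 := s0) (s1 := s1)).continuousOn.comp_continuous hz hm)
    (continuous_const.mul (p.cont_Px.comp_continuous hz hm) :
      Continuous fun q : ℝ × ℝ => (2 * π : ℂ) * Px a c s0 s1 (zt (cl q.1) q.2))
    (continuous_const.mul (p.cont_Py.comp_continuous hz hm) :
      Continuous fun q : ℝ × ℝ => (2 * π : ℂ) * Py a c s0 s1 (zt (cl q.1) q.2))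
    (fun q => p.X_ne (hm q)) (fun q => p.X_ne_one (hm q)) (fun q => p.Y_ne (hm q))
    (fun q => p.Y_ne_one (hm q))
  have hI := intervalIntegral.continuous_parametric_intervalIntegral_of_continuous' (μ := volume)
    (f := fun ε t => Kf a c (Xg a c s0 s1 (zt (cl ε) t)) (Yg a c s0 s1 (zt (cl ε) t))
      (2 * π * Px a c s0 s1 (zt (cl ε) t)) (2 * π * Py a c s0 s1 (zt (cl ε) t))) hK 0 1
  have h0 : cl 0 = 0 := by
    rw [hcl]
    simp only
    rw [min_eq_left hδ.le, max_self]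
  have h1 := hI.tendsto 0
  simp only [h0] at h1
  obtain ⟨η, hη, h2⟩ := Metric.eventually_nhds_iff.1 (h1.eventually_lt_const p.reg_zero)
  refine ⟨min η δ, lt_min hη hδ, fun ε hε => h ε ⟨hε.1.le, hε.2.le.trans (min_le_right _ _)⟩,
    fun ε hε => ?_⟩
  have h3 := h2 (y := ε) (by
    rw [Real.dist_eq, sub_zero, abs_of_pos hε.1]
    exact hε.2.trans_le (min_le_left _ _))
  have h4 : cl ε = ε := by
    rw [hcl]
    simp only
    rw [min_eq_left (hε.2.le.trans (min_le_right _ _)), max_eq_right hε.1.le]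
  simpa only [h4] using h3

omit p in
theorem countable_cos (w : ℂ) : {ε : ℝ | ∃ t, Complex.cos (zt ε t) = w}.Countable := by
  by_cases hne : ∃ ε₀ t₀ : ℝ, Complex.cos (zt ε₀ t₀) = w
  · obtain ⟨ε₀, t₀, h0⟩ := hne
    refine (Set.toFinite {ε₀, -ε₀}).countable.mono ?_
    rintro ε ⟨t, ht⟩
    rw [← h0, Complex.cos_eq_cos_iff] at ht
    obtain ⟨k, hk | hk⟩ := ht
    · left
      have h1 := congrArg Complex.im hk
      have h2 : (2 * (k : ℂ) * (π : ℂ)).im = 0 := by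
        have : 2 * (k : ℂ) * (π : ℂ) = ((2 * k * π : ℝ) : ℂ) := by push_cast; rfl
        rw [this, Complex.ofReal_im]
      rw [Complex.add_im, h2] at h1
      unfold zt at h1
      simp only [Complex.sub_im, Complex.ofReal_im, Complex.im_ofReal_mul, Complex.I_im] at h1
      linarith
    · right
      rw [mem_singleton_iff]
      have h1 := congrArg Complex.im hk
      have h2 : (2 * (k : ℂ) * (π : ℂ)).im = 0 := by
        have : 2 * (k : ℂ) * (π : ℂ) = ((2 * k * π : ℝ) : ℂ) := by push_cast; rfl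
        rw [this, Complex.ofReal_im]
      rw [Complex.sub_im, h2] at h1
      unfold zt at h1
      simp only [Complex.sub_im, Complex.ofReal_im, Complex.im_ofReal_mul, Complex.I_im] at h1
      linarith
  · have : {ε : ℝ | ∃ t, Complex.cos (zt ε t) = w} = ∅ := by
      ext ε
      simp only [mem_ofPred_eq, mem_empty_iff_false, iff_false]
      rintro ⟨t, ht⟩
      exact hne ⟨ε, t, ht⟩
    rw [this]
    exact countable_empty

theorem Par.countable_bad (v : ℂ) :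
    {ε : ℝ | ∃ t, Sg s0 s1 (zt ε t) ^ (2 * c) = v}.Countable := by
  have hc := p.hc
  have hh0 : (hh s0 s1 : ℂ) ≠ 0 := by exact_mod_cast p.hh_pos.ne'
  have h1 : {ε : ℝ | ∃ t, Sg s0 s1 (zt ε t) ^ (2 * c) = v} ⊆
      ⋃ w ∈ ((Polynomial.nthRoots (2 * c) v).toFinset : Set ℂ),
        {ε : ℝ | ∃ t, Complex.cos (zt ε t) = (w - (((s0 + s1) / 2 : ℝ) : ℂ)) / hh s0 s1} := by
    rintro ε ⟨t, ht⟩
    rw [mem_iUnion₂]
    refine ⟨Sg s0 s1 (zt ε t), ?_, t, ?_⟩
    · rw [Finset.mem_coe, Multiset.mem_toFinset, Polynomial.mem_nthRoots (by omega)]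
      exact ht
    · unfold Sg
      field_simp
      ring
  exact (Countable.biUnion (Finset.countable_toSet _) fun w _ => countable_cos _).mono h1

omit p in
/-- The path. -/
theorem exists_path {a c : ℕ} (ha : 1 ≤ a) (hc : 1 ≤ c) (R : Type*) [CommRing R] (σ : R →+* ℂ)
    (N : Set (Crv R a c →+* ℂ)) (hN : N.Countable) :
    ∃ γ : Path (Crv R a c), (∀ t r, γ.e t (cst R a c r) = σ r) ∧ (∀ t, γ.e t ∉ N) ∧
      reg γ (xi R ha hc) < 0 := by
  obtain ⟨s0, s1, p⟩ := exists_par ha hc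
  obtain ⟨δ, hδ, h1, h2⟩ := p.reg_neg
  -- avoid the countable set
  set B : Set ℝ := ⋃ e ∈ N, {ε : ℝ | ∃ t, Sg s0 s1 (zt ε t) ^ (2 * c) =
    e (crd R a c 0 * crd R a c 1)} with hB
  have hBc : B.Countable := hN.biUnion fun e _ => p.countable_bad _
  obtain ⟨ε, hε1, hε2⟩ := (hBc.dense_compl ℝ).exists_mem_open isOpen_Ioo (nonempty_Ioo.2 hδ)
  refine ⟨p.pth σ hε2.1 (h1 ε hε2), fun t r => p.pth_cst σ _ _ t r, fun t ht => ?_, ?_⟩
  · apply hε1
    rw [hB, mem_iUnion₂]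
    refine ⟨_, ht, t, ?_⟩
    rw [map_mul, p.pth_x, p.pth_y, p.XY (h1 ε hε2 t)]
  · rw [show xi R ha hc = xi R p.ha p.hc from rfl, p.reg_eq]
    exact h2 ε hε2

end limit

end Pool.Agent.P8H1.SF
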