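import Pool.Agent.P8H1.SF.Four
set_option autoImplicit false

/-!
The form of the regulator on the real surface `y = x̄`, and its exterior derivative.
-/

namespace Pool.Agent.P8H1.SF

open Real Set Filter Topology MeasureTheory
open Pool.Agent.N65.TK
open Pool.Agent.W367.KT
open Pool.Agent.P8H1.EK (D_conj')

/-- `d log (1 - z) / d log z` -/
noncomputable def kk (z : ℂ) : ℂ := -z / (1 - z)

variable (a c : ℝ)

/-- the sum of the values of `T` at the unitary arguments -/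
noncomputable def Gz (z : ℂ) : ℝ :=
  1 / c * T ((starRingEnd ℂ) z / z) + 1 / a * T ((1 - z) / (starRingEnd ℂ) (1 - z)) +
    1 / (a + c) * (T z + T (1 - z) + T (1 - z⁻¹) - T ((1 - z) * (starRingEnd ℂ) z / (z * (starRingEnd ℂ) (1 - z))))

/-- the value of the form at the tangent vector `P z` -/
noncomputable def Fz (z P : ℂ) : ℝ :=
  -2 * T z * (P * kk z).im - 2 * T (1 - z) * P.im +
    2 / 3 * D z * (Real.log ‖z‖ * (P * kk z).re - Real.log ‖1 - z‖ * P.re) +
    Gz a c z * (a * P.im + c * (P * kk z).im)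

/-- the derivative of `Gz` in the direction `w z` -/
noncomputable def dG (z w : ℂ) : ℝ :=
  2 / c * D ((starRingEnd ℂ) z / z) * w.im - 2 / a * D ((1 - z) / (starRingEnd ℂ) (1 - z)) * (w * kk z).im +
    2 / (a + c) * D ((1 - z) * (starRingEnd ℂ) z / (z * (starRingEnd ℂ) (1 - z))) * ((w * kk z).im - w.im)

/-- the derivative of `Fz` in the direction `w z` -/
noncomputable def dF (z w P : ℂ) : ℝ :=
  -2 * (-(D z) * w.im + 1 / 3 * Real.log ‖z‖ * (Real.log ‖1 - z‖ * w.re -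
      Real.log ‖z‖ * (w * kk z).re)) * (P * kk z).im -
    2 * T z * (P * (w * (kk z * (1 - kk z)))).im -
    2 * (D z * (w * kk z).im + 1 / 3 * Real.log ‖1 - z‖ * (Real.log ‖z‖ * (w * kk z).re -
      Real.log ‖1 - z‖ * w.re)) * P.im +
    2 / 3 * (Real.log ‖z‖ * (w * kk z).im - Real.log ‖1 - z‖ * w.im) *
      (Real.log ‖z‖ * (P * kk z).re - Real.log ‖1 - z‖ * P.re) +
    2 / 3 * D z * (w.re * (P * kk z).re + Real.log ‖z‖ * (P * (w * (kk z * (1 - kk z)))).re -
      (w * kk z).re * P.re) +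
    dG a c z w * (a * P.im + c * (P * kk z).im) +
    Gz a c z * (c * (P * (w * (kk z * (1 - kk z)))).im)

section derivatives

variable {u : ℝ → ℂ} {w : ℂ} {τ : ℝ} (hu : HasDerivAt u (w * u τ) τ)

include hu in
theorem hd_cj : HasDerivAt (fun s => (starRingEnd ℂ) (u s)) ((starRingEnd ℂ) w * (starRingEnd ℂ) (u τ)) τ := by
  have h := (Complex.conjCLE.toContinuousLinearMap.hasFDerivAt (x := u τ)).comp_hasDerivAt τ hu
  have e : (starRingEnd ℂ) w * (starRingEnd ℂ) (u τ) = (starRingEnd ℂ) (w * u τ) := (map_mul _ _ _).symm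
  rw [e]
  exact h

include hu in
theorem hd_L (h0 : u τ ≠ 0) : HasDerivAt (fun s => Real.log ‖u s‖) w.re τ := by
  refine (hasDerivAt_logNorm hu h0).congr_deriv ?_
  rw [mul_div_cancel_right₀ _ h0]

include hu in
theorem hd_M (h1 : u τ ≠ 1) : HasDerivAt (fun s => Real.log ‖1 - u s‖) (w * kk (u τ)).re τ := by
  have h2 : 1 - u τ ≠ 0 := sub_ne_zero.2 (Ne.symm h1)
  refine (hasDerivAt_logNorm (u := fun s => 1 - u s) (hu.const_sub 1) h2).congr_deriv ?_
  unfold kk
  congr 1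
  ring

include hu in
theorem hd_D (h0 : u τ ≠ 0) (h1 : u τ ≠ 1) : HasDerivAt (fun s => D (u s))
    (Real.log ‖u τ‖ * (w * kk (u τ)).im - Real.log ‖1 - u τ‖ * w.im) τ := by
  refine D_path hu ?_ h0 h1
  have h2 : 1 - u τ ≠ 0 := sub_ne_zero.2 (Ne.symm h1)
  unfold kk
  field_simp

include hu in
theorem hd_T (h0 : u τ ≠ 0) (h1 : u τ ≠ 1) : HasDerivAt (fun s => T (u s))
    (-(D (u τ)) * w.im + 1 / 3 * Real.log ‖u τ‖ * (Real.log ‖1 - u τ‖ * w.re -
      Real.log ‖u τ‖ * (w * kk (u τ)).re)) τ := by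
  refine (hasDerivAt_T hu h0 h1).congr_deriv ?_
  unfold tau
  rw [mul_div_cancel_right₀ _ h0]
  have e : -(w * u τ) / (1 - u τ) = w * kk (u τ) := by
    unfold kk
    ring
  rw [e]
  ring

include hu in
theorem hd_kk (h1 : u τ ≠ 1) :
    HasDerivAt (fun s => kk (u s)) (w * (kk (u τ) * (1 - kk (u τ)))) τ := by
  have h2 : 1 - u τ ≠ 0 := sub_ne_zero.2 (Ne.symm h1)
  refine (hu.neg.div (hu.const_sub 1) h2).congr_deriv ?_
  rw [Pi.neg_apply]
  unfold kk
  field_simp
  ring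

include hu in
/-- the derivative of `T` at an argument of absolute value `1` -/
theorem hd_T_unit {r : ℝ → ℂ} {v : ℂ} (hr : HasDerivAt r (v * r τ) τ) (hn : ‖r τ‖ = 1)
    (h1 : r τ ≠ 1) : HasDerivAt (fun s => T (r s)) (-(D (r τ)) * v.im) τ := by
  have h0 : r τ ≠ 0 := norm_ne_zero_iff.1 (by rw [hn]; exact one_ne_zero)
  refine (hd_T hr h0 h1).congr_deriv ?_
  rw [hn, Real.log_one]
  ring

theorem hd_div {f g : ℝ → ℂ} {p q : ℂ} (hf : HasDerivAt f (p * f τ) τ)
    (hg : HasDerivAt g (q * g τ) τ) (h0 : g τ ≠ 0) :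
    HasDerivAt (fun s => f s / g s) ((p - q) * (f τ / g τ)) τ := by
  refine (hf.div hg h0).congr_deriv ?_
  field_simp

theorem hd_mul {f g : ℝ → ℂ} {p q : ℂ} (hf : HasDerivAt f (p * f τ) τ)
    (hg : HasDerivAt g (q * g τ) τ) :
    HasDerivAt (fun s => f s * g s) ((p + q) * (f τ * g τ)) τ := by
  refine (hf.mul hg).congr_deriv ?_
  ring

include hu in
theorem hd_one_sub (h1 : u τ ≠ 1) :
    HasDerivAt (fun s => 1 - u s) (w * kk (u τ) * (1 - u τ)) τ := by
  have h2 : 1 - u τ ≠ 0 := sub_ne_zero.2 (Ne.symm h1)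
  refine (hu.const_sub 1).congr_deriv ?_
  unfold kk
  field_simp

theorem ne_real {z : ℂ} (h : z.im ≠ 0) (b : ℝ) : z ≠ b := by
  intro h1
  rw [h1, Complex.ofReal_im] at h
  exact h rfl

include hu in
theorem hd_Gz (hi : (u τ).im ≠ 0) (ha : a ≠ 0) (hc : c ≠ 0) (hac : a + c ≠ 0) :
    HasDerivAt (fun s => Gz a c (u s)) (dG a c (u τ) w) τ := by
  have h0 : u τ ≠ 0 := by simpa using ne_real hi 0
  have h1 : u τ ≠ 1 := by simpa using ne_real hi 1
  have h2 : 1 - u τ ≠ 0 := sub_ne_zero.2 (Ne.symm h1)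
  have h2' : (starRingEnd ℂ) (1 - u τ) ≠ 0 := (map_ne_zero _).2 h2
  have h0' : (starRingEnd ℂ) (u τ) ≠ 0 := (map_ne_zero _).2 h0
  have hcne : (starRingEnd ℂ) (u τ) ≠ u τ := by
    intro h
    have := congrArg Complex.im h
    rw [Complex.conj_im] at this
    apply hi
    linarith
  have d0 := hd_cj hu
  have d1 := hd_one_sub hu h1
  have d1' := hd_cj d1
  set k := kk (u τ) with hk
  -- the three unitary arguments
  have r3 := hd_div d0 hu h0
  have r5 := hd_div d1 d1' h2'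
  have r4 := hd_div (hd_mul d1 d0) (hd_mul hu d1') (mul_ne_zero h0 h2')
  have n3 : ‖(starRingEnd ℂ) (u τ) / u τ‖ = 1 := by
    rw [norm_div, Complex.norm_conj, div_self (norm_ne_zero_iff.2 h0)]
  have n5 : ‖(1 - u τ) / (starRingEnd ℂ) (1 - u τ)‖ = 1 := by
    rw [norm_div, Complex.norm_conj, div_self (norm_ne_zero_iff.2 h2)]
  have n4 : ‖(1 - u τ) * (starRingEnd ℂ) (u τ) / (u τ * (starRingEnd ℂ) (1 - u τ))‖ = 1 := by
    rw [norm_div, norm_mul, norm_mul, Complex.norm_conj, Complex.norm_conj, mul_comm ‖u τ‖,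
      div_self (mul_ne_zero (norm_ne_zero_iff.2 h2) (norm_ne_zero_iff.2 h0))]
  have e3 : (starRingEnd ℂ) (u τ) / u τ ≠ 1 := by
    rw [Ne, div_eq_one_iff_eq h0]
    exact hcne
  have e5 : (1 - u τ) / (starRingEnd ℂ) (1 - u τ) ≠ 1 := by
    rw [Ne, div_eq_one_iff_eq h2', map_sub, map_one]
    intro h
    apply hcne
    linear_combination h
  have e4 : (1 - u τ) * (starRingEnd ℂ) (u τ) / (u τ * (starRingEnd ℂ) (1 - u τ)) ≠ 1 := by
    rw [Ne, div_eq_one_iff_eq (mul_ne_zero h0 h2'), map_sub, map_one]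
    intro h
    apply hcne
    linear_combination h
  have t3 := hd_T_unit hu r3 n3 e3
  have t5 := hd_T_unit hu r5 n5 e5
  have t4 := hd_T_unit hu r4 n4 e4
  -- the constant
  have z1 := hd_T hu h0 h1
  have z2 := hd_T (u := fun s => 1 - u s) d1 h2 (by
    intro h
    apply h0
    linear_combination -h)
  have dinv : HasDerivAt (fun s => (u s)⁻¹) (-w * (u τ)⁻¹) τ := by
    refine (hu.inv h0).congr_deriv ?_
    field_simp
  have hi1 : (u τ)⁻¹ ≠ 1 := by
    intro h
    exact h1 (inv_eq_one.1 h)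
  have dq := hd_one_sub dinv hi1
  have z3 := hd_T (u := fun s => 1 - (u s)⁻¹) dq (sub_ne_zero.2 (Ne.symm hi1)) (by
    intro h
    apply inv_ne_zero h0
    linear_combination -h)
  have key := (((t3.const_mul (1 / c)).add (t5.const_mul (1 / a))).add
    ((((z1.add z2).add z3).sub t4).const_mul (1 / (a + c))))
  refine HasDerivAt.congr_deriv (f := fun s => Gz a c (u s)) key ?_
  unfold dG
  rw [← hk]
  have k1 : kk (1 - u τ) = k⁻¹ := by
    rw [hk]
    unfold kk
    rw [sub_sub_cancel]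
    field_simp
  have hk0 : k ≠ 0 := by
    rw [hk]
    unfold kk
    exact div_ne_zero (neg_ne_zero.2 h0) h2
  have k2 : -w * kk (u τ)⁻¹ = w * k - w := by
    rw [hk]
    unfold kk
    have : 1 - (u τ)⁻¹ = -(1 - u τ) / u τ := by field_simp; ring
    rw [this]
    field_simp
    ring
  have k3 : (-w * kk (u τ)⁻¹) * kk (1 - (u τ)⁻¹) = -w := by
    have h3 : 1 - (u τ)⁻¹ ≠ 0 := sub_ne_zero.2 (Ne.symm hi1)
    have h4 : (u τ)⁻¹ ≠ 0 := inv_ne_zero h0
    unfold kk
    rw [sub_sub_cancel]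
    field_simp
  rw [k3, k2, k1]
  have k4 : w * k * k⁻¹ = w := by rw [mul_assoc, mul_inv_cancel₀ hk0, mul_one]
  rw [k4, D_one_sub, D_one_sub, D_inv']
  have l1 : Real.log ‖1 - (1 - u τ)‖ = Real.log ‖u τ‖ := by rw [sub_sub_cancel]
  have l2 : Real.log ‖1 - (u τ)⁻¹‖ = Real.log ‖1 - u τ‖ - Real.log ‖u τ‖ := by
    have : 1 - (u τ)⁻¹ = -(1 - u τ) / u τ := by field_simp; ring
    rw [this, norm_div, norm_neg, Real.log_div (norm_ne_zero_iff.2 h2) (norm_ne_zero_iff.2 h0)]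
  have l3 : Real.log ‖1 - (1 - (u τ)⁻¹)‖ = -Real.log ‖u τ‖ := by
    rw [sub_sub_cancel, norm_inv, Real.log_inv]
  rw [l1, l2, l3]
  simp only [Complex.sub_im, Complex.sub_re, Complex.add_im, Complex.conj_im, Complex.neg_re,
    Complex.neg_im]
  field_simp
  ring

include hu in
/-- The derivative of the form. -/
theorem hd_Fz (P : ℂ) (hi : (u τ).im ≠ 0) (ha : a ≠ 0) (hc : c ≠ 0) (hac : a + c ≠ 0) :
    HasDerivAt (fun s => Fz a c (u s) P) (dF a c (u τ) w P) τ := by
  have h0 : u τ ≠ 0 := by simpa using ne_real hi 0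
  have h1 : u τ ≠ 1 := by simpa using ne_real hi 1
  have h2 : 1 - u τ ≠ 0 := sub_ne_zero.2 (Ne.symm h1)
  have dT := hd_T hu h0 h1
  have dS := hd_T (u := fun s => 1 - u s) (hd_one_sub hu h1) h2 (by
    intro h
    apply h0
    linear_combination -h)
  have dD := hd_D hu h0 h1
  have dL := hd_L hu h0
  have dM := hd_M hu h1
  have dk := (hd_kk hu h1).const_mul P
  have dkr := hd_re dk
  have dki := hd_im dk
  have dGz := hd_Gz a c hu hi ha hc hac
  have key := ((((dT.const_mul (-2)).mul dki).sub ((dS.const_mul 2).mul_const P.im)).add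
    ((dD.const_mul (2 / 3)).mul ((dL.mul dkr).sub (dM.mul_const P.re)))).add
    (dGz.mul ((hasDerivAt_const τ (a * P.im)).add (dki.const_mul c)))
  refine HasDerivAt.congr_deriv (f := fun s => Fz a c (u s) P) key ?_
  have hk0 : kk (u τ) ≠ 0 := by
    unfold kk
    exact div_ne_zero (neg_ne_zero.2 h0) h2
  have k1 : kk (1 - u τ) = (kk (u τ))⁻¹ := by
    unfold kk
    rw [sub_sub_cancel]
    field_simp
  have k4 : w * kk (u τ) * (kk (u τ))⁻¹ = w := by rw [mul_assoc, mul_inv_cancel₀ hk0, mul_one]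
  rw [k1, k4, D_one_sub, sub_sub_cancel]
  simp only [Pi.add_apply, Pi.sub_apply, Pi.mul_apply]
  unfold dF
  ring

end derivatives

/-- The exterior derivative of the form. -/
theorem curl {z : ℂ} (P : ℂ) (hi : z.im ≠ 0) (ha : a ≠ 0) (hc : c ≠ 0) (hac : a + c ≠ 0) :
    dF a c z 1 P = dF a c z P 1 - 4 / 3 * D z * P.im * (kk z).im := by
  have h0 : z ≠ 0 := by simpa using ne_real hi 0
  have h1 : z ≠ 1 := by simpa using ne_real hi 1
  have h0' : (starRingEnd ℂ) z ≠ 0 := (map_ne_zero _).2 h0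
  have hcne : z ≠ (starRingEnd ℂ) z := by
    intro h
    have := congrArg Complex.im h
    rw [Complex.conj_im] at this
    apply hi
    linarith
  have h1' : (starRingEnd ℂ) z ≠ 1 := by
    intro h
    apply h1
    have := congrArg (starRingEnd ℂ) h
    rwa [Complex.conj_conj, map_one] at this
  have h5 := five_zero h0 h1 h0' h1' hcne
  unfold five at h5
  have e4 : (z - 1) * (starRingEnd ℂ) z / (z * ((starRingEnd ℂ) z - 1)) = (1 - z) * (starRingEnd ℂ) z / (z * (starRingEnd ℂ) (1 - z)) := by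
    rw [map_sub, map_one]
    rw [← neg_sub 1 z, ← neg_sub 1 ((starRingEnd ℂ) z), neg_mul, mul_neg, neg_div_neg_eq]
  have e5 : (1 - z) / (1 - (starRingEnd ℂ) z) = (1 - z) / (starRingEnd ℂ) (1 - z) := by rw [map_sub, map_one]
  rw [D_conj', e4, e5] at h5
  unfold dF dG
  simp only [one_mul, mul_one, Complex.one_im, Complex.one_re, mul_zero, zero_mul, sub_zero,
    add_zero, zero_add]
  have m1 : (P * kk z).re = P.re * (kk z).re - P.im * (kk z).im := Complex.mul_re _ _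
  have m2 : (P * kk z).im = P.re * (kk z).im + P.im * (kk z).re := Complex.mul_im _ _
  rw [m1, m2]
  have h6 : D ((1 - z) / (starRingEnd ℂ) (1 - z)) = -2 * D z - D ((starRingEnd ℂ) z / z) +
      D ((1 - z) * (starRingEnd ℂ) z / (z * (starRingEnd ℂ) (1 - z))) := by linarith
  rw [h6]
  field_simp
  ring

theorem kk_im {z : ℂ} (h1 : z ≠ 1) : (kk z).im = -(z.im / ‖1 - z‖ ^ 2) := by
  unfold kk
  rw [Complex.div_im, Complex.normSq_eq_norm_sq]
  simp only [Complex.neg_im, Complex.neg_re, Complex.sub_re, Complex.sub_im, Complex.one_re,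
    Complex.one_im]
  have : ‖1 - z‖ ≠ 0 := norm_ne_zero_iff.2 (sub_ne_zero.2 (Ne.symm h1))
  field_simp
  ring

end Pool.Agent.P8H1.SF
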