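import Pool.Agent.P8H1.SF.FunD
set_option autoImplicit false

/-!
The single-valued polylogarithm of weight four, a primitive of the form of `{f}_3 ⊗ f`.
-/

namespace Pool.Agent.P8H1.SF

open Set MeasureTheory intervalIntegral Filter Topology
open Pool.Agent.N65.TK
open Pool.Agent.W367.KT

/-- `Li_3(z) / z` with the singularity at `0` removed -/
noncomputable def g4 : ℂ → ℂ := dslope Li3 0

theorem Li3_zero : Li3 0 = 0 := by
  unfold Li3
  simp

theorem g4_of_ne {z : ℂ} (hz : z ≠ 0) : g4 z = Li3 z / z := by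
  unfold g4
  rw [dslope_of_ne _ hz, slope_def_field, Li3_zero, sub_zero, sub_zero]

theorem differentiableOn_g4 : DifferentiableOn ℂ g4 S1 := by
  unfold g4
  rw [Complex.differentiableOn_dslope]
  · intro z hz
    exact (hasDerivAt_Li3 hz).differentiableAt.differentiableWithinAt
  · apply isOpen_S1.mem_nhds
    show (1:ℂ) - 0 ∈ Complex.slitPlane
    simp

/-- the polylogarithm of weight four on `S1` -/
noncomputable def Li4 (z : ℂ) : ℂ := ∫ t in (0:ℝ)..1, z * g4 (t * z)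

theorem hasDerivAt_Li4 {z : ℂ} (hz : z ∈ S1) : HasDerivAt Li4 (g4 z) z :=
  hasDerivAt_prim isOpen_S1 star_S1 differentiableOn_g4 hz

theorem real_mem_S1 {a : ℝ} (ha : a < 1) : (a : ℂ) ∈ S1 := by
  left
  rw [Complex.sub_re, Complex.one_re, Complex.ofReal_re]
  linarith

theorem prim_real {h : ℂ → ℂ} (hc : ContinuousOn h S1)
    (hr : ∀ b : ℝ, b < 1 → b ≠ 0 → (h b).im = 0) {a : ℝ} (ha : a < 1) (ha0 : a ≠ 0) :
    (∫ t in (0:ℝ)..1, (a : ℂ) * h (t * a)).im = 0 := by
  have hint : IntervalIntegrable (fun t : ℝ => (a : ℂ) * h (t * a)) volume 0 1 := by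
    apply ContinuousOn.intervalIntegrable
    rw [uIcc_of_le zero_le_one]
    refine ContinuousOn.mul continuousOn_const ?_
    refine hc.comp (f := fun t : ℝ => (t : ℂ) * a) (by fun_prop) ?_
    intro t ht
    exact star_S1 _ (real_mem_S1 ha) t ht
  have h1 := Complex.imCLM.intervalIntegral_comp_comm hint
  have h2 : (∫ t in (0:ℝ)..1, (a : ℂ) * h (t * a)).im =
      ∫ t in (0:ℝ)..1, Complex.imCLM ((a : ℂ) * h (t * a)) := h1.symm
  rw [h2, intervalIntegral.integral_congr_ae (g := fun _ => (0 : ℝ))]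
  · simp
  · refine Eventually.of_forall fun t ht => ?_
    rw [uIoc_of_le zero_le_one] at ht
    show ((a : ℂ) * h (t * a)).im = 0
    have h3 : (t : ℂ) * a = ((t * a : ℝ) : ℂ) := by push_cast; rfl
    rw [h3, Complex.im_ofReal_mul, hr (t * a) _ (mul_ne_zero ht.1.ne' ha0), mul_zero]
    rcases le_total 0 a with h4 | h4 <;> nlinarith [ht.1, ht.2]

theorem gfun_real {b : ℝ} (hb : b < 1) (h0 : b ≠ 0) : (gfun b).im = 0 := by
  have h0' : (b : ℂ) ≠ 0 := by exact_mod_cast h0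
  rw [gfun_of_ne h0', Complex.div_ofReal_im, Complex.neg_im, Complex.log_im]
  have h1 : (1 : ℂ) - b = ((1 - b : ℝ) : ℂ) := by push_cast; ring
  rw [h1, Complex.arg_ofReal_of_nonneg (by linarith)]
  simp

theorem Li_real {b : ℝ} (hb : b < 1) (h0 : b ≠ 0) : (Li b).im = 0 :=
  prim_real differentiableOn_gfun.continuousOn (fun _ h1 h2 => gfun_real h1 h2) hb h0

theorem g3_real {b : ℝ} (hb : b < 1) (h0 : b ≠ 0) : (g3 b).im = 0 := by
  have h0' : (b : ℂ) ≠ 0 := by exact_mod_cast h0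
  rw [g3_of_ne h0', Complex.div_ofReal_im, Li_real hb h0, zero_div]

theorem Li3_real {b : ℝ} (hb : b < 1) (h0 : b ≠ 0) : (Li3 b).im = 0 :=
  prim_real differentiableOn_g3.continuousOn (fun _ h1 h2 => g3_real h1 h2) hb h0

theorem g4_real {b : ℝ} (hb : b < 1) (h0 : b ≠ 0) : (g4 b).im = 0 := by
  have h0' : (b : ℂ) ≠ 0 := by exact_mod_cast h0
  rw [g4_of_ne h0', Complex.div_ofReal_im, Li3_real hb h0, zero_div]

theorem Li4_real {b : ℝ} (hb : b < 1) (h0 : b ≠ 0) : (Li4 b).im = 0 :=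
  prim_real differentiableOn_g4.continuousOn (fun _ h1 h2 => g4_real h1 h2) hb h0

/-- the single-valued function on `S1` -/
noncomputable def N1 (z : ℂ) : ℝ :=
  (Li4 z).im - Real.log ‖z‖ * (Li3 z).im + 1 / 3 * Real.log ‖z‖ ^ 2 * (Li z).im

/-- the form of `{z}_3 ⊗ z` -/
noncomputable def tau4 (z z' : ℂ) : ℝ :=
  T z * (z' / z).im - 1 / 3 * D z * Real.log ‖z‖ * (z' / z).re

theorem T_of_mem {z : ℂ} (h0 : z ≠ 0) (h : z ∈ S1) : T z = -M1 z := by
  have h1 : z ≠ 1 := by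
    rintro rfl
    unfold S1 at h
    simp at h
  rw [T_eq_Mf h0 h1]
  unfold Mf
  rw [if_pos h]

theorem hasDerivAt_N1 {u : ℝ → ℂ} {u' : ℂ} {t : ℝ} (hu : HasDerivAt u u' t) (h0 : u t ≠ 0)
    (h1 : u t ∈ S1) : HasDerivAt (fun s => N1 (u s)) (tau4 (u t) u') t := by
  have hL : HasDerivAt (fun s => Li (u s)) (gfun (u t) * u') t := (hasDerivAt_Li h1).comp t hu
  have hL3 : HasDerivAt (fun s => Li3 (u s)) (g3 (u t) * u') t := (hasDerivAt_Li3 h1).comp t hu
  have hL4 : HasDerivAt (fun s => Li4 (u s)) (g4 (u t) * u') t := (hasDerivAt_Li4 h1).comp t hu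
  have hl := hasDerivAt_logNorm hu h0
  have h := ((hd_im hL4).sub (hl.mul (hd_im hL3))).add
    (((hl.pow 2).const_mul (1 / 3)).mul (hd_im hL))
  refine HasDerivAt.congr_deriv (f := fun s => N1 (u s)) h ?_
  have e0 : D (u t) = (Li (u t)).im + (Complex.log (1 - u t)).im * Real.log ‖u t‖ := D_of_mem h1
  have e00 := T_of_mem h0 h1
  unfold tau4
  rw [e0, e00, gfun_of_ne h0, g3_of_ne h0, g4_of_ne h0]
  unfold M1
  have e1 : -Complex.log (1 - u t) / u t * u' = -(Complex.log (1 - u t) * (u' / u t)) := by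
    field_simp
  have e2 : Li (u t) / u t * u' = Li (u t) * (u' / u t) := by
    field_simp
  have e3 : Li3 (u t) / u t * u' = Li3 (u t) * (u' / u t) := by
    field_simp
  rw [e1, e2, e3, Complex.neg_im, Complex.mul_im, Complex.mul_im, Complex.mul_im, Complex.log_re,
    Pi.pow_apply]
  push_cast
  ring

/-- the single-valued function on `S2` -/
noncomputable def N2 (z : ℂ) : ℝ := -N1 z⁻¹

theorem hasDerivAt_N2 {u : ℝ → ℂ} {u' : ℂ} {t : ℝ} (hu : HasDerivAt u u' t)
    (h2 : u t ∈ S2) : HasDerivAt (fun s => N2 (u s)) (tau4 (u t) u') t := by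
  have h0 := h2.1
  have hi : HasDerivAt (fun s => (u s)⁻¹) (-u' / (u t) ^ 2) t := hu.inv h0
  have h := (hasDerivAt_N1 hi (inv_ne_zero h0) h2.2).neg
  refine h.congr_deriv ?_
  unfold tau4
  have e2 : -u' / u t ^ 2 / (u t)⁻¹ = -(u' / u t) := by field_simp
  rw [e2, norm_inv, Real.log_inv, T_inv, D_inv', Complex.neg_re, Complex.neg_im]
  ring

theorem N1_eq_N2 {z : ℂ} (hz : -z ∈ Complex.slitPlane) : N1 z = N2 z := by
  have hpath : ∀ s ∈ Icc (0:ℝ) 1, -((-1 : ℂ) + s * (z + 1)) ∈ Complex.slitPlane := by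
    intro s hs
    have h := StarConvex.add_smul_mem Complex.starConvex_one_slitPlane
      (show (1:ℂ) + (-z - 1) ∈ Complex.slitPlane by simpa using hz) hs.1 hs.2
    have : -((-1 : ℂ) + s * (z + 1)) = 1 + s • (-z - 1) := by
      rw [Complex.real_smul]; ring
    rw [this]; exact h
  have hder : ∀ s : ℝ, HasDerivAt (fun s : ℝ => (-1 : ℂ) + s * (z + 1)) (z + 1) s := by
    intro s
    have h0 : HasDerivAt (fun t : ℝ => (t : ℂ)) 1 s := by
      simpa using (hasDerivAt_id s).ofReal_comp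
    simpa using (h0.mul_const (z + 1)).const_add (-1 : ℂ)
  set φ : ℝ → ℝ := fun s => N1 ((-1 : ℂ) + s * (z + 1)) - N2 ((-1 : ℂ) + s * (z + 1)) with hφ
  have hφd : ∀ s ∈ Icc (0:ℝ) 1, HasDerivAt φ 0 s := by
    intro s hs
    have hm := hpath s hs
    have hS1 := mem_S1_of_neg_slit hm
    have hS2 := mem_S2_of_neg_slit hm
    have := (hasDerivAt_N1 (hder s) hS2.1 hS1).sub (hasDerivAt_N2 (hder s) hS2)
    exact this.congr_deriv (sub_self _)
  have hconst : φ 1 = φ 0 := is_const_of_deriv_eq_zero_on_Icc φ hφd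
  have e1 : φ 1 = N1 z - N2 z := by
    simp only [hφ]
    rw [show (-1 : ℂ) + ((1:ℝ):ℂ) * (z + 1) = z by push_cast; ring]
  have e0 : φ 0 = 0 := by
    simp only [hφ]
    rw [show (-1 : ℂ) + ((0:ℝ):ℂ) * (z + 1) = -1 by push_cast; ring]
    unfold N2
    have h1 : ((-1 : ℂ))⁻¹ = -1 := by norm_num
    have h2 : (-1 : ℂ) = ((-1 : ℝ) : ℂ) := by push_cast; rfl
    have h3 : N1 (-1) = 0 := by
      unfold N1
      rw [h2, Li4_real (by norm_num) (by norm_num), Li3_real (by norm_num) (by norm_num),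
        Li_real (by norm_num) (by norm_num)]
      simp
    rw [h1, h3, neg_zero, sub_zero]
  linarith [hconst, e1, e0]

/-- the single-valued polylogarithm of weight four -/
noncomputable def Nf (z : ℂ) : ℝ := open Classical in if z ∈ S1 then N1 z else N2 z

theorem hasDerivAt_Nf {u : ℝ → ℂ} {u' : ℂ} {t : ℝ} (hu : HasDerivAt u u' t)
    (h0 : u t ≠ 0) (h1 : u t ≠ 1) : HasDerivAt (fun s => Nf (u s)) (tau4 (u t) u') t := by
  by_cases h : u t ∈ S1
  · refine (hasDerivAt_N1 hu h0 h).congr_of_eventuallyEq ?_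
    filter_upwards [hu.continuousAt.preimage_mem_nhds (isOpen_S1.mem_nhds h)] with s hs
    exact if_pos hs
  · have h2 := mem_S2_of_not_mem_S1 h1 h
    refine (hasDerivAt_N2 hu h2).congr_of_eventuallyEq ?_
    filter_upwards [hu.continuousAt.preimage_mem_nhds (isOpen_S2.mem_nhds h2)] with s hs
    unfold Nf
    split_ifs with hS
    · exact N1_eq_N2 (mem_neg_slit_of hS hs)
    · rfl

end Pool.Agent.P8H1.SF
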