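import Pool.Agent.P8H1.SF.Defs
import Pool.Agent.P8H1.EK.Lim
set_option autoImplicit false

/-!
The single-valued trilogarithm `T` and the Bloch-Wigner function `D`.
-/

namespace Pool.Agent.P8H1.SF

open Real Set Filter Topology MeasureTheory
open Pool.Agent.N65.TK
open Pool.Agent.W367.KT
open Pool.Agent.P8H1.KC (arg_div_le)
open Pool.Agent.P8H1.EK (contAt_D D_conj')

section term

/-- the terms of the series -/
noncomputable def tm (n : ℕ) (z : ℂ) : ℝ :=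
  (1 / ((n : ℝ) + 1) ^ 3 - Real.log ‖z‖ / ((n : ℝ) + 1) ^ 2 +
    Real.log ‖z‖ ^ 2 / (3 * ((n : ℝ) + 1))) * (z ^ (n + 1)).re

theorem T0_def (z : ℂ) : T0 z = ∑' n, tm n z := rfl

theorem tm_le (n : ℕ) {z : ℂ} (hz : ‖z‖ ≤ 1) :
    |tm n z| ≤ √‖z‖ * (6 / ((n : ℝ) + 1) ^ 3) := by
  by_cases h0 : z = 0
  · subst h0
    unfold tm
    simp
  have hp : 0 < ‖z‖ := norm_pos_iff.2 h0
  set l := Real.log ‖z‖ with hl
  have hl0 : l ≤ 0 := Real.log_nonpos hp.le hz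
  have hN : (0 : ℝ) < (n : ℝ) + 1 := by positivity
  have hN1 : (1 : ℝ) ≤ (n : ℝ) + 1 := by linarith [(Nat.cast_nonneg n : (0 : ℝ) ≤ n)]
  set N := (n : ℝ) + 1 with hNd
  have hze : ‖z‖ = Real.exp l := by rw [hl, Real.exp_log hp]
  have h1 : |(z ^ (n + 1)).re| ≤ Real.exp (N * l / 2) * Real.exp (N * l / 2) := by
    refine (Complex.abs_re_le_norm _).trans ?_
    rw [norm_pow, hze, ← Real.exp_nat_mul, ← Real.exp_add]
    apply Real.exp_le_exp.2
    push_cast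
    rw [hNd]
    linarith
  have h2 : Real.exp (N * l / 2) ≤ √‖z‖ := by
    apply Real.le_sqrt_of_sq_le
    rw [hze, sq, ← Real.exp_add]
    apply Real.exp_le_exp.2
    nlinarith
  -- `u = - N l / 2`
  have hu : 0 ≤ -(N * l / 2) := by nlinarith
  have h3 : -(N * l / 2) * Real.exp (N * l / 2) ≤ 1 := by
    have h := Real.add_one_le_exp (-(N * l / 2))
    have h' : Real.exp (-(N * l / 2)) * Real.exp (N * l / 2) = 1 := by
      rw [← Real.exp_add]
      simp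
    have h4 := Real.exp_pos (N * l / 2)
    nlinarith
  have h4 : (-(N * l / 2)) ^ 2 * Real.exp (N * l / 2) ≤ 2 := by
    have h := Real.quadratic_le_exp_of_nonneg hu
    have h' : Real.exp (-(N * l / 2)) * Real.exp (N * l / 2) = 1 := by
      rw [← Real.exp_add]
      simp
    have h4 := Real.exp_pos (N * l / 2)
    nlinarith
  have h5 : Real.exp (N * l / 2) ≤ 1 := Real.exp_le_one_iff.2 (by linarith)
  have he := Real.exp_pos (N * l / 2)
  have h6 : 0 ≤ 1 / N ^ 3 - l / N ^ 2 + l ^ 2 / (3 * N) := by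
    have e1 : 0 ≤ 1 / N ^ 3 := by positivity
    have e2 : 0 ≤ -l / N ^ 2 := div_nonneg (by linarith) (by positivity)
    have e3 : 0 ≤ l ^ 2 / (3 * N) := by positivity
    have : l / N ^ 2 = -(-l / N ^ 2) := by ring
    linarith
  have h7 : (1 / N ^ 3 - l / N ^ 2 + l ^ 2 / (3 * N)) * Real.exp (N * l / 2) ≤ 6 / N ^ 3 := by
    have e : (1 / N ^ 3 - l / N ^ 2 + l ^ 2 / (3 * N)) * Real.exp (N * l / 2) =
        (Real.exp (N * l / 2) + 2 * (-(N * l / 2) * Real.exp (N * l / 2)) +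
          4 / 3 * ((-(N * l / 2)) ^ 2 * Real.exp (N * l / 2))) / N ^ 3 := by
      field_simp
      ring
    rw [e]
    apply div_le_div_of_nonneg_right _ (by positivity)
    linarith
  unfold tm
  rw [abs_mul, ← hNd, ← hl, abs_of_nonneg h6]
  calc (1 / N ^ 3 - l / N ^ 2 + l ^ 2 / (3 * N)) * |(z ^ (n + 1)).re| ≤
      (1 / N ^ 3 - l / N ^ 2 + l ^ 2 / (3 * N)) *
        (Real.exp (N * l / 2) * Real.exp (N * l / 2)) := by gcongr
    _ = (1 / N ^ 3 - l / N ^ 2 + l ^ 2 / (3 * N)) * Real.exp (N * l / 2) *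
        Real.exp (N * l / 2) := by ring
    _ ≤ 6 / N ^ 3 * √‖z‖ := by gcongr
    _ = √‖z‖ * (6 / N ^ 3) := mul_comm _ _

theorem summable_bd : Summable fun n : ℕ => 6 / ((n : ℝ) + 1) ^ 3 := by
  have h := (summable_nat_add_iff 1).2 (Real.summable_one_div_nat_pow.2 (by norm_num : 1 < 3))
  refine (h.mul_left 6).congr fun n => ?_
  push_cast
  ring

/-- the constant -/
noncomputable def CT : ℝ := ∑' n : ℕ, 6 / ((n : ℝ) + 1) ^ 3

theorem CT_nonneg : 0 ≤ CT := tsum_nonneg fun n => by positivity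

theorem T0_le {z : ℂ} (hz : ‖z‖ ≤ 1) : |T0 z| ≤ CT * √‖z‖ := by
  rw [T0_def, ← Real.norm_eq_abs]
  have h : ∀ n, ‖tm n z‖ ≤ √‖z‖ * (6 / ((n : ℝ) + 1) ^ 3) := fun n => by
    rw [Real.norm_eq_abs]
    exact tm_le n hz
  refine (tsum_of_norm_bounded (summable_bd.mul_left _).hasSum h).trans ?_
  rw [tsum_mul_left, mul_comm]
  exact le_rfl

theorem continuousOn_tm (n : ℕ) : ContinuousOn (tm n) {0}ᶜ := by
  unfold tm
  have h1 : ContinuousOn (fun z : ℂ => Real.log ‖z‖) {0}ᶜ := by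
    intro z hz
    exact (continuousAt_id.norm.log (norm_ne_zero_iff.2 hz)).continuousWithinAt
  have h2 : ContinuousOn (fun z : ℂ => (z ^ (n + 1)).re) {0}ᶜ :=
    (Complex.continuous_re.comp (continuous_id.pow (n + 1))).continuousOn
  exact ((continuousOn_const.sub (h1.div_const _)).add ((h1.pow 2).div_const _)).mul h2

theorem continuousOn_T0 : ContinuousOn T0 {z : ℂ | z ≠ 0 ∧ ‖z‖ ≤ 1} := by
  refine continuousOn_tsum (u := fun n : ℕ => 6 / ((n : ℝ) + 1) ^ 3)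
    (fun n => (continuousOn_tm n).mono fun z hz => hz.1) summable_bd ?_
  rintro n z ⟨-, hz⟩
  rw [Real.norm_eq_abs]
  refine (tm_le n hz).trans ?_
  have h1 : √‖z‖ ≤ 1 := Real.sqrt_le_one.2 hz
  have h2 : 0 ≤ 6 / ((n : ℝ) + 1) ^ 3 := by positivity
  nlinarith

theorem T0_conj (z : ℂ) : T0 ((starRingEnd ℂ) z) = T0 z := by
  unfold T0
  refine tsum_congr fun n => ?_
  rw [Complex.norm_conj, ← map_pow, Complex.conj_re]

/-- the projection to the closed disk -/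
noncomputable def pr (z : ℂ) : ℂ := z / ((max 1 (‖z‖ ^ 2) : ℝ) : ℂ)

theorem pr_of_le {z : ℂ} (h : ‖z‖ ≤ 1) : pr z = z := by
  unfold pr
  rw [max_eq_left (by nlinarith [norm_nonneg z]), Complex.ofReal_one, div_one]

theorem pr_of_gt {z : ℂ} (h : 1 < ‖z‖) : pr z = (starRingEnd ℂ) z⁻¹ := by
  unfold pr
  have h0 : z ≠ 0 := norm_pos_iff.1 (one_pos.trans h)
  rw [max_eq_right (by nlinarith), map_inv₀, ← Complex.normSq_eq_norm_sq, Complex.inv_def,
    Complex.normSq_conj, Complex.conj_conj, Complex.ofReal_inv, div_eq_mul_inv]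

theorem norm_pr (z : ℂ) : ‖pr z‖ ≤ 1 := by
  rcases le_or_gt ‖z‖ 1 with h | h
  · rwa [pr_of_le h]
  · rw [pr_of_gt h, Complex.norm_conj, norm_inv]
    exact inv_le_one_of_one_le₀ h.le

theorem pr_ne {z : ℂ} (h : z ≠ 0) : pr z ≠ 0 := by
  unfold pr
  refine div_ne_zero h ?_
  rw [Complex.ofReal_ne_zero]
  have := le_max_left 1 (‖z‖ ^ 2)
  linarith

theorem T_eq_pr (z : ℂ) : T z = T0 (pr z) := by
  unfold T
  split_ifs with h
  · rw [pr_of_le h]
  · rw [not_le] at h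
    rw [pr_of_gt h, T0_conj]

theorem continuous_pr : Continuous pr := by
  unfold pr
  refine continuous_id.div (Complex.continuous_ofReal.comp (by fun_prop)) fun z => ?_
  rw [Complex.ofReal_ne_zero]
  have := le_max_left 1 (‖z‖ ^ 2)
  linarith

theorem continuousOn_T : ContinuousOn T {0}ᶜ := by
  have h : T = fun z => T0 (pr z) := funext T_eq_pr
  rw [h]
  exact continuousOn_T0.comp continuous_pr.continuousOn fun z hz => ⟨pr_ne hz, norm_pr z⟩

theorem contAt_T {z : ℂ} (h : z ≠ 0) : ContinuousAt T z :=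
  continuousOn_T.continuousAt (isOpen_compl_singleton.mem_nhds h)

theorem T_le (z : ℂ) : |T z| ≤ CT := by
  rw [T_eq_pr]
  refine (T0_le (norm_pr z)).trans ?_
  have h1 : √‖pr z‖ ≤ 1 := Real.sqrt_le_one.2 (norm_pr z)
  have h2 := CT_nonneg
  nlinarith

theorem T_le_of_gt {z : ℂ} (h : 1 < ‖z‖) : |T z| ≤ CT * √(‖z‖⁻¹) := by
  unfold T
  rw [if_neg (not_le.2 h)]
  refine (T0_le ?_).trans_eq ?_
  · rw [norm_inv]
    exact inv_le_one_of_one_le₀ h.le
  · rw [norm_inv]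

theorem T_inv (z : ℂ) : T z⁻¹ = T z := by
  rcases lt_trichotomy ‖z‖ 1 with h | h | h
  · by_cases h0 : z = 0
    · rw [h0, inv_zero]
    have h1 : ¬ ‖z⁻¹‖ ≤ 1 := by
      rw [norm_inv, not_le]
      exact (one_lt_inv₀ (norm_pos_iff.2 h0)).2 h
    unfold T
    rw [if_neg h1, if_pos h.le, inv_inv]
  · have h1 : ‖z⁻¹‖ ≤ 1 := by rw [norm_inv, h, inv_one]
    unfold T
    rw [if_pos h1, if_pos h.le]
    have h2 : z⁻¹ = (starRingEnd ℂ) z := by
      rw [Complex.inv_def, Complex.normSq_eq_norm_sq, h]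
      simp
    rw [h2, T0_conj]
  · have h1 : ‖z⁻¹‖ ≤ 1 := by
      rw [norm_inv]
      exact inv_le_one_of_one_le₀ h.le
    unfold T
    rw [if_neg (not_le.2 h), if_pos h1]

theorem T_conj (z : ℂ) : T ((starRingEnd ℂ) z) = T z := by
  unfold T
  rw [Complex.norm_conj, ← map_inv₀, T0_conj, T0_conj]

end term

section series

/-- term by term integration of a power series -/
theorem prim_series {h : ℂ → ℂ} {b : ℕ → ℝ} (hb : ∀ n, |b n| ≤ 1)
    (hs : ∀ w : ℂ, w ≠ 0 → ‖w‖ < 1 → HasSum (fun n : ℕ => (b n : ℂ) * w ^ n) (h w))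
    {z : ℂ} (h0 : z ≠ 0) (hz : ‖z‖ < 1) :
    HasSum (fun n : ℕ => (b n : ℂ) / ((n : ℂ) + 1) * z ^ (n + 1)) (∫ t in (0 : ℝ)..1, z * h (t * z)) := by
  have hsum : Summable fun n : ℕ => ‖z‖ ^ (n + 1) := by
    simpa [pow_succ] using (summable_geometric_of_lt_one (norm_nonneg z) hz).mul_right ‖z‖
  have key := intervalIntegral.hasSum_integral_of_dominated_convergence (μ := volume) (a := 0)
    (b := 1) (F := fun (n : ℕ) (t : ℝ) => z * ((b n : ℂ) * ((t : ℂ) * z) ^ n))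
    (f := fun t : ℝ => z * h (t * z)) (fun n _ => ‖z‖ ^ (n + 1)) (fun n => by
      refine Continuous.aestronglyMeasurable ?_
      fun_prop) (fun n => Eventually.of_forall fun t ht => by
      rw [uIoc_of_le zero_le_one] at ht
      rw [norm_mul, norm_mul, norm_pow, norm_mul, Complex.norm_real, Complex.norm_real,
        Real.norm_eq_abs, Real.norm_of_nonneg ht.1.le]
      have h1 : t * ‖z‖ ≤ ‖z‖ := by nlinarith [ht.2, norm_nonneg z]
      have h2 : (t * ‖z‖) ^ n ≤ ‖z‖ ^ n :=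
        pow_le_pow_left₀ (mul_nonneg ht.1.le (norm_nonneg z)) h1 n
      calc ‖z‖ * (|b n| * (t * ‖z‖) ^ n) ≤ ‖z‖ * (1 * ‖z‖ ^ n) := by
            have := hb n
            have h3 : 0 ≤ (t * ‖z‖) ^ n := pow_nonneg (mul_nonneg ht.1.le (norm_nonneg z)) n
            gcongr
        _ = ‖z‖ ^ (n + 1) := by ring)
    (Eventually.of_forall fun t _ => hsum) intervalIntegrable_const
    (Eventually.of_forall fun t ht => by
      rw [uIoc_of_le zero_le_one] at ht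
      have h1 : (t : ℂ) * z ≠ 0 := mul_ne_zero (by exact_mod_cast ht.1.ne') h0
      have h2 : ‖(t : ℂ) * z‖ < 1 := by
        rw [norm_mul, Complex.norm_real, Real.norm_of_nonneg ht.1.le]
        nlinarith [ht.2, norm_nonneg z]
      exact (hs _ h1 h2).mul_left z)
  have e : ∀ n : ℕ, (∫ t in (0 : ℝ)..1, z * ((b n : ℂ) * ((t : ℂ) * z) ^ n)) =
      (b n : ℂ) / ((n : ℂ) + 1) * z ^ (n + 1) := by
    intro n
    have e1 : (fun t : ℝ => z * ((b n : ℂ) * ((t : ℂ) * z) ^ n)) =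
        fun t : ℝ => ((b n : ℂ) * z ^ (n + 1)) * ((t ^ n : ℝ) : ℂ) := by
      funext t
      push_cast
      ring
    rw [e1, intervalIntegral.integral_const_mul, intervalIntegral.integral_ofReal, integral_pow]
    push_cast
    rw [one_pow, zero_pow (Nat.succ_ne_zero n)]
    ring
  simpa only [e] using key

theorem hasSum_gfun {w : ℂ} (h0 : w ≠ 0) (hw : ‖w‖ < 1) :
    HasSum (fun n : ℕ => (((1 / ((n : ℝ) + 1) : ℝ)) : ℂ) * w ^ n) (gfun w) := by
  rw [gfun_of_ne h0]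
  have h1 := Complex.hasSum_taylorSeries_neg_log hw
  have h2 := (hasSum_nat_add_iff' (f := fun n : ℕ => w ^ n / (n : ℂ)) 1).2 h1
  rw [Finset.sum_range_one, Nat.cast_zero, div_zero, sub_zero] at h2
  have h3 := h2.div_const w
  have e : (fun n : ℕ => (((1 / ((n : ℝ) + 1) : ℝ)) : ℂ) * w ^ n) =
      fun n : ℕ => w ^ (n + 1) / ((n + 1 : ℕ) : ℂ) / w := by
    funext n
    have hn : ((n : ℂ) + 1) ≠ 0 := by exact_mod_cast Nat.succ_ne_zero n
    push_cast
    rw [pow_succ]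
    field_simp
  rw [e]
  exact h3

theorem abs_b_le (k n : ℕ) : |1 / ((n : ℝ) + 1) ^ k| ≤ 1 := by
  have h : (1 : ℝ) ≤ ((n : ℝ) + 1) ^ k :=
    one_le_pow₀ (by linarith [(Nat.cast_nonneg n : (0 : ℝ) ≤ n)])
  rw [abs_of_nonneg (by positivity)]
  rw [div_le_one (by linarith)]
  exact h

theorem hasSum_Li {z : ℂ} (h0 : z ≠ 0) (hz : ‖z‖ < 1) :
    HasSum (fun n : ℕ => (((1 / ((n : ℝ) + 1) ^ 2 : ℝ)) : ℂ) * z ^ (n + 1)) (Li z) := by
  have h := prim_series (h := gfun) (b := fun n => 1 / ((n : ℝ) + 1))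
    (fun n => by simpa using abs_b_le 1 n) (fun w hw0 hw => hasSum_gfun hw0 hw) h0 hz
  have e : (fun n : ℕ => (((1 / ((n : ℝ) + 1) ^ 2 : ℝ)) : ℂ) * z ^ (n + 1)) =
      fun n : ℕ => ((1 / ((n : ℝ) + 1) : ℝ) : ℂ) / ((n : ℂ) + 1) * z ^ (n + 1) := by
    funext n
    have hn : ((n : ℂ) + 1) ≠ 0 := by exact_mod_cast Nat.succ_ne_zero n
    push_cast
    field_simp
  rw [e]
  exact h

theorem hasSum_g3 {w : ℂ} (h0 : w ≠ 0) (hw : ‖w‖ < 1) :
    HasSum (fun n : ℕ => (((1 / ((n : ℝ) + 1) ^ 2 : ℝ)) : ℂ) * w ^ n) (g3 w) := by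
  rw [g3_of_ne h0]
  have h := (hasSum_Li h0 hw).div_const w
  have e : (fun n : ℕ => (((1 / ((n : ℝ) + 1) ^ 2 : ℝ)) : ℂ) * w ^ n) =
      fun n : ℕ => (((1 / ((n : ℝ) + 1) ^ 2 : ℝ)) : ℂ) * w ^ (n + 1) / w := by
    funext n
    rw [pow_succ w n, ← mul_assoc, mul_div_cancel_right₀ _ h0]
  rw [e]
  exact h

theorem hasSum_Li3 {z : ℂ} (h0 : z ≠ 0) (hz : ‖z‖ < 1) :
    HasSum (fun n : ℕ => (((1 / ((n : ℝ) + 1) ^ 3 : ℝ)) : ℂ) * z ^ (n + 1)) (Li3 z) := by
  have h := prim_series (h := g3) (b := fun n => 1 / ((n : ℝ) + 1) ^ 2)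
    (fun n => abs_b_le 2 n) (fun w hw0 hw => hasSum_g3 hw0 hw) h0 hz
  have e : (fun n : ℕ => (((1 / ((n : ℝ) + 1) ^ 3 : ℝ)) : ℂ) * z ^ (n + 1)) =
      fun n : ℕ => ((1 / ((n : ℝ) + 1) ^ 2 : ℝ) : ℂ) / ((n : ℂ) + 1) * z ^ (n + 1) := by
    funext n
    have hn : ((n : ℂ) + 1) ≠ 0 := by exact_mod_cast Nat.succ_ne_zero n
    push_cast
    field_simp
  rw [e]
  exact h

theorem hasSum_log {z : ℂ} (hz : ‖z‖ < 1) :
    HasSum (fun n : ℕ => (((1 / ((n : ℝ) + 1) : ℝ)) : ℂ) * z ^ (n + 1)) (-Complex.log (1 - z)) := by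
  have h1 := Complex.hasSum_taylorSeries_neg_log hz
  have h2 := (hasSum_nat_add_iff' (f := fun n : ℕ => z ^ n / (n : ℂ)) 1).2 h1
  rw [Finset.sum_range_one, Nat.cast_zero, div_zero, sub_zero] at h2
  have e : (fun n : ℕ => (((1 / ((n : ℝ) + 1) : ℝ)) : ℂ) * z ^ (n + 1)) =
      fun n : ℕ => z ^ (n + 1) / ((n + 1 : ℕ) : ℂ) := by
    funext n
    push_cast
    ring
  rw [e]
  exact h2

theorem T0_eq_M1_lt {z : ℂ} (h0 : z ≠ 0) (hz : ‖z‖ < 1) : T0 z = -M1 z := by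
  have h1 := Complex.hasSum_re (hasSum_Li3 h0 hz)
  have h2 := Complex.hasSum_re (hasSum_Li h0 hz)
  have h3 := Complex.hasSum_re (hasSum_log hz)
  have h4 := (h1.sub (h2.mul_left (Real.log ‖z‖))).add (h3.mul_left (Real.log ‖z‖ ^ 2 / 3))
  have e : (fun n : ℕ => ((((1 / ((n : ℝ) + 1) ^ 3 : ℝ)) : ℂ) * z ^ (n + 1)).re -
      Real.log ‖z‖ * ((((1 / ((n : ℝ) + 1) ^ 2 : ℝ)) : ℂ) * z ^ (n + 1)).re +
      Real.log ‖z‖ ^ 2 / 3 * ((((1 / ((n : ℝ) + 1) : ℝ)) : ℂ) * z ^ (n + 1)).re) =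
      fun n => tm n z := by
    funext n
    rw [Complex.re_ofReal_mul, Complex.re_ofReal_mul, Complex.re_ofReal_mul]
    unfold tm
    have hn : ((n : ℝ) + 1) ≠ 0 := by positivity
    field_simp
  rw [e] at h4
  rw [T0_def, h4.tsum_eq]
  unfold M1
  rw [Complex.neg_re, Complex.log_re]
  ring

theorem mem_S1_of_le {z : ℂ} (hz : ‖z‖ ≤ 1) (h1 : z ≠ 1) : z ∈ S1 := by
  by_contra h
  obtain ⟨h2, h3⟩ := not_mem_S1 h
  have h4 := Complex.abs_re_le_norm z
  have h5 : z.re = 1 := by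
    have := (abs_le.1 (h4.trans hz)).2
    linarith
  apply h1
  rw [h2, h5, Complex.ofReal_one]

theorem T0_eq_M1 {z : ℂ} (h0 : z ≠ 0) (hz : ‖z‖ ≤ 1) (h1 : z ≠ 1) : T0 z = -M1 z := by
  rcases lt_or_eq_of_le hz with h | h
  · exact T0_eq_M1_lt h0 h
  have hd : HasDerivAt (fun t : ℝ => (t : ℂ) * z) (1 * z) 1 :=
    (Complex.ofRealCLM.hasDerivAt (x := (1 : ℝ))).mul_const z
  have hS : ((1 : ℝ) : ℂ) * z ∈ S1 := by
    rw [Complex.ofReal_one, one_mul]
    exact mem_S1_of_le hz h1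
  have c1 : ContinuousAt (fun t : ℝ => M1 ((t : ℂ) * z)) 1 :=
    (hasDerivAt_M1 hd (by simpa using h0) hS).continuousAt
  have c2 : Tendsto (fun t : ℝ => T0 ((t : ℂ) * z)) (𝓝[<] 1) (𝓝 (T0 z)) := by
    have h2 : Tendsto (fun t : ℝ => (t : ℂ) * z) (𝓝[<] 1) (𝓝[{w : ℂ | w ≠ 0 ∧ ‖w‖ ≤ 1}] z) := by
      rw [tendsto_nhdsWithin_iff]
      constructor
      · have h3 : Tendsto (fun t : ℝ => (t : ℂ) * z) (𝓝 1) (𝓝 (((1 : ℝ) : ℂ) * z)) :=
          hd.continuousAt.tendsto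
        rw [Complex.ofReal_one, one_mul] at h3
        exact h3.mono_left nhdsWithin_le_nhds
      · filter_upwards [Ioo_mem_nhdsLT (show (0 : ℝ) < 1 by norm_num)] with t ht
        refine ⟨mul_ne_zero (by exact_mod_cast ht.1.ne') h0, ?_⟩
        rw [norm_mul, Complex.norm_real, Real.norm_of_nonneg ht.1.le, h, mul_one]
        exact ht.2.le
    exact Tendsto.comp (continuousOn_T0 z ⟨h0, hz⟩) h2
  have c3 : Tendsto (fun t : ℝ => -M1 ((t : ℂ) * z)) (𝓝[<] 1) (𝓝 (-M1 z)) := by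
    have h3 : Tendsto (fun t : ℝ => -M1 ((t : ℂ) * z)) (𝓝 1) (𝓝 (-M1 (((1 : ℝ) : ℂ) * z))) :=
      c1.neg.tendsto
    rw [Complex.ofReal_one, one_mul] at h3
    exact h3.mono_left nhdsWithin_le_nhds
  refine tendsto_nhds_unique c2 (c3.congr' ?_)
  filter_upwards [Ioo_mem_nhdsLT (show (0 : ℝ) < 1 by norm_num)] with t ht
  refine (T0_eq_M1_lt (mul_ne_zero (by exact_mod_cast ht.1.ne') h0) ?_).symm
  rw [norm_mul, Complex.norm_real, Real.norm_of_nonneg ht.1.le, h, mul_one]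
  exact ht.2

theorem T_eq_Mf {z : ℂ} (h0 : z ≠ 0) (h1 : z ≠ 1) : T z = -Mf z := by
  unfold T Mf
  split_ifs with h2 h3 h3
  · exact T0_eq_M1 h0 h2 h1
  · exact absurd (mem_S1_of_le h2 h1) h3
  · rw [T0_eq_M1 (inv_ne_zero h0) _ (by simpa using h1), M1_eq_M2 (z := z)]
    · rfl
    · rw [not_le] at h2
      rw [Complex.mem_slitPlane_iff]
      by_contra h4
      push Not at h4
      obtain ⟨h4, h5⟩ := h4
      rw [Complex.neg_re] at h4
      rw [Complex.neg_im, neg_eq_zero] at h5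
      have h6 : z = (z.re : ℂ) := Complex.ext rfl (by rw [h5, Complex.ofReal_im])
      have h7 : 1 < z.re := by
        rw [h6, Complex.norm_real, Real.norm_eq_abs, abs_of_nonneg (by linarith)] at h2
        exact h2
      have h8 : z ∉ S1 := by
        intro h
        have : (1 : ℂ) - z ∈ Complex.slitPlane := h
        rw [Complex.mem_slitPlane_iff, Complex.sub_re, Complex.sub_im, h5] at this
        simp at this
        linarith
      exact h8 h3
    · rw [norm_inv]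
      exact inv_le_one_of_one_le₀ (not_le.1 h2).le
  · rw [T0_eq_M1 (inv_ne_zero h0) _ (by simpa using h1)]
    · rfl
    · rw [norm_inv]
      exact inv_le_one_of_one_le₀ (not_le.1 h2).le

/-- The derivative of the trilogarithm along a path. -/
theorem hasDerivAt_T {u : ℝ → ℂ} {u' : ℂ} {t : ℝ} (hu : HasDerivAt u u' t)
    (h0 : u t ≠ 0) (h1 : u t ≠ 1) : HasDerivAt (fun s => T (u s)) (-tau (u t) u') t := by
  refine (hasDerivAt_Mf hu h0 h1).neg.congr_of_eventuallyEq ?_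
  filter_upwards [hu.continuousAt.preimage_mem_nhds (isOpen_ne.mem_nhds h0),
    hu.continuousAt.preimage_mem_nhds (isOpen_ne.mem_nhds h1)] with s h2 h3
  exact T_eq_Mf h2 h3

end series

end Pool.Agent.P8H1.SF
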