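import Pool.Agent.P8H1.SF.Fun
set_option autoImplicit false

/-!
The Bloch-Wigner function `D`: continuity, symmetries, positivity.
-/

namespace Pool.Agent.P8H1.SF

open Real Set Filter Topology MeasureTheory
open Pool.Agent.N65.TK
open Pool.Agent.W367.KT
open Pool.Agent.P8H1.KC (arg_div_le D_inv)
open Pool.Agent.P8H1.EK (contAt_D D_conj')

theorem contAt_D_one : ContinuousAt D 1 := by
  have h1 : ContinuousAt (fun z : ℂ => -∫ t in (0 : ℝ)..1, Complex.arg (1 - t * z) / t) 1 := by
    refine ContinuousAt.neg ?_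
    refine intervalIntegral.continuousAt_of_dominated_interval (bound := fun _ => 4 * π) ?_ ?_
      intervalIntegrable_const ?_
    · refine Eventually.of_forall fun x => ?_
      refine Measurable.aestronglyMeasurable ?_
      refine Measurable.div (Complex.measurable_arg.comp ?_) measurable_id
      exact (measurable_const.sub (Complex.measurable_ofReal.mul measurable_const))
    · have h2 : ∀ᶠ z : ℂ in 𝓝 1, ‖z‖ < 2 :=
        (continuous_norm.continuousAt (x := (1 : ℂ))).eventually (Iio_mem_nhds (by simp))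
      filter_upwards [h2] with z hz
      refine Eventually.of_forall fun t ht => ?_
      rw [uIoc_of_le zero_le_one] at ht
      have h1 := arg_div_le (z := z) ht
      have hpi := Real.pi_pos
      rw [norm_div, Real.norm_eq_abs, Real.norm_eq_abs, abs_of_pos ht.1, div_le_iff₀ ht.1]
      refine h1.trans ?_
      have : 2 * π * ‖z‖ * t ≤ 2 * π * 2 * t := by
        have := ht.1.le
        gcongr
      linarith
    · have hc : ({1} : Set ℝ).Countable := countable_singleton 1
      filter_upwards [hc.ae_notMem volume] with t ht1 ht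
      rw [uIoc_of_le zero_le_one] at ht
      have ht2 : t < 1 := lt_of_le_of_ne ht.2 fun h => ht1 h
      have h2 : ContinuousAt (fun z : ℂ => (1 : ℂ) - t * z) 1 := by fun_prop
      have h3 : (1 : ℂ) - t * 1 ∈ Complex.slitPlane := by
        left
        simp [ht2]
      have h4 : ContinuousAt (fun z : ℂ => Complex.arg (1 - t * z)) 1 :=
        ContinuousAt.comp (g := Complex.arg) (Complex.continuousAt_arg h3) h2
      exact h4.div_const t
  have h2 : Tendsto (fun z : ℂ => Complex.arg (1 - z) * Real.log ‖z‖) (𝓝 1) (𝓝 0) := by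
    have h3 : Tendsto (fun z : ℂ => Real.log ‖z‖) (𝓝 1) (𝓝 0) := by
      have h4 : ContinuousAt (fun z : ℂ => Real.log ‖z‖) 1 :=
        (continuous_norm.continuousAt).log (by simp)
      have h5 := h4.tendsto
      rwa [norm_one, Real.log_one] at h5
    refine squeeze_zero_norm (a := fun z : ℂ => π * |Real.log ‖z‖|) (fun z => ?_) ?_
    · rw [norm_mul, Real.norm_eq_abs, Real.norm_eq_abs]
      exact mul_le_mul_of_nonneg_right (Complex.abs_arg_le_pi _) (abs_nonneg _)
    · have h6 := (h3.abs).const_mul π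
      rwa [abs_zero, mul_zero] at h6
  have h3 : ContinuousAt (fun z : ℂ => Complex.arg (1 - z) * Real.log ‖z‖) 1 := by
    have : Complex.arg (1 - (1 : ℂ)) * Real.log ‖(1 : ℂ)‖ = 0 := by simp
    show Tendsto _ _ (𝓝 (Complex.arg (1 - (1 : ℂ)) * Real.log ‖(1 : ℂ)‖))
    rw [this]
    exact h2
  exact h1.add h3

theorem contAt_D' {z : ℂ} (h : z ≠ 0) : ContinuousAt D z := by
  by_cases h1 : z = 1
  · rw [h1]
    exact contAt_D_one
  · exact contAt_D h h1

theorem continuousOn_D : ContinuousOn D {0}ᶜ := fun _ hz => (contAt_D' hz).continuousWithinAt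

theorem D_eq_zero_of_im {z : ℂ} (h : z.im = 0) : D z = 0 := by
  have h1 : z = (z.re : ℂ) := Complex.ext rfl (by rw [h, Complex.ofReal_im])
  rw [h1, D_real]

theorem D_inv' (z : ℂ) : D z⁻¹ = -D z := by
  by_cases h : z.im = 0
  · rw [D_eq_zero_of_im h, D_eq_zero_of_im, neg_zero]
    rw [Complex.inv_im, h]
    simp
  · exact D_inv h

theorem D_one_sub (z : ℂ) : D (1 - z) = -D z := by
  by_cases h : z.im = 0
  · rw [D_eq_zero_of_im h, D_eq_zero_of_im, neg_zero]
    rw [Complex.sub_im, h]
    simp
  · have hlin : ∀ t : ℝ, HasDerivAt (fun s : ℝ => z + s * (2 - z)) (2 - z) t := by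
      intro t
      have h1 : HasDerivAt (fun s : ℝ => (s : ℂ)) 1 t := Complex.ofRealCLM.hasDerivAt
      simpa using (h1.mul_const ((2 : ℂ) - z)).const_add z
    have him : ∀ t : ℝ, (z + t * (2 - z)).im = (1 - t) * z.im := by
      intro t
      simp
      ring
    have hne : ∀ t ∈ Icc (0 : ℝ) 1, z + t * (2 - z) ≠ 0 ∧ z + t * (2 - z) ≠ 1 := by
      intro t _
      have h0 : ∀ a : ℝ, z + t * (2 - z) = a → (2 : ℝ) = a := by
        intro a ha
        have h1 := him t
        rw [ha, Complex.ofReal_im] at h1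
        have h2 : t = 1 := by
          have := (mul_eq_zero.1 h1.symm).resolve_right h
          linarith
        rw [h2, Complex.ofReal_one, one_mul, add_sub_cancel] at ha
        exact_mod_cast ha
      constructor
      · intro h1
        have := h0 0 (by rw [h1]; simp)
        norm_num at this
      · intro h1
        have := h0 1 (by rw [h1]; simp)
        norm_num at this
    have key := is_const_of_deriv_eq_zero_on_Icc
      (fun s => D (z + s * (2 - z)) + D (1 - (z + s * (2 - z)))) (fun t ht => by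
        obtain ⟨h0, h1⟩ := hne t ht
        have h2 : 1 - (z + t * (2 - z)) ≠ 0 := sub_ne_zero.2 (Ne.symm h1)
        have h3 : 1 - (z + t * (2 - z)) ≠ 1 := by
          intro h4
          apply h0
          linear_combination -h4
        have d1 := hasDerivAt_D (hlin t) h0 h1
        have d2 := hasDerivAt_D ((hlin t).const_sub 1) h2 h3
        refine (d1.add d2).congr_deriv ?_
        unfold eta
        have e1 : 1 - (1 - (z + t * (2 - z))) = z + t * (2 - z) := by ring
        rw [e1, neg_neg]
        ring)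
    have e1 : z + ((1 : ℝ) : ℂ) * (2 - z) = ((2 : ℝ) : ℂ) := by push_cast; ring
    have e2 : z + ((0 : ℝ) : ℂ) * (2 - z) = z := by push_cast; ring
    have e3 : (1 : ℂ) - ((2 : ℝ) : ℂ) = ((-1 : ℝ) : ℂ) := by push_cast; norm_num
    simp only [e1, e2, e3, D_real] at key
    linarith

theorem D_pos {z : ℂ} (hz : 0 < z.im) : 0 < D z := by
  have key : ∀ w : ℂ, 0 < w.im → ‖w‖ ≤ 1 → 0 < D w := by
    intro w hw hw1
    have harg : ∀ t : ℝ, 0 < t → Complex.arg (1 - t * w) < 0 := by
      intro t ht
      rw [Complex.arg_neg_iff]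
      simp
      positivity
    have h0 : w ≠ 0 := by
      intro h
      rw [h] at hw
      simp at hw
    have hS : w ∈ S1 := by
      right
      rw [Complex.sub_im, Complex.one_im, zero_sub]
      exact (neg_ne_zero.2 hw.ne')
    have hint : IntervalIntegrable (fun t : ℝ => -(Complex.arg (1 - t * w) / t)) volume 0 1 := by
      have hcont : ContinuousOn (fun t : ℝ => (w * gfun (t * w)).im) (Icc 0 1) := by
        refine Complex.continuous_im.comp_continuousOn ?_
        refine ContinuousOn.mul continuousOn_const ?_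
        refine differentiableOn_gfun.continuousOn.comp (f := fun t : ℝ => (t : ℂ) * w) (by fun_prop) ?_
        intro t ht
        exact star_S1 w hS t ht
      have hi : IntervalIntegrable (fun t : ℝ => (w * gfun (t * w)).im) volume 0 1 := by
        apply ContinuousOn.intervalIntegrable
        rwa [uIcc_of_le zero_le_one]
      refine (intervalIntegrable_congr ?_).1 hi
      intro t ht
      rw [uIoc_of_le zero_le_one] at ht
      have ht0 : (t : ℂ) ≠ 0 := by exact_mod_cast ht.1.ne'
      simp only []
      rw [gfun_of_ne (mul_ne_zero ht0 h0)]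
      have h4 : w * (-Complex.log (1 - t * w) / (t * w)) = -Complex.log (1 - t * w) / (t : ℂ) := by
        field_simp
      rw [h4, Complex.div_ofReal_im, Complex.neg_im, Complex.log_im, neg_div]
    have h2 : 0 < ∫ t in (0 : ℝ)..1, -(Complex.arg (1 - t * w) / t) := by
      refine intervalIntegral.intervalIntegral_pos_of_pos_on hint ?_ one_pos
      intro t ht
      have := harg t ht.1
      have h3 : Complex.arg (1 - t * w) / t < 0 := div_neg_of_neg_of_pos this ht.1
      linarith
    rw [intervalIntegral.integral_neg] at h2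
    unfold D
    have h3 : 0 ≤ Complex.arg (1 - w) * Real.log ‖w‖ := by
      have h4 := harg 1 one_pos
      rw [Complex.ofReal_one, one_mul] at h4
      exact mul_nonneg_of_nonpos_of_nonpos h4.le (Real.log_nonpos (norm_nonneg w) hw1)
    linarith
  rcases le_or_gt ‖z‖ 1 with h | h
  · exact key z hz h
  · have h0 : z ≠ 0 := norm_pos_iff.1 (one_pos.trans h)
    have h1 := key ((starRingEnd ℂ) z⁻¹) (by
      rw [Complex.conj_im, Complex.inv_im, ← neg_div, neg_neg]
      exact div_pos hz (Complex.normSq_pos.2 h0)) (by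
      rw [Complex.norm_conj, norm_inv]
      exact inv_le_one_of_one_le₀ h.le)
    rwa [D_conj', D_inv', neg_neg] at h1

theorem D_mul_im_nonneg (z : ℂ) : 0 ≤ D z * z.im := by
  rcases lt_trichotomy z.im 0 with h | h | h
  · have h1 := D_pos (z := (starRingEnd ℂ) z) (by rw [Complex.conj_im]; linarith)
    rw [D_conj'] at h1
    nlinarith
  · rw [h, mul_zero]
  · exact (mul_pos (D_pos h) h).le

theorem D_mul_im_pos {z : ℂ} (h : z.im ≠ 0) : 0 < D z * z.im := by
  rcases lt_or_gt_of_ne h with h | h
  · have h1 := D_pos (z := (starRingEnd ℂ) z) (by rw [Complex.conj_im]; linarith)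
    rw [D_conj'] at h1
    nlinarith
  · exact mul_pos (D_pos h) h

/-- bound near infinity -/
theorem D_le_of_gt {z : ℂ} (h : 1 < ‖z‖) : |D z| ≤ 2 * π * (1 + Real.log ‖z‖) * ‖z‖⁻¹ := by
  have h0 : z ≠ 0 := norm_pos_iff.1 (one_pos.trans h)
  have e : |D z| = |D z⁻¹| := by rw [D_inv', abs_neg]
  rw [e]
  set u := z⁻¹ with hu
  have hun : ‖u‖ = ‖z‖⁻¹ := norm_inv z
  have hpi := Real.pi_pos
  have h2 : |∫ t in (0 : ℝ)..1, Complex.arg (1 - t * u) / t| ≤ 2 * π * ‖u‖ := by
    have h3 := intervalIntegral.norm_integral_le_of_norm_le_const (a := 0) (b := 1)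
      (f := fun t : ℝ => Complex.arg (1 - t * u) / t) (C := 2 * π * ‖u‖) fun t ht => by
        rw [uIoc_of_le zero_le_one] at ht
        rw [norm_div, Real.norm_eq_abs, Real.norm_eq_abs, abs_of_pos ht.1, div_le_iff₀ ht.1]
        exact arg_div_le ht
    rw [sub_zero, abs_one, mul_one, Real.norm_eq_abs] at h3
    exact h3
  have h3 : |Complex.arg (1 - u)| ≤ 2 * π * ‖u‖ := by
    have h4 := arg_div_le (z := u) (t := 1) ⟨one_pos, le_rfl⟩
    rwa [Complex.ofReal_one, one_mul, mul_one] at h4
  unfold D
  have h4 := abs_add_le (-∫ t in (0 : ℝ)..1, Complex.arg (1 - t * u) / t)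
    (Complex.arg (1 - u) * Real.log ‖u‖)
  rw [abs_neg] at h4
  have hlog : 0 ≤ Real.log ‖z‖ := Real.log_nonneg h.le
  have h5 : |Complex.arg (1 - u) * Real.log ‖u‖| ≤ 2 * π * ‖u‖ * Real.log ‖z‖ := by
    rw [abs_mul, hun, Real.log_inv, abs_neg, abs_of_nonneg hlog]
    rw [hun] at h3
    gcongr
  rw [← hun]
  calc _ ≤ _ := h4
    _ ≤ 2 * π * ‖u‖ + 2 * π * ‖u‖ * Real.log ‖z‖ := add_le_add h2 h5
    _ = _ := by ring

end Pool.Agent.P8H1.SF
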