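import Pool.Agent.P8H1.SF.Four
set_option autoImplicit false

/-!
The regulator along a closed path vanishes on the relations.
-/

namespace Pool.Agent.P8H1.SF

open Set MeasureTheory intervalIntegral Filter Topology
open scoped TensorProduct
open Pool.Agent.N65.TK (Pt UQ tu D Five Path five_zero five)

variable {A : Type*} [CommRing A]

section functionals

theorem e_ne_zero (e : A →+* ℂ) (f : Aˣ) : e f ≠ 0 := (f.isUnit.map e).ne_zero

theorem e_ne_one (e : A →+* ℂ) (f : Pt A) : e f.1 ≠ 1 := by
  intro h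
  have h1 := e_ne_zero e f.co
  have h2 : ((f.co : Aˣ) : A) = 1 - f.1 := rfl
  rw [h2, map_sub, map_one, h, sub_self] at h1
  exact h1 rfl

/-- The functional `{f}_2 ↦ D(f)` at a complex point. -/
noncomputable def LD (e : A →+* ℂ) : B2 A →ₗ[ℚ] ℝ :=
  (B2Rel A).liftQ (Finsupp.linearCombination ℚ fun f : Pt A => D (e f.1)) (by
    unfold B2Rel
    rw [Submodule.span_le]
    rintro s ((⟨x, y, a, b, c, ⟨ha, hb, hc⟩, rfl⟩ | ⟨f, g, h, rfl⟩) | ⟨f, g, h, rfl⟩)
    · rw [SetLike.mem_coe, LinearMap.mem_ker, map_add, map_sub, map_add, map_sub]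
      simp only [Finsupp.linearCombination_single, one_smul]
      have hy1 : e y.1 - 1 ≠ 0 := sub_ne_zero.2 (e_ne_one e y)
      have hy2 : 1 - e y.1 ≠ 0 := sub_ne_zero.2 (Ne.symm (e_ne_one e y))
      have va : e a.1 = e y.1 / e x.1 := by
        rw [eq_div_iff (e_ne_zero e _), ← map_mul, ha]
      have vb : e b.1 = (e x.1 - 1) * e y.1 / (e x.1 * (e y.1 - 1)) := by
        rw [eq_div_iff (mul_ne_zero (e_ne_zero e _) hy1)]
        have := congrArg e hb
        simpa only [map_mul, map_sub, map_one] using this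
      have vc : e c.1 = (1 - e x.1) / (1 - e y.1) := by
        rw [eq_div_iff hy2]
        have := congrArg e hc
        simpa only [map_mul, map_sub, map_one] using this
      have hxy : e x.1 ≠ e y.1 := by
        intro h
        apply e_ne_one e a
        rw [va, h, div_self (e_ne_zero e _)]
      have hfive := five_zero (e_ne_zero e x.1) (e_ne_one e x) (e_ne_zero e y.1) (e_ne_one e y) hxy
      unfold five at hfive
      rw [va, vb, vc]
      exact hfive
    · rw [SetLike.mem_coe, LinearMap.mem_ker, map_add]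
      simp only [Finsupp.linearCombination_single, one_smul]
      have h1 : e g.1 = (e f.1)⁻¹ := eq_inv_of_mul_eq_one_right (by rw [← map_mul, h, map_one])
      rw [h1, D_inv', add_neg_cancel]
    · rw [SetLike.mem_coe, LinearMap.mem_ker, map_add]
      simp only [Finsupp.linearCombination_single, one_smul]
      have h1 : e g.1 = 1 - e f.1 := by
        have h2 := congrArg e h
        rw [map_add, map_one] at h2
        linear_combination h2
      rw [h1, D_one_sub, add_neg_cancel])

theorem LD_cl (e : A →+* ℂ) (f : Pt A) : LD e (cl f) = D (e f.1) := by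
  show (B2Rel A).liftQ _ _ (Submodule.Quotient.mk _) = _
  rw [Submodule.liftQ_apply, Finsupp.linearCombination_single, one_smul]

/-- The functional on `A^* ⊗ ℚ` given by an additive functional on `A^*`. -/
noncomputable def LU (φ : Additive Aˣ →ₗ[ℤ] ℝ) : UQ A →ₗ[ℚ] ℝ :=
  TensorProduct.AlgebraTensorModule.lift
    (LinearMap.toSpanSingleton ℚ (Additive Aˣ →ₗ[ℤ] ℝ) φ)

theorem LU_tu (φ : Additive Aˣ →ₗ[ℤ] ℝ) (g : Aˣ) : LU φ (tu g) = φ (Additive.ofMul g) := by
  show TensorProduct.AlgebraTensorModule.lift _ ((1 : ℚ) ⊗ₜ[ℤ] Additive.ofMul g) = _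
  rw [TensorProduct.AlgebraTensorModule.lift_tmul, LinearMap.toSpanSingleton_apply, one_smul]

/-- the product of two functionals -/
noncomputable def LT (α : B2 A →ₗ[ℚ] ℝ) (β : UQ A →ₗ[ℚ] ℝ) : B2 A ⊗[ℚ] UQ A →ₗ[ℚ] ℝ :=
  (LinearMap.mul' ℚ ℝ).comp (TensorProduct.map α β)

theorem LT_tmul (α : B2 A →ₗ[ℚ] ℝ) (β : UQ A →ₗ[ℚ] ℝ) (b : B2 A) (u : UQ A) :
    LT α β (b ⊗ₜ u) = α b * β u := by
  unfold LT
  rw [LinearMap.comp_apply, TensorProduct.map_tmul, LinearMap.mul'_apply]

end functionals

section reg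

variable (γ : Path A)

/-- the real part of the logarithmic derivative, as a functional -/
noncomputable def lr (t : ℝ) : Additive Aˣ →ₗ[ℤ] ℝ :=
  AddMonoidHom.toIntLinearMap
    { toFun := fun g => (γ.ld g.toMul t).re
      map_zero' := by
        show (γ.ld (1 : Aˣ) t).re = 0
        have h := γ.ld_mul 1 1 t
        rw [mul_one] at h
        have : γ.ld (1 : Aˣ) t = 0 := by linear_combination -h
        rw [this, Complex.zero_re]
      map_add' := fun g h => by
        show (γ.ld (g.toMul * h.toMul) t).re = _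
        rw [γ.ld_mul, Complex.add_re] }

theorem lr_apply (t : ℝ) (g : Aˣ) : lr γ t (Additive.ofMul g) = (γ.ld g t).re := rfl

/-- the integrand -/
noncomputable def fr (f : Pt A) (g : Aˣ) (t : ℝ) : ℝ :=
  T (γ.e t f.1) * (γ.ld g t).im - 1 / 3 * D (γ.e t f.1) * γ.ln g t * (γ.ld f.1 t).re

theorem reg_br (f : Pt A) (g : Aˣ) : reg γ (br f g) = ∫ t in (0 : ℝ)..1, fr γ f g t := by
  unfold reg br
  rw [Finsupp.linearCombination_single, one_smul]
  rfl

theorem cont_T (f : Pt A) : Continuous fun t => T (γ.e t f.1) :=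
  continuous_iff_continuousAt.2 fun t =>
    ContinuousAt.comp (g := T) (contAt_T (γ.ne_zero f.1 t)) (γ.cont f.1).continuousAt

theorem cont_fr (f : Pt A) (g : Aˣ) : Continuous (fr γ f g) := by
  unfold fr
  have h1 := cont_T γ f
  have h1' := γ.cont_D f
  have h2 := Complex.continuous_im.comp (γ.cont_ld g)
  have h3 := γ.cont_ln g
  have h6 := Complex.continuous_re.comp (γ.cont_ld f.1)
  exact (h1.mul h2).sub (((continuous_const.mul h1').mul h3).mul h6)

theorem int_fr (f : Pt A) (g : Aˣ) : IntervalIntegrable (fr γ f g) volume 0 1 :=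
  (cont_fr γ f g).intervalIntegrable _ _

/-- The regulator along a closed path vanishes on the relations. -/
theorem reg_of_mem {s : FS A} (hs : s ∈ Rels A) : reg γ s = 0 := by
  have hle : Rels A ≤ LinearMap.ker (reg γ) := by
    unfold Rels
    rw [Submodule.span_le]
    rintro s ((⟨f, g, h, rfl⟩ | ⟨t, ⟨h1, h2⟩, g, rfl⟩) | ⟨f, rfl⟩)
    · rw [SetLike.mem_coe, LinearMap.mem_ker, map_sub, map_sub, reg_br, reg_br, reg_br,
        ← intervalIntegral.integral_sub (int_fr γ _ _) (int_fr γ _ _),
        ← intervalIntegral.integral_sub ((int_fr γ _ _).sub (int_fr γ _ _)) (int_fr γ _ _)]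
      refine (integral_congr (g := fun _ => (0 : ℝ)) fun t _ => ?_).trans
        intervalIntegral.integral_zero
      show fr γ f (g * h) t - fr γ f g t - fr γ f h t = 0
      unfold fr
      rw [γ.ld_mul, γ.ln_mul, Complex.add_im]
      ring
    · rw [SetLike.mem_coe, LinearMap.mem_ker, Finsupp.sum, map_sum]
      have e1 : ∀ f ∈ t.support, reg γ (t f • br f g) =
          ∫ τ in (0 : ℝ)..1, (t f : ℝ) * fr γ f g τ := by
        intro f _
        rw [map_smul, reg_br, intervalIntegral.integral_const_mul, Rat.smul_def]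
      rw [Finset.sum_congr rfl e1, ← intervalIntegral.integral_finsetSum fun f _ =>
        (int_fr γ f g).const_mul _]
      refine (integral_congr (g := fun _ => (0 : ℝ)) fun τ _ => ?_).trans
        intervalIntegral.integral_zero
      show ∑ f ∈ t.support, (t f : ℝ) * fr γ f g τ = 0
      have e2 := h2 (γ.e τ)
      rw [Finsupp.sum] at e2
      have e3 := congrArg (LT (LD (γ.e τ)) (LU (lr γ τ))) h1
      rw [map_zero] at e3
      unfold dif3 at e3
      rw [Finsupp.linearCombination_apply, Finsupp.sum, map_sum] at e3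
      have e4 : ∀ f ∈ t.support, LT (LD (γ.e τ)) (LU (lr γ τ)) (t f • (cl f ⊗ₜ[ℚ] tu f.1)) =
          (t f : ℝ) * (D (γ.e τ f.1) * (γ.ld f.1 τ).re) := by
        intro f _
        rw [map_smul, LT_tmul, LD_cl, LU_tu, lr_apply, Rat.smul_def]
      rw [Finset.sum_congr rfl e4] at e3
      have e5 : ∀ f ∈ t.support, (t f : ℝ) * fr γ f g τ =
          (t f : ℝ) * T (γ.e τ f.1) * (γ.ld g τ).im -
            (t f : ℝ) * (D (γ.e τ f.1) * (γ.ld f.1 τ).re) * (1 / 3 * γ.ln g τ) := by
        intro f _
        unfold fr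
        ring
      rw [Finset.sum_congr rfl e5, Finset.sum_sub_distrib, ← Finset.sum_mul, ← Finset.sum_mul, e2,
        e3]
      ring
    · rw [SetLike.mem_coe, LinearMap.mem_ker, reg_br]
      have h1 : ∀ t, HasDerivAt (fun s => Nf (γ.e s f.1)) (fr γ f f.1 t) t := by
        intro t
        exact hasDerivAt_Nf (γ.hd f.1 t) (γ.ne_zero f.1 t) (γ.ne_one f t)
      rw [integral_eq_sub_of_hasDerivAt (fun t _ => h1 t) (int_fr γ _ _)]
      have h2 : γ.e 1 = γ.e 0 := by
        have := γ.periodic 0
        rwa [zero_add] at this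
      rw [h2, sub_self]
  exact hle hs

end reg

end Pool.Agent.P8H1.SF
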