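import Pool.Agent.P8H1.SF.Stokes
set_option autoImplicit false

/-!
The limit at infinity of the integral along the dilated loops is `0`.
-/

namespace Pool.Agent.P8H1.SF

open Real Set Filter Topology MeasureTheory
open Pool.Agent.N65.TK
open Pool.Agent.W367.KT

theorem tendsto_T_inf {ι : Type*} {l : Filter ι} {f : ι → ℂ}
    (h : Tendsto (fun i => ‖f i‖) l atTop) : Tendsto (fun i => T (f i)) l (𝓝 0) := by
  have h1 : Tendsto (fun i => CT * √(‖f i‖⁻¹)) l (𝓝 0) := by
    have h2 : Tendsto (fun i => √(‖f i‖⁻¹)) l (𝓝 0) := by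
      have := (Real.continuous_sqrt.tendsto 0).comp (tendsto_inv_atTop_zero.comp h)
      rwa [Real.sqrt_zero] at this
    have := h2.const_mul CT
    rwa [mul_zero] at this
  refine squeeze_zero_norm' ?_ h1
  filter_upwards [h.eventually_gt_atTop 1] with i hi
  rw [Real.norm_eq_abs]
  exact T_le_of_gt hi

/-- the decaying function -/
noncomputable def ep (y : ℝ) : ℝ := (1 + Real.log y) * (1 + 3 * Real.log y) / y

theorem tendsto_ep : Tendsto ep atTop (𝓝 0) := by
  have h0 := Real.tendsto_pow_log_div_mul_add_atTop 1 0 0 one_ne_zero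
  have h1 := Real.tendsto_pow_log_div_mul_add_atTop 1 0 1 one_ne_zero
  have h2 := Real.tendsto_pow_log_div_mul_add_atTop 1 0 2 one_ne_zero
  have h := (h0.add (h1.const_mul 4)).add (h2.const_mul 3)
  simp only [mul_zero, add_zero] at h
  refine h.congr fun y => ?_
  unfold ep
  simp only [one_mul, add_zero, pow_zero, pow_one]
  ring

theorem norm_one_sub_ge {z : ℂ} : ‖z‖ - 1 ≤ ‖1 - z‖ := by
  have h := norm_sub_norm_le z 1
  rw [norm_one] at h
  rwa [norm_sub_rev]

theorem norm_kk_le {z : ℂ} (hz : 2 ≤ ‖z‖) : ‖kk z‖ ≤ 2 := by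
  unfold kk
  have h1 := norm_one_sub_ge (z := z)
  have h2 : 0 < ‖1 - z‖ := by linarith
  rw [norm_div, norm_neg, div_le_iff₀ h2]
  linarith

theorem logM_le {z : ℂ} (hz : 2 ≤ ‖z‖) :
    |Real.log ‖1 - z‖| ≤ 1 + Real.log ‖z‖ := by
  have h1 := norm_one_sub_ge (z := z)
  have h2 : 1 ≤ ‖1 - z‖ := by linarith
  rw [abs_of_nonneg (Real.log_nonneg h2)]
  have h3 : ‖1 - z‖ ≤ 2 * ‖z‖ := by
    have := norm_sub_le 1 z
    rw [norm_one] at this
    linarith
  have h4 := Real.log_le_log (by linarith) h3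
  rw [Real.log_mul two_ne_zero (by linarith)] at h4
  have := Real.log_two_lt_d9
  linarith

theorem abs_re_le (P z : ℂ) : |(P * z).re| ≤ ‖P‖ * ‖z‖ := by
  rw [← norm_mul]
  exact Complex.abs_re_le_norm _

theorem abs_im_le (P z : ℂ) : |(P * z).im| ≤ ‖P‖ * ‖z‖ := by
  rw [← norm_mul]
  exact Complex.abs_im_le_norm _

theorem Dterm_le {z P : ℂ} (hz : 2 ≤ ‖z‖) :
    |D z * (Real.log ‖z‖ * (P * kk z).re - Real.log ‖1 - z‖ * P.re)| ≤
      2 * π * ‖P‖ * ep ‖z‖ := by
  have hL : 0 ≤ Real.log ‖z‖ := Real.log_nonneg (by linarith)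
  have h1 := D_le_of_gt (z := z) (by linarith)
  have h2 : |Real.log ‖z‖ * (P * kk z).re - Real.log ‖1 - z‖ * P.re| ≤
      ‖P‖ * (1 + 3 * Real.log ‖z‖) := by
    refine (abs_sub _ _).trans ?_
    rw [abs_mul, abs_mul, abs_of_nonneg hL]
    have h3 := abs_re_le P (kk z)
    have h4 := norm_kk_le hz
    have h5 := logM_le hz
    have h6 := Complex.abs_re_le_norm P
    have hP := norm_nonneg P
    have h7 : |(P * kk z).re| ≤ ‖P‖ * 2 := h3.trans (mul_le_mul_of_nonneg_left h4 hP)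
    have h8 : Real.log ‖z‖ * |(P * kk z).re| ≤ Real.log ‖z‖ * (‖P‖ * 2) :=
      mul_le_mul_of_nonneg_left h7 hL
    have h9 : |Real.log ‖1 - z‖| * |P.re| ≤ (1 + Real.log ‖z‖) * ‖P‖ :=
      mul_le_mul h5 h6 (abs_nonneg _) (by linarith)
    linarith
  rw [abs_mul]
  refine (mul_le_mul h1 h2 (abs_nonneg _) ?_).trans (le_of_eq ?_)
  · positivity
  · unfold ep
    ring

theorem Gz_le {a c : ℝ} (ha : 0 < a) (hc : 0 < c) (z : ℂ) :
    |Gz a c z| ≤ (1 / c + 1 / a + 4 / (a + c)) * CT := by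
  unfold Gz
  have h1 := T_le ((starRingEnd ℂ) z / z)
  have h2 := T_le ((1 - z) / (starRingEnd ℂ) (1 - z))
  have h3 := T_le z
  have h4 := T_le (1 - z)
  have h5 := T_le (1 - z⁻¹)
  have h6 := T_le ((1 - z) * (starRingEnd ℂ) z / (z * (starRingEnd ℂ) (1 - z)))
  have hac : 0 < a + c := by linarith
  have e1 : |1 / c * T ((starRingEnd ℂ) z / z)| ≤ 1 / c * CT := by
    rw [abs_mul, abs_of_pos (by positivity)]
    exact mul_le_mul_of_nonneg_left h1 (by positivity)
  have e2 : |1 / a * T ((1 - z) / (starRingEnd ℂ) (1 - z))| ≤ 1 / a * CT := by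
    rw [abs_mul, abs_of_pos (by positivity)]
    exact mul_le_mul_of_nonneg_left h2 (by positivity)
  have e3 : |T z + T (1 - z) + T (1 - z⁻¹) - T ((1 - z) * (starRingEnd ℂ) z / (z * (starRingEnd ℂ) (1 - z)))| ≤ 4 * CT := by
    refine (abs_sub _ _).trans ?_
    have := abs_add_three (T z) (T (1 - z)) (T (1 - z⁻¹))
    linarith
  have e4 : |1 / (a + c) * (T z + T (1 - z) + T (1 - z⁻¹) -
      T ((1 - z) * (starRingEnd ℂ) z / (z * (starRingEnd ℂ) (1 - z))))| ≤ 1 / (a + c) * (4 * CT) := by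
    rw [abs_mul, abs_of_pos (by positivity)]
    exact mul_le_mul_of_nonneg_left e3 (by positivity)
  refine (abs_add_three _ _ _).trans ?_
  refine (add_le_add (add_le_add e1 e2) e4).trans (le_of_eq ?_)
  ring

/-- the bound -/
noncomputable def KF (a c : ℝ) : ℝ :=
  4 * CT + 2 * CT + 2 / 3 * (2 * π) + (1 / c + 1 / a + 4 / (a + c)) * CT * (a + 2 * c)

theorem Fz_le {a c : ℝ} (ha : 0 < a) (hc : 0 < c) {z : ℂ} (P : ℂ) (hz : 2 ≤ ‖z‖)
    (he : ep ‖z‖ ≤ 1) : |Fz a c z P| ≤ KF a c * ‖P‖ := by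
  unfold Fz
  have hP := norm_nonneg P
  have hk := norm_kk_le hz
  have hi : |(P * kk z).im| ≤ ‖P‖ * 2 := (abs_im_le P (kk z)).trans
    (mul_le_mul_of_nonneg_left hk hP)
  have hPi := Complex.abs_im_le_norm P
  have hC := CT_nonneg
  have b1 : |-2 * T z * (P * kk z).im| ≤ 4 * CT * ‖P‖ := by
    rw [abs_mul, abs_mul, abs_neg, abs_two]
    have := mul_le_mul (T_le z) hi (abs_nonneg _) hC
    linarith
  have b2 : |2 * T (1 - z) * P.im| ≤ 2 * CT * ‖P‖ := by
    rw [abs_mul, abs_mul, abs_two]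
    have := mul_le_mul (T_le (1 - z)) hPi (abs_nonneg _) hC
    linarith
  have b3 : |2 / 3 * D z * (Real.log ‖z‖ * (P * kk z).re - Real.log ‖1 - z‖ * P.re)| ≤
      2 / 3 * (2 * π) * ‖P‖ := by
    rw [mul_assoc, abs_mul, abs_of_pos (by norm_num : (0 : ℝ) < 2 / 3)]
    have h1 := Dterm_le (P := P) hz
    have h2 : 2 * π * ‖P‖ * ep ‖z‖ ≤ 2 * π * ‖P‖ * 1 :=
      mul_le_mul_of_nonneg_left he (by positivity)
    linarith
  have b4 : |Gz a c z * (a * P.im + c * (P * kk z).im)| ≤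
      (1 / c + 1 / a + 4 / (a + c)) * CT * ((a + 2 * c) * ‖P‖) := by
    rw [abs_mul]
    have hac : 0 < a + c := by linarith
    refine mul_le_mul (Gz_le ha hc z) ?_ (abs_nonneg _) (by positivity)
    refine (abs_add_le _ _).trans ?_
    rw [abs_mul, abs_mul, abs_of_pos ha, abs_of_pos hc]
    have h1 := mul_le_mul_of_nonneg_left hPi ha.le
    have h2 := mul_le_mul_of_nonneg_left hi hc.le
    linarith
  refine (abs_add_le _ _).trans ?_
  refine (add_le_add_left (abs_add_le _ _) _).trans ?_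
  refine (add_le_add_left (add_le_add_left (abs_sub _ _) _) _).trans ?_
  unfold KF
  linarith

section lim

variable (γ : Lp) {a c : ℝ}

theorem Lp.norm_X (s t : ℝ) : ‖γ.X s t‖ = Real.exp s * ‖γ.x t‖ := by
  unfold Lp.X
  rw [norm_mul, Complex.norm_real, Real.norm_eq_abs, abs_of_pos (Real.exp_pos s)]

theorem Lp.tendsto_norm (t : ℝ) : Tendsto (fun s => ‖γ.X s t‖) atTop atTop := by
  simp only [γ.norm_X]
  exact Real.tendsto_exp_atTop.atTop_mul_const (norm_pos_iff.2 (γ.ne0 t))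

/-- the limit of the form at infinity -/
noncomputable def Lp.Fi (a c t : ℝ) : ℝ :=
  (1 / c + 1 / a) * (a + c) * (T ((starRingEnd ℂ) (γ.x t) / γ.x t) * (γ.P t).im)

theorem Lp.tendsto_Fz (t : ℝ) : Tendsto (fun s => Fz a c (γ.X s t) (γ.P t)) atTop
    (𝓝 (γ.Fi a c t)) := by
  have hn := γ.tendsto_norm t
  set P := γ.P t with hP
  -- the inverse
  have hv : Tendsto (fun s => (γ.X s t)⁻¹) atTop (𝓝 0) := by
    rw [tendsto_zero_iff_norm_tendsto_zero]
    simp only [norm_inv]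
    exact tendsto_inv_atTop_zero.comp hn
  have hu : Tendsto (fun s => 1 - (γ.X s t)⁻¹) atTop (𝓝 1) := by
    have := hv.const_sub 1
    rwa [sub_zero] at this
  have huc : Tendsto (fun s => (starRingEnd ℂ) (1 - (γ.X s t)⁻¹)) atTop (𝓝 1) := by
    have := (Complex.continuous_conj.tendsto 1).comp hu
    rwa [map_one] at this
  have hr : Tendsto (fun s => (1 - (γ.X s t)⁻¹) / (starRingEnd ℂ) (1 - (γ.X s t)⁻¹)) atTop (𝓝 1) := by
    have := hu.div huc one_ne_zero
    rwa [div_one] at this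
  have hk : Tendsto (fun s => kk (γ.X s t)) atTop (𝓝 1) := by
    have h1 := hu.inv₀ one_ne_zero
    rw [inv_one] at h1
    refine h1.congr fun s => ?_
    have h0 := γ.X0 s t
    unfold kk
    have : 1 - (γ.X s t)⁻¹ = -(1 - γ.X s t) / γ.X s t := by field_simp; ring
    rw [this, inv_div, div_neg, neg_div]
  have hPk : Tendsto (fun s => P * kk (γ.X s t)) atTop (𝓝 P) := by
    have := hk.const_mul P
    rwa [mul_one] at this
  have hPkr := (Complex.continuous_re.tendsto P).comp hPk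
  have hPki := (Complex.continuous_im.tendsto P).comp hPk
  -- the values of `T`
  have T1 := tendsto_T_inf hn
  have hn2 : Tendsto (fun s => ‖1 - γ.X s t‖) atTop atTop :=
    tendsto_atTop_mono (fun s => norm_one_sub_ge) (tendsto_atTop_add_const_right _ (-1) hn)
  have T2 := tendsto_T_inf hn2
  have T3 : Tendsto (fun s => T (1 - (γ.X s t)⁻¹)) atTop (𝓝 (T 1)) :=
    (contAt_T one_ne_zero).tendsto.comp hu
  have hx0 := γ.ne0 t
  have hx0' : (starRingEnd ℂ) (γ.x t) ≠ 0 := cj_ne hx0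
  have hec : ∀ s : ℝ, (Real.exp s : ℂ) ≠ 0 := fun s => by exact_mod_cast (Real.exp_pos s).ne'
  have T4 : Tendsto (fun s => T ((starRingEnd ℂ) (γ.X s t) / γ.X s t)) atTop
      (𝓝 (T ((starRingEnd ℂ) (γ.x t) / γ.x t))) := by
    refine tendsto_const_nhds.congr fun s => ?_
    unfold Lp.X
    rw [map_mul, Complex.conj_ofReal, mul_div_mul_left _ _ (hec s)]
  have T5 : Tendsto (fun s => T ((1 - γ.X s t) / (starRingEnd ℂ) (1 - γ.X s t))) atTop
      (𝓝 (T ((starRingEnd ℂ) (γ.x t) / γ.x t))) := by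
    have h1 := hr.mul_const (γ.x t / (starRingEnd ℂ) (γ.x t))
    rw [one_mul] at h1
    have h2 := (contAt_T (div_ne_zero hx0 hx0')).tendsto.comp h1
    rw [← T_inv, inv_div] at h2
    refine h2.congr fun s => ?_
    simp only [Function.comp]
    congr 1
    have h0 := γ.X0 s t
    have h0' := cj_ne h0
    have e1 : 1 - (γ.X s t)⁻¹ = -(1 - γ.X s t) / γ.X s t := by field_simp; ring
    have e2 : γ.x t / (starRingEnd ℂ) (γ.x t) = γ.X s t / (starRingEnd ℂ) (γ.X s t) := by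
      unfold Lp.X
      rw [map_mul, Complex.conj_ofReal, mul_div_mul_left _ _ (hec s)]
    rw [e1, e2, map_div₀, map_neg]
    by_cases h3 : (starRingEnd ℂ) (1 - γ.X s t) = 0
    · rw [h3]
      simp
    · field_simp
  have T6 : Tendsto (fun s => T ((1 - γ.X s t) * (starRingEnd ℂ) (γ.X s t) / (γ.X s t * (starRingEnd ℂ) (1 - γ.X s t))))
      atTop (𝓝 (T 1)) := by
    refine ((contAt_T one_ne_zero).tendsto.comp hr).congr fun s => ?_
    simp only [Function.comp]
    congr 1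
    have h0 := γ.X0 s t
    have h0' := cj_ne h0
    have e1 : 1 - (γ.X s t)⁻¹ = -(1 - γ.X s t) / γ.X s t := by field_simp; ring
    rw [e1, map_div₀, map_neg]
    by_cases h3 : (starRingEnd ℂ) (1 - γ.X s t) = 0
    · rw [h3]
      simp
    · field_simp
  have TG : Tendsto (fun s => Gz a c (γ.X s t)) atTop
      (𝓝 (1 / c * T ((starRingEnd ℂ) (γ.x t) / γ.x t) + 1 / a * T ((starRingEnd ℂ) (γ.x t) / γ.x t) +
        1 / (a + c) * (0 + 0 + T 1 - T 1))) :=
    ((T4.const_mul (1 / c)).add (T5.const_mul (1 / a))).add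
      ((((T1.add T2).add T3).sub T6).const_mul (1 / (a + c)))
  have TD : Tendsto (fun s => D (γ.X s t) * (Real.log ‖γ.X s t‖ * (P * kk (γ.X s t)).re -
      Real.log ‖1 - γ.X s t‖ * P.re)) atTop (𝓝 0) := by
    have h1 : Tendsto (fun s => 2 * π * ‖P‖ * ep ‖γ.X s t‖) atTop (𝓝 0) := by
      have := (tendsto_ep.comp hn).const_mul (2 * π * ‖P‖)
      rwa [mul_zero] at this
    refine squeeze_zero_norm' ?_ h1
    filter_upwards [hn.eventually_ge_atTop 2] with s hs
    rw [Real.norm_eq_abs]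
    exact Dterm_le hs
  have key := (((T1.const_mul (-2)).mul hPki).sub ((T2.const_mul 2).mul_const P.im)).add
    (TD.const_mul (2 / 3))
  have key2 := key.add (TG.mul ((tendsto_const_nhds (x := a * P.im)).add (hPki.const_mul c)))
  have e : γ.Fi a c t = -2 * 0 * P.im - 2 * 0 * P.im + 2 / 3 * 0 +
      (1 / c * T ((starRingEnd ℂ) (γ.x t) / γ.x t) + 1 / a * T ((starRingEnd ℂ) (γ.x t) / γ.x t) +
        1 / (a + c) * (0 + 0 + T 1 - T 1)) * (a * P.im + c * P.im) := by
    unfold Lp.Fi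
    rw [← hP]
    ring
  rw [e]
  refine key2.congr fun s => ?_
  unfold Fz
  simp only [Function.comp]
  ring

/-- the integral of the limit is `0` -/
theorem Lp.int_Fi : ∫ t in (0 : ℝ)..1, γ.Fi a c t = 0 := by
  unfold Lp.Fi
  rw [intervalIntegral.integral_const_mul]
  refine mul_eq_zero_of_right _ ?_
  -- the series
  set r : ℝ → ℂ := fun t => (starRingEnd ℂ) (γ.x t) / γ.x t with hr
  have hcr : Continuous r := (cont_cj γ.cx).div γ.cx γ.ne0
  have hn : ∀ t, ‖r t‖ = 1 := fun t => by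
    rw [hr]
    simp only
    rw [norm_div, Complex.norm_conj, div_self (norm_ne_zero_iff.2 (γ.ne0 t))]
  have hdr : ∀ t, HasDerivAt r (((starRingEnd ℂ) (γ.P t) - γ.P t) * r t) t := fun t =>
    hd_div (hd_cj (γ.hd t)) (γ.hd t) (γ.ne0 t)
  have hT : ∀ t, T (r t) = ∑' n : ℕ, 1 / ((n : ℝ) + 1) ^ 3 * (r t ^ (n + 1)).re := fun t => by
    unfold T
    rw [if_pos (hn t).le]
    unfold T0
    refine tsum_congr fun n => ?_
    rw [hn t, Real.log_one]
    ring
  -- each term
  have hterm : ∀ n : ℕ, (∫ t in (0 : ℝ)..1, 1 / ((n : ℝ) + 1) ^ 3 * (r t ^ (n + 1)).re * (γ.P t).im)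
      = 0 := by
    intro n
    have h1 : ∀ t, HasDerivAt (fun t => (Complex.I * r t ^ (n + 1) / (2 * ((n : ℂ) + 1))).re)
        ((r t ^ (n + 1)).re * (γ.P t).im) t := by
      intro t
      have h2 := ((hdr t).pow (n + 1)).const_mul Complex.I
      have h3 := hd_re (h2.div_const (2 * ((n : ℂ) + 1)))
      refine h3.congr_deriv ?_
      have hn1 : ((n : ℂ) + 1) ≠ 0 := by exact_mod_cast Nat.succ_ne_zero n
      have e1 : (starRingEnd ℂ) (γ.P t) - γ.P t = -2 * Complex.I * ((γ.P t).im : ℂ) := by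
        apply Complex.ext
        · simp
        · simp
          ring
      have e2 : Complex.I * (((n + 1 : ℕ) : ℂ) * r t ^ (n + 1 - 1) *
          (((starRingEnd ℂ) (γ.P t) - γ.P t) * r t)) / (2 * ((n : ℂ) + 1)) =
          ((γ.P t).im : ℂ) * r t ^ (n + 1) := by
        rw [e1, Nat.add_sub_cancel]
        push_cast
        field_simp
        have := Complex.I_sq
        linear_combination -(r t ^ (n + 1)) * ((γ.P t).im : ℂ) * this
      rw [e2, Complex.re_ofReal_mul]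
      ring
    have h4 : ∫ t in (0 : ℝ)..1, (r t ^ (n + 1)).re * (γ.P t).im = 0 := by
      rw [intervalIntegral.integral_eq_sub_of_hasDerivAt (fun t _ => h1 t)
        (Continuous.intervalIntegrable ((Complex.continuous_re.comp (hcr.pow _)).mul
          (Complex.continuous_im.comp γ.cP)) _ _)]
      have : r 1 = r 0 := by
        rw [hr]
        simp only
        rw [γ.per]
      rw [this, sub_self]
    have h5 : ∀ t, 1 / ((n : ℝ) + 1) ^ 3 * (r t ^ (n + 1)).re * (γ.P t).im =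
        1 / ((n : ℝ) + 1) ^ 3 * ((r t ^ (n + 1)).re * (γ.P t).im) := fun t => by ring
    simp only [h5]
    rw [intervalIntegral.integral_const_mul, h4, mul_zero]
  have hle : ∀ (n : ℕ) (t : ℝ), ‖1 / ((n : ℝ) + 1) ^ 3 * (r t ^ (n + 1)).re * (γ.P t).im‖ ≤
      6 / ((n : ℝ) + 1) ^ 3 * ‖γ.P t‖ := by
    intro n t
    rw [norm_mul, norm_mul, Real.norm_eq_abs, Real.norm_eq_abs, Real.norm_eq_abs]
    have h1 : |(r t ^ (n + 1)).re| ≤ 1 := by
      refine (Complex.abs_re_le_norm _).trans ?_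
      rw [norm_pow, hn t, one_pow]
    have h2 := Complex.abs_im_le_norm (γ.P t)
    have h3 : |1 / ((n : ℝ) + 1) ^ 3| = 1 / ((n : ℝ) + 1) ^ 3 := abs_of_pos (by positivity)
    rw [h3]
    have h4 : 1 / ((n : ℝ) + 1) ^ 3 * |(r t ^ (n + 1)).re| ≤ 6 / ((n : ℝ) + 1) ^ 3 := by
      have h6 : (0 : ℝ) < ((n : ℝ) + 1) ^ 3 := by positivity
      rw [div_mul_eq_mul_div, one_mul]
      exact div_le_div_of_nonneg_right (by linarith) h6.le
    exact mul_le_mul h4 h2 (abs_nonneg _) (by positivity)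
  have hs := intervalIntegral.hasSum_integral_of_dominated_convergence (μ := volume) (a := 0) (b := 1)
    (F := fun (n : ℕ) t => 1 / ((n : ℝ) + 1) ^ 3 * (r t ^ (n + 1)).re * (γ.P t).im)
    (f := fun t => T (r t) * (γ.P t).im)
    (fun (n : ℕ) t => 6 / ((n : ℝ) + 1) ^ 3 * ‖γ.P t‖) ?_ ?_ ?_ ?_ ?_
  · simp only [hterm] at hs
    exact hs.unique hasSum_zero
  · intro n
    exact (((continuous_const.mul (Complex.continuous_re.comp (hcr.pow _))).mul
      (Complex.continuous_im.comp γ.cP))).aestronglyMeasurable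
  · intro n
    exact Eventually.of_forall fun t _ => hle n t
  · exact Eventually.of_forall fun t _ => summable_bd.mul_right _
  · refine Continuous.intervalIntegrable ?_ _ _
    simp only [tsum_mul_right]
    exact continuous_const.mul γ.cP.norm
  · refine Eventually.of_forall fun t _ => ?_
    rw [hT t]
    refine (Summable.hasSum ?_).mul_right _
    refine Summable.of_norm_bounded summable_bd fun n => ?_
    rw [norm_mul, Real.norm_eq_abs, Real.norm_eq_abs]
    have h1 : |(r t ^ (n + 1)).re| ≤ 1 := by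
      refine (Complex.abs_re_le_norm _).trans ?_
      rw [norm_pow, hn t, one_pow]
    have h3 : |1 / ((n : ℝ) + 1) ^ 3| = 1 / ((n : ℝ) + 1) ^ 3 := abs_of_pos (by positivity)
    rw [h3]
    have h6 : (0 : ℝ) < ((n : ℝ) + 1) ^ 3 := by positivity
    rw [div_mul_eq_mul_div, one_mul]
    exact div_le_div_of_nonneg_right (by linarith) h6.le

theorem Lp.tendsto_U (ha : 0 < a) (hc : 0 < c) : Tendsto (γ.U a c) atTop (𝓝 0) := by
  rw [← γ.int_Fi (a := a) (c := c)]
  obtain ⟨δ, hδ, hδ'⟩ : ∃ δ : ℝ, 0 < δ ∧ ∀ t ∈ Icc (0 : ℝ) 1, δ ≤ ‖γ.x t‖ := by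
    obtain ⟨t₀, _, h⟩ := isCompact_Icc.exists_isMinOn (nonempty_Icc.2 (zero_le_one (α := ℝ)))
      (γ.cx.norm.continuousOn)
    exact ⟨‖γ.x t₀‖, norm_pos_iff.2 (γ.ne0 t₀), fun t ht => h ht⟩
  have hep : ∀ᶠ y in atTop, ep y ≤ 1 := tendsto_ep.eventually_le_const one_pos
  obtain ⟨y₀, hy₀⟩ := eventually_atTop.1 hep
  have hbig : ∀ᶠ s : ℝ in atTop, max y₀ 2 ≤ Real.exp s * δ :=
    (Real.tendsto_exp_atTop.atTop_mul_const hδ).eventually_ge_atTop _
  have hbig' : ∀ᶠ s : ℝ in atTop, 0 ≤ s ∧ ∀ t ∈ Icc (0 : ℝ) 1, 2 ≤ ‖γ.X s t‖ ∧ ep ‖γ.X s t‖ ≤ 1 := by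
    filter_upwards [hbig, eventually_ge_atTop 0] with s hs hs0
    refine ⟨hs0, fun t ht => ?_⟩
    have h1 : max y₀ 2 ≤ ‖γ.X s t‖ := by
      rw [γ.norm_X]
      exact hs.trans (mul_le_mul_of_nonneg_left (hδ' t ht) (Real.exp_pos s).le)
    exact ⟨(le_max_right _ _).trans h1, hy₀ _ ((le_max_left _ _).trans h1)⟩
  unfold Lp.U
  refine intervalIntegral.tendsto_integral_filter_of_dominated_convergence
    (fun t => KF a c * ‖γ.P t‖) ?_ ?_ ?_ ?_
  · filter_upwards [hbig'] with s hs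
    have h := (γ.cF a c).comp (continuous_const.prodMk continuous_id : Continuous fun t : ℝ => (s, t))
    refine Continuous.aestronglyMeasurable (h.congr fun t => ?_)
    simp only [Function.comp, max_eq_left hs.1, id]
  · filter_upwards [hbig'] with s hs
    refine Eventually.of_forall fun t ht => ?_
    rw [uIoc_of_le zero_le_one] at ht
    have h := hs.2 t (Ioc_subset_Icc_self ht)
    rw [Real.norm_eq_abs]
    exact Fz_le ha hc _ h.1 h.2
  · exact (continuous_const.mul γ.cP.norm).intervalIntegrable _ _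
  · exact Eventually.of_forall fun t _ => γ.tendsto_Fz t

/-- The integral of the form along the loop is negative. -/
theorem Lp.U_neg (ha : 0 < a) (hc : 0 < c) : γ.U a c 0 < 0 := by
  have h1 := γ.strictMono_U ha.ne' hc.ne' (by positivity : a + c ≠ 0)
  have h2 : γ.U a c 0 < γ.U a c 1 := h1 (mem_Ici.2 le_rfl) (mem_Ici.2 zero_le_one) one_pos
  have h3 : γ.U a c 1 ≤ 0 := by
    refine ge_of_tendsto (γ.tendsto_U ha hc) ?_
    filter_upwards [eventually_ge_atTop 1] with s hs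
    exact h1.monotoneOn (mem_Ici.2 zero_le_one) (mem_Ici.2 (by linarith)) hs
  exact h2.trans_le h3

end lim

end Pool.Agent.P8H1.SF
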