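import Pool.Agent.P8H1.SF.Fin
set_option autoImplicit false

/-!
Localisation: paths that avoid the zeros of a multiplicative set.
-/

namespace Pool.Agent.P8H1.SF

open Real Set Filter Topology MeasureTheory
open Pool.Agent.N65.TK (Pt UQ tu D Five Path)

section loc

variable {A : Type*} [CommRing A] (M : Submonoid A) (B : Type*) [CommRing B] [Algebra A B]
  [IsLocalization M B] (γ : Path A) (h : ∀ t, ∀ m ∈ M, γ.e t m ≠ 0)

/-- The path in the localisation. -/
noncomputable def locPath : Path B where
  e t := IsLocalization.lift (M := M) (g := γ.e t) fun m => isUnit_iff_ne_zero.2 (h t m m.2)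
  smooth b := by
    obtain ⟨⟨x, m⟩, hb⟩ := IsLocalization.mk'_surjective M b
    simp only at hb
    have e1 : ∀ t, (IsLocalization.lift (M := M) (S := B) (g := γ.e t) fun m =>
        isUnit_iff_ne_zero.2 (h t m m.2)) b = γ.e t x / γ.e t m := by
      intro t
      rw [← hb, IsLocalization.lift_mk'_spec, mul_div_cancel₀ _ (h t m m.2)]
    simp only [e1, div_eq_mul_inv]
    exact (γ.smooth x).mul ((γ.smooth m).inv fun t => h t m m.2)
  periodic t := by
    refine IsLocalization.ringHom_ext M ?_
    refine RingHom.ext fun x => ?_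
    rw [RingHom.comp_apply, RingHom.comp_apply, IsLocalization.lift_eq, IsLocalization.lift_eq,
      γ.periodic]

theorem locPath_e (t : ℝ) (x : A) : (locPath M B γ h).e t (algebraMap A B x) = γ.e t x :=
  IsLocalization.lift_eq _ x

theorem reg_loc (s : FS A) :
    reg (locPath M B γ h) (FS.map (algebraMap A B) s) = reg γ s := by
  unfold reg FS.map
  rw [← LinearMap.comp_apply]
  congr 1
  refine Finsupp.lhom_ext' fun p => LinearMap.ext_ring ?_
  simp only [LinearMap.comp_apply, Finsupp.lsingle_apply, Finsupp.lmapDomain_apply,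
    Finsupp.mapDomain_single, Finsupp.linearCombination_single, one_smul]
  refine intervalIntegral.integral_congr fun t _ => ?_
  have e1 : ∀ s, (locPath M B γ h).e s ((p.1.map (algebraMap A B)).1 : B) = γ.e s p.1.1 :=
    fun s => locPath_e M B γ h s _
  have e2 : ∀ s, (locPath M B γ h).e s ((Units.map (algebraMap A B : A →* B) p.2 : Bˣ) : B) =
      γ.e s p.2 := fun s => locPath_e M B γ h s _
  simp only [e1, e2]

end loc

end Pool.Agent.P8H1.SF
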