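import Pool.Agent.P8H1.SF.RealPt
import Pool.Agent.P8H1.SF.Kill
import Pool.Agent.P8H1.KC.Prim
set_option autoImplicit false

/-!
The regulator of the element along the loops.
-/

namespace Pool.Agent.P8H1.SF

open Real Set Filter Topology MeasureTheory
open Pool.Agent.N65.TK (Pt UQ tu D Five Path)
open Pool.Agent.W367.KT

section integrand

/-- `T(z) d arg g - (1/3) D(z) log |g| d log |z|`, `n = d log z`, `L = log |g|`, `v = d log g` -/
noncomputable def bf (z n : ℂ) (L : ℝ) (v : ℂ) : ℝ := T z * v.im - 1 / 3 * D z * L * n.re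

/-- the integrand -/
noncomputable def Kf (a c : ℝ) (x y p q : ℂ) : ℝ :=
  bf x p (Real.log ‖1 - y‖) (q * kk y) + bf (1 - x) (p * kk x) (Real.log ‖y‖) q -
    bf y q (Real.log ‖1 - x‖) (p * kk x) - bf (1 - y) (q * kk y) (Real.log ‖x‖) p +
    1 / c * bf (y / x) (q - p) (a * Real.log ‖x‖ + c * Real.log ‖1 - x‖)
      (a * p + c * (p * kk x)) +
    1 / a * bf ((1 - x) / (1 - y)) (p * kk x - q * kk y) (a * Real.log ‖x‖ + c * Real.log ‖1 - x‖)
      (a * p + c * (p * kk x)) +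
    1 / (a + c) * (bf x p (a * Real.log ‖x‖ + c * Real.log ‖1 - x‖) (a * p + c * (p * kk x)) +
      bf (1 - x) (p * kk x) (a * Real.log ‖x‖ + c * Real.log ‖1 - x‖) (a * p + c * (p * kk x)) +
      bf (1 - x⁻¹) (p * kk x - p) (a * Real.log ‖x‖ + c * Real.log ‖1 - x‖)
        (a * p + c * (p * kk x)) -
      bf ((1 - x) * y / (x * (1 - y))) (p * kk x + q - (p + q * kk y))
        (a * Real.log ‖x‖ + c * Real.log ‖1 - x‖) (a * p + c * (p * kk x)))

theorem kk_conj (z : ℂ) : kk ((starRingEnd ℂ) z) = (starRingEnd ℂ) (kk z) := by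
  unfold kk
  rw [map_div₀, map_neg, map_sub, map_one]

/-- on the real surface `y = x̄` -/
theorem Kf_real {a c : ℝ} {x p : ℂ} (h : a * Real.log ‖x‖ + c * Real.log ‖1 - x‖ = 0) :
    Kf a c x ((starRingEnd ℂ) x) p ((starRingEnd ℂ) p) = Fz a c x p := by
  have h1 : ‖1 - (starRingEnd ℂ) x‖ = ‖1 - x‖ := by
    rw [← Complex.norm_conj (1 - x), map_sub, map_one]
  have e1 : T ((starRingEnd ℂ) x) = T x := T_conj x
  have e2 : T (1 - (starRingEnd ℂ) x) = T (1 - x) := by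
    rw [← T_conj (1 - x), map_sub, map_one]
  have e3 : D ((starRingEnd ℂ) x) = -D x := Pool.Agent.P8H1.EK.D_conj' x
  have e4 : D (1 - (starRingEnd ℂ) x) = D x := by rw [D_one_sub, e3, neg_neg]
  have e5 : D (1 - x) = -D x := D_one_sub x
  unfold Kf Fz Gz bf
  rw [h, kk_conj, ← map_mul, h1, Complex.norm_conj, e1, e2, e3, e4, e5]
  have e6 : (1 : ℂ) - (starRingEnd ℂ) x = (starRingEnd ℂ) (1 - x) := by rw [map_sub, map_one]
  rw [e6]
  simp only [Complex.conj_re, Complex.conj_im, Complex.add_im, Complex.im_ofReal_mul]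
  ring

section cont

variable {E : Type*} [TopologicalSpace E]

theorem cont_bf {z n v : E → ℂ} {L : E → ℝ} (hz : Continuous z) (h0 : ∀ e, z e ≠ 0)
    (hn : Continuous n) (hL : Continuous L) (hv : Continuous v) :
    Continuous fun e => bf (z e) (n e) (L e) (v e) := by
  unfold bf
  exact ((cont_Tc hz h0).mul (Complex.continuous_im.comp hv)).sub
    (((continuous_const.mul (cont_Dc hz h0)).mul hL).mul (Complex.continuous_re.comp hn))

theorem cont_Kf (a c : ℝ) {x y p q : E → ℂ} (hx : Continuous x) (hy : Continuous y)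
    (hp : Continuous p) (hq : Continuous q) (x0 : ∀ e, x e ≠ 0) (x1 : ∀ e, x e ≠ 1)
    (y0 : ∀ e, y e ≠ 0) (y1 : ∀ e, y e ≠ 1) :
    Continuous fun e => Kf a c (x e) (y e) (p e) (q e) := by
  have x2 : ∀ e, 1 - x e ≠ 0 := fun e => sub_ne_zero.2 (Ne.symm (x1 e))
  have y2 : ∀ e, 1 - y e ≠ 0 := fun e => sub_ne_zero.2 (Ne.symm (y1 e))
  have x3 : ∀ e, 1 - (x e)⁻¹ ≠ 0 := fun e => sub_ne_zero.2 fun h => x1 e (inv_eq_one.1 h.symm)
  have cX : Continuous fun e => 1 - x e := continuous_const.sub hx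
  have cY : Continuous fun e => 1 - y e := continuous_const.sub hy
  have cI : Continuous fun e => 1 - (x e)⁻¹ := continuous_const.sub (hx.inv₀ x0)
  have k1 := hp.mul (cont_kk hx x1)
  have k2 := hq.mul (cont_kk hy y1)
  have l1 := cont_L hx x0
  have l2 := cont_L hy y0
  have l3 := cont_L cX x2
  have l4 := cont_L cY y2
  have L : Continuous fun e => a * Real.log ‖x e‖ + c * Real.log ‖1 - x e‖ :=
    (continuous_const.mul l1).add (continuous_const.mul l3)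
  have Q : Continuous fun e => (a : ℂ) * p e + c * (p e * kk (x e)) :=
    (continuous_const.mul hp).add (continuous_const.mul k1)
  unfold Kf
  exact (((((((cont_bf hx x0 hp l4 k2).add (cont_bf cX x2 k1 l2 hq)).sub
    (cont_bf hy y0 hq l3 k1)).sub (cont_bf cY y2 k2 l1 hp)).add
    (continuous_const.mul (cont_bf (hy.div hx x0) (fun e => div_ne_zero (y0 e) (x0 e))
      (hq.sub hp) L Q))).add
    (continuous_const.mul (cont_bf (cX.div cY y2) (fun e => div_ne_zero (x2 e) (y2 e))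
      (k1.sub k2) L Q))).add
    (continuous_const.mul ((((cont_bf hx x0 hp L Q).add (cont_bf cX x2 k1 L Q)).add
      (cont_bf cI x3 (k1.sub hp) L Q)).sub
      (cont_bf ((cX.mul hy).div (hx.mul cY) fun e => mul_ne_zero (x0 e) (y2 e))
        (fun e => div_ne_zero (mul_ne_zero (x2 e) (y0 e)) (mul_ne_zero (x0 e) (y2 e)))
        ((k1.add hq).sub (hp.add k2)) L Q))))

end cont

end integrand

section reg

variable {A : Type*} [CommRing A] (γ : Path A) (C : Cfg A)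

theorem ld_neg (f : Aˣ) (t : ℝ) : γ.ld (-f) t = γ.ld f t := by
  unfold Path.ld
  have h : (fun s => γ.e s ((-f : Aˣ) : A)) = fun s => -γ.e s f := by
    funext s
    rw [Units.val_neg, map_neg]
  rw [h, Units.val_neg, map_neg, deriv.fun_neg, neg_div_neg_eq]

theorem Cfg.e_X (t : ℝ) : γ.e t C.X = 1 - γ.e t C.x := by
  rw [C.hX, map_sub, map_one]

theorem Cfg.e_Y (t : ℝ) : γ.e t C.Y = 1 - γ.e t C.y := by
  rw [C.hY, map_sub, map_one]

theorem Cfg.x_ne_one (t : ℝ) : γ.e t C.x ≠ 1 := by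
  intro h
  have := γ.ne_zero C.X t
  rw [C.e_X, h, sub_self] at this
  exact this rfl

theorem Cfg.y_ne_one (t : ℝ) : γ.e t C.y ≠ 1 := by
  intro h
  have := γ.ne_zero C.Y t
  rw [C.e_Y, h, sub_self] at this
  exact this rfl

theorem Cfg.ld_X (t : ℝ) : γ.ld C.X t = γ.ld C.x t * kk (γ.e t C.x) := by
  have h2 : (fun s => γ.e s (C.X : A)) = fun s => 1 - γ.e s C.x := by
    funext s
    rw [C.e_X]
  have h3 : deriv (fun s => γ.e s (C.X : A)) t = -deriv (fun s => γ.e s C.x) t := by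
    rw [h2]
    exact ((γ.hd C.x t).const_sub 1).deriv
  have h0 := γ.ne_zero C.x t
  have h1 := sub_ne_zero.2 (Ne.symm (C.x_ne_one γ t))
  unfold Path.ld kk
  rw [h3, C.e_X]
  field_simp

theorem Cfg.ld_Y (t : ℝ) : γ.ld C.Y t = γ.ld C.y t * kk (γ.e t C.y) := by
  have h2 : (fun s => γ.e s (C.Y : A)) = fun s => 1 - γ.e s C.y := by
    funext s
    rw [C.e_Y]
  have h3 : deriv (fun s => γ.e s (C.Y : A)) t = -deriv (fun s => γ.e s C.y) t := by
    rw [h2]
    exact ((γ.hd C.y t).const_sub 1).deriv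
  have h0 := γ.ne_zero C.y t
  have h1 := sub_ne_zero.2 (Ne.symm (C.y_ne_one γ t))
  unfold Path.ld kk
  rw [h3, C.e_Y]
  field_simp

theorem e_inv (f : Aˣ) (t : ℝ) : γ.e t ((f⁻¹ : Aˣ) : A) = (γ.e t f)⁻¹ := by
  have h : γ.e t f * γ.e t ((f⁻¹ : Aˣ) : A) = 1 := by
    rw [← map_mul, Units.mul_inv, map_one]
  exact eq_inv_of_mul_eq_one_right h

theorem fr_eq (f : Pt A) (g : Aˣ) (t : ℝ) :
    fr γ f g t = bf (γ.e t f.1) (γ.ld f.1 t) (γ.ln g t) (γ.ld g t) := rfl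

/-- The regulator of the element. -/
theorem Cfg.reg_xi (a c : ℕ) : reg γ (C.xi a c) =
    ∫ t in (0 : ℝ)..1, Kf a c (γ.e t C.x) (γ.e t C.y) (γ.ld C.x t) (γ.ld C.y t) := by
  have hg1 : ∀ t, γ.ln (C.x ^ a * C.X ^ c) t =
      a * Real.log ‖γ.e t C.x‖ + c * Real.log ‖1 - γ.e t C.x‖ := by
    intro t
    rw [γ.ln_mul, γ.ln_pow, γ.ln_pow]
    unfold Path.ln
    rw [C.e_X]
  have hg2 : ∀ t, γ.ld (C.x ^ a * C.X ^ c) t =
      ((a : ℝ) : ℂ) * γ.ld C.x t + ((c : ℝ) : ℂ) * (γ.ld C.x t * kk (γ.e t C.x)) := by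
    intro t
    rw [γ.ld_mul, γ.ld_pow, γ.ld_pow, C.ld_X]
    push_cast
    rfl
  have hinv : ∀ (f : Aˣ) (t : ℝ), γ.ld f⁻¹ t = -γ.ld f t := fun f t =>
    γ.ld_inv f t
  unfold Cfg.xi
  simp only [map_add, map_sub, map_smul, reg_br, Rat.smul_def]
  have ii := fun (f : Pt A) (g : Aˣ) => int_fr γ f g
  rw [← intervalIntegral.integral_add (ii _ _) (ii _ _),
    ← intervalIntegral.integral_sub ((ii _ _).add (ii _ _)) (ii _ _),
    ← intervalIntegral.integral_sub (((ii _ _).add (ii _ _)).sub (ii _ _)) (ii _ _),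
    ← intervalIntegral.integral_const_mul, ← intervalIntegral.integral_const_mul,
    ← intervalIntegral.integral_add ((((ii _ _).add (ii _ _)).sub (ii _ _)).sub (ii _ _))
      ((ii _ _).const_mul _),
    ← intervalIntegral.integral_add (((((ii _ _).add (ii _ _)).sub (ii _ _)).sub (ii _ _)).add
      ((ii _ _).const_mul _)) ((ii _ _).const_mul _),
    ← intervalIntegral.integral_add (ii _ _) (ii _ _),
    ← intervalIntegral.integral_add ((ii _ _).add (ii _ _)) (ii _ _),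
    ← intervalIntegral.integral_sub (((ii _ _).add (ii _ _)).add (ii _ _)) (ii _ _),
    ← intervalIntegral.integral_const_mul,
    ← intervalIntegral.integral_add ((((((ii _ _).add (ii _ _)).sub (ii _ _)).sub (ii _ _)).add
      ((ii _ _).const_mul _)).add ((ii _ _).const_mul _))
      (((((ii _ _).add (ii _ _)).add (ii _ _)).sub (ii _ _)).const_mul _)]
  refine intervalIntegral.integral_congr fun t _ => ?_
  simp only [fr_eq, hg1, hg2]
  -- values at the points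
  have v1 : γ.e t (C.p1.1 : A) = γ.e t C.x := rfl
  have v2 : γ.e t (C.p2.1 : A) = 1 - γ.e t C.x := C.e_X γ t
  have v3 : γ.e t (C.p3.1 : A) = γ.e t C.y := rfl
  have v4 : γ.e t (C.p4.1 : A) = 1 - γ.e t C.y := C.e_Y γ t
  have v5 : γ.e t (C.p5.1 : A) = 1 - (γ.e t C.x)⁻¹ := by
    show γ.e t ((-(C.X * C.x⁻¹) : Aˣ) : A) = _
    rw [Units.val_neg, Units.val_mul, map_neg, map_mul, e_inv, C.e_X]
    have := γ.ne_zero C.x t
    field_simp
    ring
  have w1 : γ.e t (C.q1.1 : A) = γ.e t C.y / γ.e t C.x := by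
    show γ.e t ((C.y * C.x⁻¹ : Aˣ) : A) = _
    rw [Units.val_mul, map_mul, e_inv, div_eq_mul_inv]
  have w2 : γ.e t (C.q2.1 : A) = (1 - γ.e t C.x) / (1 - γ.e t C.y) := by
    show γ.e t ((C.X * C.Y⁻¹ : Aˣ) : A) = _
    rw [Units.val_mul, map_mul, e_inv, C.e_X, C.e_Y, div_eq_mul_inv]
  have w3 : γ.e t (C.q3.1 : A) =
      (1 - γ.e t C.x) * γ.e t C.y / (γ.e t C.x * (1 - γ.e t C.y)) := by
    show γ.e t ((C.X * C.y * (C.x * C.Y)⁻¹ : Aˣ) : A) = _
    rw [Units.val_mul, map_mul, e_inv, Units.val_mul, Units.val_mul, map_mul, map_mul, C.e_X,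
      C.e_Y, div_eq_mul_inv]
  have d1 : γ.ld C.p1.1 t = γ.ld C.x t := rfl
  have d2 : γ.ld C.p2.1 t = γ.ld C.x t * kk (γ.e t C.x) := C.ld_X γ t
  have d3 : γ.ld C.p3.1 t = γ.ld C.y t := rfl
  have d4 : γ.ld C.p4.1 t = γ.ld C.y t * kk (γ.e t C.y) := C.ld_Y γ t
  have d5 : γ.ld C.p5.1 t = γ.ld C.x t * kk (γ.e t C.x) - γ.ld C.x t := by
    show γ.ld (-(C.X * C.x⁻¹)) t = _
    rw [ld_neg, γ.ld_mul, hinv, C.ld_X]
    ring
  have f1 : γ.ld C.q1.1 t = γ.ld C.y t - γ.ld C.x t := by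
    show γ.ld (C.y * C.x⁻¹) t = _
    rw [γ.ld_mul, hinv]
    ring
  have f2 : γ.ld C.q2.1 t = γ.ld C.x t * kk (γ.e t C.x) - γ.ld C.y t * kk (γ.e t C.y) := by
    show γ.ld (C.X * C.Y⁻¹) t = _
    rw [γ.ld_mul, hinv, C.ld_X, C.ld_Y]
    ring
  have f3 : γ.ld C.q3.1 t = γ.ld C.x t * kk (γ.e t C.x) + γ.ld C.y t -
      (γ.ld C.x t + γ.ld C.y t * kk (γ.e t C.y)) := by
    show γ.ld (C.X * C.y * (C.x * C.Y)⁻¹) t = _
    rw [γ.ld_mul, hinv, γ.ld_mul, γ.ld_mul, C.ld_X, C.ld_Y]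
    ring
  have l1 : γ.ln C.Y t = Real.log ‖1 - γ.e t C.y‖ := by
    unfold Path.ln
    rw [C.e_Y]
  have l2 : γ.ln C.X t = Real.log ‖1 - γ.e t C.x‖ := by
    unfold Path.ln
    rw [C.e_X]
  have l3 : γ.ln C.x t = Real.log ‖γ.e t C.x‖ := rfl
  have l4 : γ.ln C.y t = Real.log ‖γ.e t C.y‖ := rfl
  rw [v1, v2, v3, v4, v5, w1, w2, w3, d1, d2, d3, d4, d5, f1, f2, f3, l1, l2, l3, l4, C.ld_X, C.ld_Y]
  unfold Kf
  push_cast
  ring

end reg

end Pool.Agent.P8H1.SF
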