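import Pool.Agent.P8H1.SF.Crd
set_option autoImplicit false

/-!
The real values of the parameter: the loop `y = x̄`.
-/

namespace Pool.Agent.P8H1.SF

open Real Set Filter Topology MeasureTheory
open Pool.Agent.N65.TK
open Pool.Agent.W367.KT

section real

variable {a c : ℕ} {s0 s1 : ℝ}

theorem Par.W_real (p : Par a c s0 s1) {s : ℝ} (hs : 0 < s) :
    ∃ r : ℝ, 0 < r ∧ Wf a c s0 s1 (s : ℂ) = (r : ℂ) := by
  have ha := p.ha
  have hc := p.hc
  have h0 := p.p0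
  have h1 : 0 < s1 := by linarith [p.p1]
  refine ⟨(∑ i ∈ Finset.range (a + c), s ^ i * s0 ^ (a + c - 1 - i) +
      ∑ i ∈ Finset.range a, s ^ i * s0 ^ (a - 1 - i)) *
    (∑ i ∈ Finset.range (a + c), s ^ i * s1 ^ (a + c - 1 - i) -
      ∑ i ∈ Finset.range a, s ^ i * s1 ^ (a - 1 - i)) * (s ^ (a + c) - s ^ a + 1) *
    (s ^ (a + c) + s ^ a + 1), ?_, ?_⟩
  · have b0 : 0 < ∑ i ∈ Finset.range (a + c), s ^ i * s0 ^ (a + c - 1 - i) :=
      Finset.sum_pos (fun i _ => by positivity) ⟨0, by simp; omega⟩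
    have b1 : 0 ≤ ∑ i ∈ Finset.range a, s ^ i * s0 ^ (a - 1 - i) :=
      Finset.sum_nonneg fun i _ => by positivity
    have b2 : ∑ i ∈ Finset.range a, s ^ i * s1 ^ (a - 1 - i) ≤
        ∑ i ∈ Finset.range a, s ^ i * s1 ^ (a + c - 1 - i) := by
      refine Finset.sum_le_sum fun i _ => ?_
      exact mul_le_mul_of_nonneg_left (pow_le_pow_right₀ p.p1.le (by omega)) (by positivity)
    have b3 : ∑ i ∈ Finset.range a, s ^ i * s1 ^ (a + c - 1 - i) <
        ∑ i ∈ Finset.range (a + c), s ^ i * s1 ^ (a + c - 1 - i) := by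
      refine Finset.sum_lt_sum_of_subset (i := a) ?_ ?_ ?_ ?_ ?_
      · intro i hi
        rw [Finset.mem_range] at hi ⊢
        omega
      · rw [Finset.mem_range]
        omega
      · rw [Finset.mem_range]
        omega
      · positivity
      · intro j _ _
        positivity
    have b4 : 0 < s ^ (a + c) - s ^ a + 1 := by
      rcases le_or_gt 1 s with h | h
      · have := pow_le_pow_right₀ h (by omega : a ≤ a + c)
        linarith
      · have h2 := pow_lt_one₀ hs.le h (by omega : a ≠ 0)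
        have h3 : 0 < s ^ (a + c) := by positivity
        linarith
    have b5 : 0 < s ^ (a + c) + s ^ a + 1 := by positivity
    have b6 : 0 < ∑ i ∈ Finset.range (a + c), s ^ i * s1 ^ (a + c - 1 - i) -
      ∑ i ∈ Finset.range a, s ^ i * s1 ^ (a - 1 - i) := by linarith
    have b7 : 0 < ∑ i ∈ Finset.range (a + c), s ^ i * s0 ^ (a + c - 1 - i) +
      ∑ i ∈ Finset.range a, s ^ i * s0 ^ (a - 1 - i) := by linarith
    positivity
  · unfold Wf w0 w1
    push_cast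
    rfl

/-- the real function `S` -/
noncomputable def sg (s0 s1 θ : ℝ) : ℝ := (s0 + s1) / 2 + hh s0 s1 * Real.cos θ

theorem Sg_real (θ : ℝ) : Sg s0 s1 (θ : ℂ) = (sg s0 s1 θ : ℂ) := by
  unfold Sg sg
  push_cast
  rfl

theorem Par.sg_pos (p : Par a c s0 s1) (θ : ℝ) : 0 < sg s0 s1 θ := by
  have h1 := p.hh_pos
  have h2 := Real.neg_one_le_cos θ
  have h3 := p.p0
  unfold sg
  have h4 : hh s0 s1 * (-1) ≤ hh s0 s1 * Real.cos θ := mul_le_mul_of_nonneg_left h2 h1.le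
  have h5 : (s0 + s1) / 2 - hh s0 s1 = s0 := by unfold hh; ring
  linarith

theorem Par.mem_Om (p : Par a c s0 s1) (θ : ℝ) : (θ : ℂ) ∈ Om a c s0 s1 := by
  have h1 := p.sg_pos θ
  obtain ⟨r, hr, hW⟩ := p.W_real h1
  refine ⟨?_, ?_⟩
  · rw [Sg_real]
    exact_mod_cast h1.ne'
  · rw [Sg_real, hW]
    exact Complex.ofReal_mem_slitPlane.2 hr

theorem Par.E_real (p : Par a c s0 s1) (θ : ℝ) :
    ∃ r : ℝ, 0 < r ∧ Eg a c s0 s1 (θ : ℂ) = (r : ℂ) := by
  obtain ⟨r, hr, hW⟩ := p.W_real (p.sg_pos θ)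
  refine ⟨Real.exp (Real.log r / 2), Real.exp_pos _, ?_⟩
  unfold Eg
  rw [Sg_real, hW]
  push_cast
  rw [Complex.ofReal_log hr.le]

/-- the real form of the coordinates -/
theorem Par.coords (p : Par a c s0 s1) (θ : ℝ) : ∃ r : ℝ, 0 < r ∧ Eg a c s0 s1 (θ : ℂ) = (r : ℂ) ∧
    (Xg a c s0 s1 (θ : ℂ)).re = (1 + sg s0 s1 θ ^ (2 * c) - (sg s0 s1 θ ^ (2 * a))⁻¹) / 2 ∧
    (Xg a c s0 s1 (θ : ℂ)).im = hh s0 s1 * Real.sin θ * r / sg s0 s1 θ ^ (2 * a) / 2 ∧
    Yg a c s0 s1 (θ : ℂ) = (starRingEnd ℂ) (Xg a c s0 s1 (θ : ℂ)) := by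
  obtain ⟨r, hr, hE⟩ := p.E_real θ
  have hZ : Zg a c s0 s1 (θ : ℂ) =
      ((hh s0 s1 * Real.sin θ * r / sg s0 s1 θ ^ (2 * a) : ℝ) : ℂ) * Complex.I := by
    unfold Zg
    rw [hE, Sg_real]
    push_cast
    ring
  have hQ : Qg a c s0 s1 (θ : ℂ) =
      ((1 + sg s0 s1 θ ^ (2 * c) - (sg s0 s1 θ ^ (2 * a))⁻¹ : ℝ) : ℂ) := by
    unfold Qg
    rw [Sg_real]
    push_cast
    rfl
  have hX : Xg a c s0 s1 (θ : ℂ) =
      (((1 + sg s0 s1 θ ^ (2 * c) - (sg s0 s1 θ ^ (2 * a))⁻¹) / 2 : ℝ) : ℂ) +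
      ((hh s0 s1 * Real.sin θ * r / sg s0 s1 θ ^ (2 * a) / 2 : ℝ) : ℂ) * Complex.I := by
    unfold Xg
    rw [hZ, hQ]
    push_cast
    ring
  have hY : Yg a c s0 s1 (θ : ℂ) =
      (((1 + sg s0 s1 θ ^ (2 * c) - (sg s0 s1 θ ^ (2 * a))⁻¹) / 2 : ℝ) : ℂ) -
      ((hh s0 s1 * Real.sin θ * r / sg s0 s1 θ ^ (2 * a) / 2 : ℝ) : ℂ) * Complex.I := by
    unfold Yg
    rw [hZ, hQ]
    push_cast
    ring
  refine ⟨r, hr, hE, ?_, ?_, ?_⟩
  · rw [hX, Complex.add_re, Complex.re_ofReal_mul, Complex.ofReal_re, Complex.I_re]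
    ring
  · rw [hX, Complex.add_im, Complex.im_ofReal_mul, Complex.ofReal_im, Complex.I_im]
    ring
  · rw [hX, hY, map_add, map_mul, Complex.conj_ofReal, Complex.conj_ofReal, Complex.conj_I]
    ring

theorem Par.im_ne (p : Par a c s0 s1) {θ : ℝ} (h : Real.sin θ ≠ 0) :
    (Xg a c s0 s1 (θ : ℂ)).im ≠ 0 := by
  obtain ⟨r, hr, -, -, him, -⟩ := p.coords θ
  rw [him]
  have h1 := p.hh_pos
  have h2 := p.sg_pos θ
  exact div_ne_zero (div_ne_zero (mul_ne_zero (mul_ne_zero h1.ne' h) hr.ne')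
    (pow_ne_zero _ h2.ne')) two_ne_zero

/-- at the real points of the loop -/
theorem Par.at_real (p : Par a c s0 s1) {θ : ℝ} (h : Real.sin θ = 0) :
    (Xg a c s0 s1 (θ : ℂ)).im = 0 ∧
      (1 < (Xg a c s0 s1 (θ : ℂ)).re ∨ (Xg a c s0 s1 (θ : ℂ)).re < 0) := by
  obtain ⟨r, hr, -, hre, him, -⟩ := p.coords θ
  have hc := p.hc
  refine ⟨by rw [him, h]; simp, ?_⟩
  rw [hre]
  have hcos : Real.cos θ = 1 ∨ Real.cos θ = -1 := by
    have h1 := Real.sin_sq_add_cos_sq θ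
    rw [h] at h1
    have h2 : (Real.cos θ - 1) * (Real.cos θ + 1) = 0 := by linear_combination h1
    rcases mul_eq_zero.1 h2 with h3 | h3
    · left; linarith
    · right; linarith
  rcases hcos with h1 | h1
  · left
    have hs : sg s0 s1 θ = s1 := by
      unfold sg hh
      rw [h1]
      ring
    rw [hs]
    have e1 := p.e1
    have h0 : 0 < s1 := by linarith [p.p1]
    have hA : 0 < s1 ^ a := by positivity
    have hC : 1 < s1 ^ c := one_lt_pow₀ p.p1 (by omega)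
    rw [pow_add] at e1
    have e2 : (s1 ^ (2 * a))⁻¹ = (s1 ^ c - 1) ^ 2 := by
      rw [pow_mul']
      have : s1 ^ c - 1 = (s1 ^ a)⁻¹ := by
        field_simp
        linarith
      rw [this, inv_pow]
    rw [e2, pow_mul']
    nlinarith
  · right
    have hs : sg s0 s1 θ = s0 := by
      unfold sg hh
      rw [h1]
      ring
    rw [hs]
    have e0 := p.e0
    have h0 := p.p0
    have hA : 0 < s0 ^ a := by positivity
    have hC : 0 < s0 ^ c := by positivity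
    rw [pow_add] at e0
    have e2 : (s0 ^ (2 * a))⁻¹ = (s0 ^ c + 1) ^ 2 := by
      rw [pow_mul']
      have : s0 ^ c + 1 = (s0 ^ a)⁻¹ := by
        field_simp
        linarith
      rw [this, inv_pow]
    rw [e2, pow_mul']
    nlinarith

/-- the argument of `x` is increasing -/
theorem Par.Px_im_pos (p : Par a c s0 s1) (θ : ℝ) : 0 < (Px a c s0 s1 (θ : ℂ)).im := by
  obtain ⟨r, hr, hE, hre, him, hY⟩ := p.coords θ
  have hS := p.sg_pos θ
  have hUV := p.UV (p.mem_Om θ)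
  have hY1 := p.Y_ne_one (p.mem_Om θ)
  have ha : (1 : ℝ) ≤ a := by exact_mod_cast p.ha
  set s := sg s0 s1 θ with hs
  set X := Xg a c s0 s1 (θ : ℂ) with hX
  rw [hY, Sg_real, ← hs] at hUV
  have e1 : (1 - X) * (1 - (starRingEnd ℂ) X) = ((Complex.normSq (1 - X) : ℝ) : ℂ) := by
    rw [← Complex.mul_conj, map_sub, map_one]
  rw [e1] at hUV
  have e2 : Complex.normSq (1 - X) = (s ^ (2 * a))⁻¹ := by exact_mod_cast hUV
  have e3 : Complex.normSq (1 - (starRingEnd ℂ) X) = (s ^ (2 * a))⁻¹ := by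
    rw [← e2, ← Complex.normSq_conj, map_sub, map_one, Complex.conj_conj]
  have hA : 0 < s ^ (2 * a) := by positivity
  have hC : 0 < s ^ (2 * c) := by positivity
  -- the real part of `kk`
  have e4 : (kk ((starRingEnd ℂ) X)).re = (1 - s ^ (2 * a) * (1 - s ^ (2 * c))) / 2 := by
    have h1 : kk ((starRingEnd ℂ) X) = 1 - (1 - (starRingEnd ℂ) X)⁻¹ := by
      unfold kk
      rw [hY] at hY1
      have := sub_ne_zero.2 (Ne.symm hY1)
      field_simp
      ring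
    rw [h1, Complex.sub_re, Complex.inv_re, Complex.one_re, e3, Complex.sub_re, Complex.one_re,
      Complex.conj_re, hre]
    field_simp
    ring
  have e5 : 0 ≤ (kk ((starRingEnd ℂ) X)).re := by
    rw [e4]
    rcases le_or_gt 1 s with h | h
    · have : 1 ≤ s ^ (2 * c) := one_le_pow₀ h
      nlinarith
    · have h2 : s ^ (2 * a) ≤ 1 := pow_le_one₀ hS.le h.le
      have h3 : s ^ (2 * c) ≤ 1 := pow_le_one₀ hS.le h.le
      nlinarith
  unfold Px
  rw [hY, hE, Sg_real, ← hs]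
  have e6 : 2 * Complex.I * ((a : ℂ) + c * kk ((starRingEnd ℂ) X)) / ((s : ℂ) * (r : ℂ)) =
      ((2 / (s * r) : ℝ) : ℂ) * (Complex.I * ((a : ℂ) + c * kk ((starRingEnd ℂ) X))) := by
    push_cast
    ring
  have e8 : ((c : ℂ) * kk ((starRingEnd ℂ) X)).re = c * (kk ((starRingEnd ℂ) X)).re := by
    rw [← Complex.ofReal_natCast, Complex.re_ofReal_mul]
  rw [e6, Complex.im_ofReal_mul, Complex.I_mul_im, Complex.add_re, Complex.natCast_re, e8]
  have e7 : (0 : ℝ) ≤ c := Nat.cast_nonneg c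
  have : 0 < (a : ℝ) + c * (kk ((starRingEnd ℂ) X)).re := by
    have := mul_nonneg e7 e5
    linarith
  positivity

theorem Par.Py_real (p : Par a c s0 s1) (θ : ℝ) :
    Py a c s0 s1 (θ : ℂ) = (starRingEnd ℂ) (Px a c s0 s1 (θ : ℂ)) := by
  obtain ⟨r, hr, hE, -, -, hY⟩ := p.coords θ
  unfold Py Px kk
  rw [hY, hE, Sg_real]
  simp only [map_div₀, map_mul, map_add, map_neg, map_sub, map_one, Complex.conj_I,
    Complex.conj_ofReal, Complex.conj_conj, map_ofNat, map_natCast]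
  ring

end real

section loop

variable {a c : ℕ} {s0 s1 : ℝ}

/-- the parameter -/
noncomputable def zt (ε t : ℝ) : ℂ := ((2 * π * t : ℝ) : ℂ) - (ε : ℂ) * Complex.I

theorem hd_zt (ε t : ℝ) : HasDerivAt (zt ε) (2 * π : ℂ) t := by
  unfold zt
  have h := (((hasDerivAt_id t).const_mul (2 * π)).ofReal_comp).sub_const ((ε : ℂ) * Complex.I)
  refine h.congr_deriv ?_
  push_cast
  ring

theorem zt_zero (t : ℝ) : zt 0 t = ((2 * π * t : ℝ) : ℂ) := by
  unfold zt
  rw [Complex.ofReal_zero, zero_mul, sub_zero]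

theorem cont_zt : Continuous fun q : ℝ × ℝ => zt q.1 q.2 := by
  unfold zt
  fun_prop

theorem Par.hd_X_zt (p : Par a c s0 s1) {ε t : ℝ} (h : zt ε t ∈ Om a c s0 s1) :
    HasDerivAt (fun t => Xg a c s0 s1 (zt ε t))
      (2 * π * Px a c s0 s1 (zt ε t) * Xg a c s0 s1 (zt ε t)) t := by
  refine ((p.hd_X h).comp t (hd_zt ε t)).congr_deriv ?_
  ring

theorem Par.hd_Y_zt (p : Par a c s0 s1) {ε t : ℝ} (h : zt ε t ∈ Om a c s0 s1) :
    HasDerivAt (fun t => Yg a c s0 s1 (zt ε t))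
      (2 * π * Py a c s0 s1 (zt ε t) * Yg a c s0 s1 (zt ε t)) t := by
  refine ((p.hd_Y h).comp t (hd_zt ε t)).congr_deriv ?_
  ring

theorem zt_add_one (ε t : ℝ) : zt ε (t + 1) = zt ε t + 2 * π := by
  unfold zt
  push_cast
  ring

theorem Sg_per (z : ℂ) : Sg s0 s1 (z + 2 * π) = Sg s0 s1 z := by
  unfold Sg
  rw [Complex.cos_add_two_pi]

theorem Eg_per (z : ℂ) : Eg a c s0 s1 (z + 2 * π) = Eg a c s0 s1 z := by
  unfold Eg
  rw [Sg_per]

theorem Zg_per (z : ℂ) : Zg a c s0 s1 (z + 2 * π) = Zg a c s0 s1 z := by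
  unfold Zg
  rw [Sg_per, Eg_per, Complex.sin_add_two_pi]

theorem Qg_per (z : ℂ) : Qg a c s0 s1 (z + 2 * π) = Qg a c s0 s1 z := by
  unfold Qg
  rw [Sg_per]

theorem Xg_per (z : ℂ) : Xg a c s0 s1 (z + 2 * π) = Xg a c s0 s1 z := by
  unfold Xg
  rw [Qg_per, Zg_per]

theorem Yg_per (z : ℂ) : Yg a c s0 s1 (z + 2 * π) = Yg a c s0 s1 z := by
  unfold Yg
  rw [Qg_per, Zg_per]

theorem Om_per {z : ℂ} : z + 2 * π ∈ Om a c s0 s1 ↔ z ∈ Om a c s0 s1 := by
  unfold Om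
  rw [mem_ofPred_eq, mem_ofPred_eq, Sg_per]

theorem sin_ne_zero_of {t : ℝ} (ht : t ∈ Ioo (0 : ℝ) 1 \ {1 / 2}) : Real.sin (2 * π * t) ≠ 0 := by
  intro h
  rw [Real.sin_eq_zero_iff] at h
  obtain ⟨n, hn⟩ := h
  have hpi := Real.pi_pos
  have h1 : (n : ℝ) = 2 * t := by
    have : (n : ℝ) * π = 2 * t * π := by rw [hn]; ring
    exact mul_right_cancel₀ hpi.ne' this
  have h2 : (0 : ℝ) < n := by rw [h1]; linarith [ht.1.1]
  have h3 : (n : ℝ) < 2 := by rw [h1]; linarith [ht.1.2]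
  have h4 : n = 1 := by
    have h5 : 0 < n := by exact_mod_cast h2
    have h6 : n < 2 := by exact_mod_cast h3
    omega
  apply ht.2
  rw [mem_singleton_iff]
  rw [h4] at h1
  push_cast at h1
  linarith

/-- the loop `y = x̄` -/
noncomputable def Par.lp (p : Par a c s0 s1) : Lp where
  x t := Xg a c s0 s1 (zt 0 t)
  P t := 2 * π * Px a c s0 s1 (zt 0 t)
  hd t := p.hd_X_zt (by
    rw [zt_zero]
    exact p.mem_Om _)
  cP := by
    have h : Continuous fun t => Px a c s0 s1 (zt 0 t) :=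
      p.cont_Px.comp_continuous (by unfold zt; fun_prop) fun t => by
        rw [zt_zero]
        exact p.mem_Om _
    exact continuous_const.mul h
  per := by
    have h := zt_add_one 0 0
    rw [zero_add] at h
    rw [h, Xg_per]
  ne0 t := p.X_ne (by
    rw [zt_zero]
    exact p.mem_Om _)
  ne1 t s hs := by
    intro h
    rw [zt_zero] at h
    have h1 := congrArg Complex.im h
    have h2 := congrArg Complex.re h
    rw [Complex.im_ofReal_mul, Complex.one_im] at h1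
    rw [Complex.re_ofReal_mul, Complex.one_re] at h2
    by_cases h3 : Real.sin (2 * π * t) = 0
    · rcases (p.at_real h3).2 with h4 | h4
      · have h5 := Real.one_le_exp hs
        nlinarith
      · have h5 := Real.exp_pos s
        nlinarith
    · exact mul_ne_zero (Real.exp_pos s).ne' (p.im_ne h3) h1
  S := {1 / 2}
  cS := countable_singleton _
  im t ht := by
    rw [zt_zero]
    exact p.im_ne (sin_ne_zero_of ht)
  pos t _ := by
    rw [zt_zero]
    have h : (2 * π * Px a c s0 s1 ((2 * π * t : ℝ) : ℂ)).im =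
        2 * π * (Px a c s0 s1 ((2 * π * t : ℝ) : ℂ)).im := by
      have : (2 * π * Px a c s0 s1 ((2 * π * t : ℝ) : ℂ)) =
          ((2 * π : ℝ) : ℂ) * Px a c s0 s1 ((2 * π * t : ℝ) : ℂ) := by push_cast; rfl
      rw [this, Complex.im_ofReal_mul]
    rw [h]
    have h1 := p.Px_im_pos (2 * π * t)
    have := Real.pi_pos
    positivity
  some := by
    refine ⟨1 / 4, ⟨by norm_num, by norm_num⟩, ?_, ?_⟩
    · rw [zt_zero]
      exact p.im_ne (sin_ne_zero_of ⟨⟨by norm_num, by norm_num⟩, by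
        rw [mem_singleton_iff]; norm_num⟩)
    · rw [zt_zero]
      have h : (2 * π * Px a c s0 s1 ((2 * π * (1 / 4) : ℝ) : ℂ)).im =
          2 * π * (Px a c s0 s1 ((2 * π * (1 / 4) : ℝ) : ℂ)).im := by
        have : (2 * π * Px a c s0 s1 ((2 * π * (1 / 4) : ℝ) : ℂ)) =
            ((2 * π : ℝ) : ℂ) * Px a c s0 s1 ((2 * π * (1 / 4) : ℝ) : ℂ) := by push_cast; rfl
        rw [this, Complex.im_ofReal_mul]
      rw [h]
      have h1 := p.Px_im_pos (2 * π * (1 / 4))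
      have := Real.pi_pos
      positivity

/-- The tube. -/
theorem Par.tube (p : Par a c s0 s1) : ∃ δ > 0, ∀ ε ∈ Icc (0 : ℝ) δ, ∀ t, zt ε t ∈ Om a c s0 s1 := by
  have h1 : ∀ᶠ ε in 𝓝 (0 : ℝ), ∀ t ∈ Icc (0 : ℝ) 1, zt ε t ∈ Om a c s0 s1 := by
    refine isCompact_Icc.eventually_forall_of_forall_eventually fun t _ => ?_
    have h2 : zt 0 t ∈ Om a c s0 s1 := by
      rw [zt_zero]
      exact p.mem_Om _
    exact cont_zt.continuousAt.eventually (isOpen_Om.mem_nhds h2)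
  obtain ⟨δ, hδ, h2⟩ := Metric.eventually_nhds_iff.1 h1
  refine ⟨δ / 2, by linarith, fun ε hε t => ?_⟩
  have h3 : ∀ (n : ℕ) (t : ℝ), zt ε (t + n) ∈ Om a c s0 s1 ↔ zt ε t ∈ Om a c s0 s1 := by
    intro n
    induction n with
    | zero => intro t; simp
    | succ n ih =>
      intro t
      have : t + ((n + 1 : ℕ) : ℝ) = (t + n) + 1 := by push_cast; ring
      rw [this, zt_add_one, Om_per, ih]
  have h4 : zt ε (Int.fract t) ∈ Om a c s0 s1 := by
    refine h2 ?_ _ ⟨Int.fract_nonneg t, (Int.fract_lt_one t).le⟩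
    rw [Real.dist_eq, sub_zero, abs_of_nonneg hε.1]
    linarith [hε.2]
  have h5 : t = Int.fract t + ⌊t⌋ := (Int.fract_add_floor t).symm
  obtain ⟨n, hn | hn⟩ := Int.eq_nat_or_neg ⌊t⌋
  · rw [hn] at h5
    rw [h5]
    exact (h3 n _).2 h4
  · rw [hn] at h5
    have h6 : t + (n : ℝ) = Int.fract t := by
      have h7 := h5
      push_cast at h7
      linarith
    rw [← h6] at h4
    exact (h3 n _).1 h4

end loop

end Pool.Agent.P8H1.SF
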