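import Pool.Agent.P8H1.SF.Form
set_option autoImplicit false

/-!
The integral of the form along the dilated loops is strictly increasing.
-/

namespace Pool.Agent.P8H1.SF

open Real Set Filter Topology MeasureTheory
open Pool.Agent.N65.TK

/-- A loop around `0` and `1` whose dilations avoid `1`, with increasing argument. -/
structure Lp where
  /-- the loop -/
  x : ℝ → ℂ
  /-- its logarithmic derivative -/
  P : ℝ → ℂ
  hd : ∀ t, HasDerivAt x (P t * x t) t
  cP : Continuous P
  per : x 1 = x 0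
  ne0 : ∀ t, x t ≠ 0
  ne1 : ∀ t, ∀ s : ℝ, 0 ≤ s → (Real.exp s : ℂ) * x t ≠ 1
  /-- the exceptional points -/
  S : Set ℝ
  cS : S.Countable
  im : ∀ t ∈ Ioo (0 : ℝ) 1 \ S, (x t).im ≠ 0
  pos : ∀ t ∈ Icc (0 : ℝ) 1, 0 ≤ (P t).im
  some : ∃ t ∈ Ioo (0 : ℝ) 1, (x t).im ≠ 0 ∧ 0 < (P t).im

section cont

variable {E : Type*} [TopologicalSpace E] {f w g : E → ℂ} (a c : ℝ)

theorem cont_Tc (hf : Continuous f) (h0 : ∀ x, f x ≠ 0) : Continuous fun x => T (f x) :=
  continuousOn_T.comp_continuous hf h0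

theorem cont_Dc (hf : Continuous f) (h0 : ∀ x, f x ≠ 0) : Continuous fun x => D (f x) :=
  continuousOn_D.comp_continuous hf h0

theorem cont_kk (hf : Continuous f) (h1 : ∀ x, f x ≠ 1) : Continuous fun x => kk (f x) := by
  unfold kk
  exact hf.neg.div (continuous_const.sub hf) fun x => sub_ne_zero.2 (Ne.symm (h1 x))

theorem cont_L (hf : Continuous f) (h0 : ∀ x, f x ≠ 0) : Continuous fun x => Real.log ‖f x‖ :=
  hf.norm.log fun x => norm_ne_zero_iff.2 (h0 x)

theorem cont_cj (hf : Continuous f) : Continuous fun x => (starRingEnd ℂ) (f x) :=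
  Complex.continuous_conj.comp hf

theorem cj_ne {z : ℂ} (h : z ≠ 0) : (starRingEnd ℂ) z ≠ 0 := (map_ne_zero _).2 h

theorem cont_Gz (hf : Continuous f) (h0 : ∀ x, f x ≠ 0) (h1 : ∀ x, f x ≠ 1) :
    Continuous fun x => Gz a c (f x) := by
  have h2 : ∀ x, 1 - f x ≠ 0 := fun x => sub_ne_zero.2 (Ne.symm (h1 x))
  have h3 : ∀ x, 1 - (f x)⁻¹ ≠ 0 := fun x => sub_ne_zero.2 fun h => h1 x (inv_eq_one.1 h.symm)
  have cs : Continuous fun x => 1 - f x := continuous_const.sub hf
  have ci : Continuous fun x => 1 - (f x)⁻¹ := continuous_const.sub (hf.inv₀ h0)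
  have t1 := cont_Tc ((cont_cj hf).div hf h0) fun x => div_ne_zero (cj_ne (h0 x)) (h0 x)
  have t2 := cont_Tc (cs.div (cont_cj cs) fun x => cj_ne (h2 x)) fun x =>
    div_ne_zero (h2 x) (cj_ne (h2 x))
  have t3 := cont_Tc hf h0
  have t4 := cont_Tc cs h2
  have t5 := cont_Tc ci h3
  have t6 := cont_Tc ((cs.mul (cont_cj hf)).div (hf.mul (cont_cj cs)) fun x =>
    mul_ne_zero (h0 x) (cj_ne (h2 x))) fun x =>
      div_ne_zero (mul_ne_zero (h2 x) (cj_ne (h0 x))) (mul_ne_zero (h0 x) (cj_ne (h2 x)))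
  unfold Gz
  exact ((continuous_const.mul t1).add (continuous_const.mul t2)).add
    (continuous_const.mul (((t3.add t4).add t5).sub t6))

theorem cont_Fz (hf : Continuous f) (hg : Continuous g) (h0 : ∀ x, f x ≠ 0) (h1 : ∀ x, f x ≠ 1) :
    Continuous fun x => Fz a c (f x) (g x) := by
  have h2 : ∀ x, 1 - f x ≠ 0 := fun x => sub_ne_zero.2 (Ne.symm (h1 x))
  have cs : Continuous fun x => 1 - f x := continuous_const.sub hf
  have t3 := cont_Tc hf h0
  have t4 := cont_Tc cs h2
  have d3 := cont_Dc hf h0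
  have gk := hg.mul (cont_kk hf h1)
  have gr := Complex.continuous_re.comp gk
  have gi := Complex.continuous_im.comp gk
  have hgr := Complex.continuous_re.comp hg
  have hgi := Complex.continuous_im.comp hg
  have l1 := cont_L hf h0
  have l2 := cont_L cs h2
  have G := cont_Gz a c hf h0 h1
  unfold Fz
  exact ((((continuous_const.mul t3).mul gi).sub ((continuous_const.mul t4).mul hgi)).add
    ((continuous_const.mul d3).mul ((l1.mul gr).sub (l2.mul hgr)))).add
    (G.mul ((continuous_const.mul hgi).add (continuous_const.mul gi)))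

theorem cont_dF (hf : Continuous f) (hw : Continuous w) (hg : Continuous g) (h0 : ∀ x, f x ≠ 0)
    (h1 : ∀ x, f x ≠ 1) : Continuous fun x => dF a c (f x) (w x) (g x) := by
  have h2 : ∀ x, 1 - f x ≠ 0 := fun x => sub_ne_zero.2 (Ne.symm (h1 x))
  have cs : Continuous fun x => 1 - f x := continuous_const.sub hf
  have t3 := cont_Tc hf h0
  have t4 := cont_Tc cs h2
  have d3 := cont_Dc hf h0
  have ck := cont_kk hf h1
  have gk := hg.mul ck
  have gr := Complex.continuous_re.comp gk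
  have gi := Complex.continuous_im.comp gk
  have wk := hw.mul ck
  have wr := Complex.continuous_re.comp wk
  have wi := Complex.continuous_im.comp wk
  have hgr := Complex.continuous_re.comp hg
  have hgi := Complex.continuous_im.comp hg
  have hwr := Complex.continuous_re.comp hw
  have hwi := Complex.continuous_im.comp hw
  have q := hg.mul (hw.mul (ck.mul (continuous_const.sub ck : Continuous fun x => 1 - kk (f x))))
  have qr := Complex.continuous_re.comp q
  have qi := Complex.continuous_im.comp q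
  have l1 := cont_L hf h0
  have l2 := cont_L cs h2
  have G := cont_Gz a c hf h0 h1
  have e1 := cont_Dc ((cont_cj hf).div hf h0) fun x => div_ne_zero (cj_ne (h0 x)) (h0 x)
  have e2 := cont_Dc (cs.div (cont_cj cs) fun x => cj_ne (h2 x)) fun x =>
    div_ne_zero (h2 x) (cj_ne (h2 x))
  have e6 := cont_Dc ((cs.mul (cont_cj hf)).div (hf.mul (cont_cj cs)) fun x =>
    mul_ne_zero (h0 x) (cj_ne (h2 x))) fun x =>
      div_ne_zero (mul_ne_zero (h2 x) (cj_ne (h0 x))) (mul_ne_zero (h0 x) (cj_ne (h2 x)))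
  unfold dF dG
  refine Continuous.add (Continuous.add (Continuous.add (Continuous.add (Continuous.sub
    (Continuous.sub ?_ ?_) ?_) ?_) ?_) ?_) ?_
  · exact (continuous_const.mul ((d3.neg.mul hwi).add ((continuous_const.mul l1).mul
      ((l2.mul hwr).sub (l1.mul wr))))).mul gi
  · exact (continuous_const.mul t3).mul qi
  · exact (continuous_const.mul ((d3.mul wi).add ((continuous_const.mul l2).mul
      ((l1.mul wr).sub (l2.mul hwr))))).mul hgi
  · exact (continuous_const.mul ((l1.mul wi).sub (l2.mul hwi))).mul ((l1.mul gr).sub (l2.mul hgr))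
  · exact (continuous_const.mul d3).mul (((hwr.mul gr).add (l1.mul qr)).sub (wr.mul hgr))
  · exact ((((continuous_const.mul e1).mul hwi).sub ((continuous_const.mul e2).mul wi)).add
      ((continuous_const.mul e6).mul (wi.sub hwi))).mul
      ((continuous_const.mul hgi).add (continuous_const.mul gi))
  · exact G.mul (continuous_const.mul qi)

end cont

section main

variable (γ : Lp) (a c : ℝ)

theorem Lp.cx : Continuous γ.x := continuous_iff_continuousAt.2 fun t => (γ.hd t).continuousAt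

/-- the dilated loops -/
noncomputable def Lp.X (s t : ℝ) : ℂ := (Real.exp s : ℂ) * γ.x t

theorem Lp.X0 (s t : ℝ) : γ.X s t ≠ 0 :=
  mul_ne_zero (by exact_mod_cast (Real.exp_pos s).ne') (γ.ne0 t)

theorem Lp.X1 {s : ℝ} (hs : 0 ≤ s) (t : ℝ) : γ.X s t ≠ 1 := γ.ne1 t s hs

theorem Lp.cX : Continuous fun q : ℝ × ℝ => γ.X q.1 q.2 := by
  unfold Lp.X
  have := γ.cx
  fun_prop

theorem Lp.hds (s t : ℝ) : HasDerivAt (fun s => γ.X s t) (1 * γ.X s t) s := by
  unfold Lp.X
  have h := (Real.hasDerivAt_exp s).ofReal_comp.mul_const (γ.x t)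
  refine h.congr_deriv ?_
  ring

theorem Lp.hdt (s t : ℝ) : HasDerivAt (fun t => γ.X s t) (γ.P t * γ.X s t) t := by
  unfold Lp.X
  refine ((γ.hd t).const_mul _).congr_deriv ?_
  ring

theorem Lp.X_im {s t : ℝ} (h : (γ.x t).im ≠ 0) : (γ.X s t).im ≠ 0 := by
  unfold Lp.X
  rw [Complex.im_ofReal_mul]
  exact mul_ne_zero (Real.exp_pos s).ne' h

/-- the integral of the form -/
noncomputable def Lp.U (s : ℝ) : ℝ := ∫ t in (0 : ℝ)..1, Fz a c (γ.X s t) (γ.P t)

theorem Lp.cF : Continuous fun q : ℝ × ℝ => Fz a c (γ.X (max q.1 0) q.2) (γ.P q.2) :=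
  cont_Fz a c (γ.cX.comp (by fun_prop : Continuous fun q : ℝ × ℝ => (max q.1 0, q.2)))
    (γ.cP.comp continuous_snd) (fun q => γ.X0 _ _) fun q => γ.X1 (le_max_right _ _) _

theorem Lp.cdF : Continuous fun q : ℝ × ℝ => dF a c (γ.X (max q.1 0) q.2) 1 (γ.P q.2) :=
  cont_dF a c (γ.cX.comp (by fun_prop : Continuous fun q : ℝ × ℝ => (max q.1 0, q.2)))
    continuous_const (γ.cP.comp continuous_snd) (fun q => γ.X0 _ _)
    fun q => γ.X1 (le_max_right _ _) _

theorem Lp.cU : ContinuousOn (γ.U a c) (Ici 0) := by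
  have h := intervalIntegral.continuous_parametric_intervalIntegral_of_continuous' (μ := volume)
    (f := fun s t => Fz a c (γ.X (max s 0) t) (γ.P t)) (γ.cF a c) 0 1
  refine h.continuousOn.congr fun s hs => ?_
  unfold Lp.U
  simp only [max_eq_left (mem_Ici.1 hs)]

/-- the density -/
noncomputable def Lp.E (s t : ℝ) : ℝ :=
  4 / 3 * (D (γ.X s t) * (γ.X s t).im) / ‖1 - γ.X s t‖ ^ 2 * (γ.P t).im

theorem Lp.E_nonneg {s t : ℝ} (ht : t ∈ Icc (0 : ℝ) 1) : 0 ≤ γ.E s t := by
  unfold Lp.E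
  have h1 := D_mul_im_nonneg (γ.X s t)
  have h2 := γ.pos t ht
  positivity

theorem Lp.cE {s : ℝ} (hs : 0 ≤ s) : Continuous (γ.E s) := by
  unfold Lp.E
  have hX : Continuous (γ.X s) := by
    unfold Lp.X
    have := γ.cx
    fun_prop
  have h1 := cont_Dc hX fun t => γ.X0 s t
  have h2 := Complex.continuous_im.comp hX
  have h3 := Complex.continuous_im.comp γ.cP
  exact ((continuous_const.mul (h1.mul h2)).div ((continuous_const.sub hX).norm.pow 2)
    fun t => pow_ne_zero 2 (norm_ne_zero_iff.2 (sub_ne_zero.2 (Ne.symm (γ.X1 hs t))))).mul h3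

theorem Lp.int_E_pos {s : ℝ} (hs : 0 ≤ s) : 0 < ∫ t in (0 : ℝ)..1, γ.E s t := by
  obtain ⟨t, ht, h1, h2⟩ := γ.some
  refine intervalIntegral.integral_pos one_pos (γ.cE hs).continuousOn
    (fun t ht => γ.E_nonneg (Ioc_subset_Icc_self ht)) ⟨t, Ioo_subset_Icc_self ht, ?_⟩
  unfold Lp.E
  have h3 := D_mul_im_pos (γ.X_im (s := s) h1)
  have h4 : 0 < ‖1 - γ.X s t‖ := norm_pos_iff.2 (sub_ne_zero.2 (Ne.symm (γ.X1 hs t)))
  positivity

variable {a c} (ha : a ≠ 0) (hc : c ≠ 0) (hac : a + c ≠ 0)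

include ha hc hac

theorem Lp.int_dF {s : ℝ} (hs : 0 ≤ s) :
    (∫ t in (0 : ℝ)..1, dF a c (γ.X s t) 1 (γ.P t)) = ∫ t in (0 : ℝ)..1, γ.E s t := by
  have hX : Continuous (γ.X s) := by
    unfold Lp.X
    have := γ.cx
    fun_prop
  have c1 : Continuous fun t => dF a c (γ.X s t) (γ.P t) 1 :=
    cont_dF a c hX γ.cP continuous_const (fun t => γ.X0 s t) fun t => γ.X1 hs t
  have c2 : Continuous fun t => Fz a c (γ.X s t) 1 :=
    cont_Fz a c hX continuous_const (fun t => γ.X0 s t) fun t => γ.X1 hs t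
  have h1 : ∫ t in (0 : ℝ)..1, dF a c (γ.X s t) (γ.P t) 1 = 0 := by
    rw [integral_eq_of_hasDerivAt_off_countable_of_le (fun t => Fz a c (γ.X s t) 1)
      (fun t => dF a c (γ.X s t) (γ.P t) 1) zero_le_one γ.cS c2.continuousOn (fun t ht =>
        hd_Fz a c (γ.hdt s t) 1 (γ.X_im (γ.im t ht)) ha hc hac) (c1.intervalIntegrable _ _)]
    have : γ.X s 1 = γ.X s 0 := by
      unfold Lp.X
      rw [γ.per]
    rw [this, sub_self]
  have h2 : (∫ t in (0 : ℝ)..1, dF a c (γ.X s t) 1 (γ.P t)) =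
      ∫ t in (0 : ℝ)..1, (dF a c (γ.X s t) (γ.P t) 1 + γ.E s t) := by
    have hcount : (γ.S ∪ {1}).Countable := γ.cS.union (countable_singleton 1)
    refine intervalIntegral.integral_congr_ae ?_
    filter_upwards [hcount.ae_notMem volume] with t ht1 ht
    rw [uIoc_of_le zero_le_one] at ht
    rw [mem_union, not_or] at ht1
    have ht2 : t ∈ Ioo (0 : ℝ) 1 \ γ.S :=
      ⟨⟨ht.1, lt_of_le_of_ne ht.2 fun h => ht1.2 h⟩, ht1.1⟩
    rw [curl a c (γ.P t) (γ.X_im (γ.im t ht2)) ha hc hac, kk_im (γ.X1 hs t)]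
    unfold Lp.E
    ring
  rw [h2, intervalIntegral.integral_add (c1.intervalIntegrable _ _)
    ((γ.cE hs).intervalIntegrable _ _), h1, zero_add]

theorem Lp.hasDerivAt_U {s₀ : ℝ} (hs : 0 < s₀) :
    HasDerivAt (γ.U a c) (∫ t in (0 : ℝ)..1, γ.E s₀ t) s₀ := by
  rw [← γ.int_dF ha hc hac hs.le]
  obtain ⟨C, hC⟩ := (isCompact_Icc.prod isCompact_Icc :
    IsCompact (Icc (0 : ℝ) (s₀ + 1) ×ˢ Icc (0 : ℝ) 1)).exists_bound_of_continuousOn
    (γ.cdF a c).continuousOn
  have key := intervalIntegral.hasDerivAt_integral_of_dominated_loc_of_deriv_le (μ := volume)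
    (a := 0) (b := 1) (F := fun s t => Fz a c (γ.X s t) (γ.P t))
    (F' := fun s t => dF a c (γ.X s t) 1 (γ.P t)) (x₀ := s₀) (s := Ioo 0 (s₀ + 1))
    (bound := fun _ => C) (Ioo_mem_nhds hs (by linarith)) ?_ ?_ ?_ ?_ intervalIntegrable_const ?_
  · exact key.2
  · filter_upwards [Ioi_mem_nhds hs] with s hs'
    have h := (γ.cF a c).comp (continuous_const.prodMk continuous_id : Continuous fun t : ℝ => (s, t))
    refine Continuous.aestronglyMeasurable (h.congr fun t => ?_)
    simp only [Function.comp, max_eq_left (mem_Ioi.1 hs').le, id]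
  · have h := (γ.cF a c).comp (continuous_const.prodMk continuous_id : Continuous fun t : ℝ => (s₀, t))
    refine Continuous.intervalIntegrable (h.congr fun t => ?_) _ _
    simp only [Function.comp, max_eq_left hs.le, id]
  · have h := (γ.cdF a c).comp (continuous_const.prodMk continuous_id : Continuous fun t : ℝ => (s₀, t))
    refine Continuous.aestronglyMeasurable (h.congr fun t => ?_)
    simp only [Function.comp, max_eq_left hs.le, id]
  · refine Eventually.of_forall fun t ht s hs' => ?_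
    rw [uIoc_of_le zero_le_one] at ht
    have h := hC (s, t) ⟨⟨hs'.1.le, hs'.2.le⟩, Ioc_subset_Icc_self ht⟩
    simpa only [max_eq_left hs'.1.le] using h
  · have hcount : (γ.S ∪ {1}).Countable := γ.cS.union (countable_singleton 1)
    filter_upwards [hcount.ae_notMem volume] with t ht1 ht s _
    rw [uIoc_of_le zero_le_one] at ht
    rw [mem_union, not_or] at ht1
    have ht2 : t ∈ Ioo (0 : ℝ) 1 \ γ.S :=
      ⟨⟨ht.1, lt_of_le_of_ne ht.2 fun h => ht1.2 h⟩, ht1.1⟩
    exact hd_Fz a c (γ.hds s t) (γ.P t) (γ.X_im (γ.im t ht2)) ha hc hac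

theorem Lp.strictMono_U : StrictMonoOn (γ.U a c) (Ici 0) := by
  refine strictMonoOn_of_hasDerivWithinAt_pos (convex_Ici 0) (γ.cU a c)
    (f' := fun s => ∫ t in (0 : ℝ)..1, γ.E s t) ?_ ?_
  · intro s hs
    rw [interior_Ici] at hs
    exact (γ.hasDerivAt_U ha hc hac hs).hasDerivWithinAt
  · intro s hs
    rw [interior_Ici] at hs
    exact γ.int_E_pos (le_of_lt hs)

end main

end Pool.Agent.P8H1.SF
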